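import Pool.Agent.Q6.TY.Stm2

set_option autoImplicit false

/-!
# Project TY, second stage (row MP_4c3a42_al, Q1 affirmative): the statements

Every consistent system `M, E` has a complex solution in the polydisc of radius
`2 ^ (2 ^ (t - 1))`: if there are infinitely many solutions, cut the solution set down to a
finite set by equations `x i = ζ i` with roots of unity `ζ i` of different large prime orders
(`S_CUT`), and use all conjugates of one point (`S_CONJ`, `S_LOWX`).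
-/

namespace Pool.Agent.Q6.TY

open MvPolynomial

/-- the span of the vectors of the binomials of `F` and of the unit vectors of `I` -/
def VI {t : ℕ} (F : Set (P t)) (I : Finset (Fin t)) : Submodule ℚ (Fin t → ℚ) :=
  Vsp F ⊔ Submodule.span ℚ {w | ∃ i ∈ I, w = Pi.single i 1}

/-- JOB TY-COF.  A coordinate takes on an algebraic set finitely many or almost all values.
Proof: let `A = MvPolynomial (Fin t) ℂ / (G)` and consider `ℂ[T] → A`, `T ↦ x i`.  If it is not
injective the coordinate has finitely many values (the roots of a nonzero polynomial), against the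
hypothesis.  Otherwise this is Chevalley's theorem (Mathlib: `Mathlib/RingTheory/Spectrum/Prime/
Chevalley.lean`, `PrimeSpectrum.isConstructible_comap_image` or similar; the image contains the
generic point, so it contains a nonempty open set; closed points of the image lift to closed
points since all these rings are Jacobson), or by hand: let `K = ℂ(T)`; by Noether
normalization (`exists_integral_inj_algHom_of_fg`) `K ⊗ A` is integral over a polynomial ring
`K[y]`, `y j ∈ A`; for a suitable nonzero `g ∈ ℂ[T]` the localization `A_g` is integral over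
`ℂ[T]_g[y]`, which injects; for `g z ≠ 0` the homomorphism `T ↦ z`, `y ↦ 0` to `ℂ` has a maximal
ideal as kernel, which lies under a maximal ideal of `A_g` (`Ideal.exists_ideal_over_maximal_of_isIntegral`),
whose residue field is `ℂ` (Nullstellensatz). -/
def S_COF : Prop := ∀ (t : ℕ) (G : Set (MvPolynomial (Fin t) ℂ)) (i : Fin t),
  {z : ℂ | ∃ q : Fin t → ℂ, (∀ g ∈ G, eval q g = 0) ∧ q i = z}.Infinite →
  ({z : ℂ | ∃ q : Fin t → ℂ, (∀ g ∈ G, eval q g = 0) ∧ q i = z}ᶜ).Finite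

/-- JOB TY-CUT (from `S_COF`).  Proof: for a finset `I` of indices and different primes `N i > K`
(`i ∈ I`) let `W I` be the set of the statement, and suppose it is nonempty (start with `I = ∅`).  If
it is infinite, then some coordinate `q i` takes infinitely many values on `W I` (a set on
which every coordinate takes finitely many values is finite), in particular `i ∉ I`.  `W I` is the
zero set of `F` and the polynomials `Φ_{N j} (X j)`, `j ∈ I` (`Polynomial.isRoot_cyclotomic_iff`).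
By `S_COF` the coordinate takes all values outside a finite set `D`.  Take a prime `N i` larger than
`K`, all `N j` and the orders of all roots of unity in `D`; then a primitive `N i`-th root of unity
is a value, so `W (I ∪ {i})` is nonempty.  Since `I` has at most `t` elements the process stops, with
a finite nonempty set, and `I ≠ ∅` as `W ∅ = Zer F` is infinite. -/
def S_CUT : Prop := ∀ (t : ℕ) (F : Set (P t)), (Zer F).Infinite → ∀ K : ℕ,
  ∃ (I : Finset (Fin t)) (N : Fin t → ℕ), I.Nonempty ∧ (∀ i ∈ I, (N i).Prime ∧ K < N i) ∧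
    (∀ i ∈ I, ∀ j ∈ I, N i = N j → i = j) ∧
    {q | q ∈ Zer F ∧ ∀ i ∈ I, IsPrimitiveRoot (q i) (N i)}.Finite ∧
    {q | q ∈ Zer F ∧ ∀ i ∈ I, IsPrimitiveRoot (q i) (N i)}.Nonempty

/-- JOB TY-CONJ.  Proof: let `N = ∏ N i` (over `I`), `ζ = ∏ p i`, a primitive `N`-th root of unity
(the orders are coprime).  For every `e` coprime to `N` there is an embedding `ℚ(ζ) → ℂ` with
`ζ ↦ ζ^e` (the cyclotomic polynomial is irreducible over `ℚ`), which extends to an embedding
`σ e : ℚ(p 1, ..., p t) → ℂ` (`IsAlgClosed.lift`, the extension is algebraic).  Every `p i`, `i ∈ I`, is a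
power of `ζ`, so `σ e (p i) = (p i)^e`.  Put `q e j = σ e (p j)`; then `mx (q e) = mx p` (embeddings of
fields are injective and fix `ℤ`).  For different `e < N` the numbers `σ e ζ = ∏ (q e) i` are
different, so the `q e` are different; there are `φ(N) = ∏ (N i - 1)` of them.  `(q e) i₀ = (p i₀)^e` is
not real since `N i₀ ≥ 3`, and `e ↦ N - e` exchanges the `e` with positive and with negative imaginary
part of `(p i₀)^e`.  Let `X` be the set of the `q e` with positive imaginary part. -/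
def S_CONJ : Prop := ∀ (t : ℕ) (p : Fin t → ℂ), (∀ i, IsAlgebraic ℚ (p i)) →
  ∀ (I : Finset (Fin t)) (N : Fin t → ℕ) (i₀ : Fin t), i₀ ∈ I →
  (∀ i ∈ I, (N i).Prime ∧ 2 < N i) → (∀ i ∈ I, ∀ j ∈ I, N i = N j → i = j) →
  (∀ i ∈ I, IsPrimitiveRoot (p i) (N i)) →
  ∃ X : Finset (Fin t → ℂ), 2 * X.card = ∏ i ∈ I, (N i - 1) ∧
    ∀ q ∈ X, mx q = mx p ∧ 0 < (q i₀).im

/-- JOB TY-LOWX.  Proof: let `Y = X ∪ conj X`, `2 |X|` different points.  For `q ∈ Y` let `L q` be a
complex polynomial which is `1` at `q` and `0` at the other points of `Y`, `c₀` a bound for the total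
degrees of all `L q`, `C₁ = 1 + 2 max ∑ |coeff (L q)|`.  For `v ∈ ℂ^X` and `f ∈ P t` let
`χ v f = Re ∑_{q ∈ X} v q * f(q)`; modulo one this is a character killing `mx p` (as `mx q = mx p`).
(a) `|v q| ≤ C₁ max_{|b| ≤ c₀} |χ v (x^b)|`: extend `χ v` complex linearly to `Λ` on complex
polynomials, `Λ g = ½ ∑ (v q g(q) + conj (v q) g(conj q))`, so `Λ (L q) = v q / 2`.
Let `R ≥ 1` bound all `|q i|`, `C₂ = |X| C₁ R^(c₀+1)`, `ε₁ = min (1/4) (1 / (4 C₂ + 1))`, and `δ > 0` with
`|X| δ R^c₀ ≤ 1/4`.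
(b) Let `|v q| ≤ δ` for all `q`, `ε ≤ ε₁`, `n ≥ c₀`, and `‖χ v (x^u)‖ < ε` (distance to `ℤ`) for all
`|u| ≤ n`.  Then `|χ v (x^u)| < ε` for all `|u| ≤ n`.  Induction on `|u|`: for `|u| ≤ c₀` the real number
is `≤ 1/4` in absolute value by the choice of `δ`; if `|u| > c₀` write `u = u' + b` with
`|b| = c₀ + 1`; by induction all `|χ v (x^(u' + b'))| < ε`, `|b'| ≤ c₀`; by (a) for `v' q = v q * q^u'`
(`χ v' f = χ v (x^u' f)`) all `|v' q| ≤ C₁ ε`, so `|χ v (x^u)| = |χ v' (x^b)| ≤ C₂ ε < 1/2`, hence it is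
its own distance to `ℤ`, `< ε`.
(c) In the situation of (b), `|v q| |q|^u ≤ C₁ ε` for `|u| ≤ n - c₀` (again (a) for `v'`), so
`|v q| ≤ C₁ ε B^(-(n-c₀))` (take `u` a multiple of the unit vector of the `m` with `|q m| ≥ B`).
(d) Let `η = 2 C₁ ε B^(-(n-c₀))`, `J = ⌊δ / (4 η)⌋` and let `v q` run through the numbers `(j + j' i) η`,
`0 ≤ j, j' ≤ J`; differences `v` of two of these functions satisfy `|v q| ≤ δ`, and
`|v q| ≥ η > C₁ ε B^(-(n-c₀))` for some `q`, so by (c) the characters are `ε`-apart.  Their number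
`(J+1)^(2|X|)` is at least `(δ / (4 η))^(2|X|) ≥ c B^(2 |X| n)`.  For `n < c₀` take the zero
character alone and `c` small. -/
def S_LOWX : Prop := ∀ (t : ℕ) (p : Fin t → ℂ) (X : Finset (Fin t → ℂ)) (i₀ : Fin t) (B : ℝ),
  1 < B → (∀ q ∈ X, mx q = mx p ∧ 0 < (q i₀).im) → (∀ q ∈ X, ∃ m, B ≤ ‖q m‖) →
  ∃ ε₁ : ℝ, 0 < ε₁ ∧ ∃ c : ℝ, 0 < c ∧ ∀ ε, 0 < ε → ε ≤ ε₁ → ∀ n : ℕ, ∃ N : ℕ,
    c * B ^ (2 * X.card * n) ≤ N ∧ HasSep (mx p) n ε N

/-- JOB TY-TORDV (from `S_DIM`, `S_TORP`, `S_TORD`).  Proof: induction on `I`.  For `I = ∅` this is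
`S_TORD`.  Step from `I` to `I ∪ {i}`, `V = VI F I`: if `Pi.single i 1 ∈ V` nothing changes and the
factor is at least one.  Otherwise let `V' = VI F (I ∪ {i})`, of rank one more, and
`f = (h i) (X i) ∈ P t`, of total degree at most `d = natDegree (h i)`.  `f ∈ tor p V'` (in the group
algebra of `ℚ^t / V'` the class of `Pi.single i 1` is zero and `f` goes to `(h i) (p i) = 0`), and
`f ∉ tor p V` (the powers of the class of `Pi.single i 1` are different and `p i ≠ 0`).  By `S_DIM` (1),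
`k' (m + d) + k m ≤ k (m + d)`, and `k' m ≤ k m` by (4), so `∑_{n ≤ N} k' n ≤ d k N`; apply
`Sm^[rank V]`. -/
def S_TORDV : Prop := ∀ (t : ℕ) (p : Fin t → ℂ) (F : Set (P t)), (∀ i, p i ≠ 0) →
  (∀ f ∈ F, f ∈ mx p) → ∀ (I : Finset (Fin t)) (h : Fin t → Polynomial ℤ),
  (∀ i ∈ I, 1 ≤ (h i).natDegree ∧ Polynomial.aeval (p i) (h i) = 0) → ∀ N : ℕ,
  (Sm^[Module.finrank ℚ (VI F I)] (fun n => (k (tor p (VI F I)) n : ℝ))) N ≤
    2 ^ Module.finrank ℚ (Vsp F) * (∏ i ∈ I, ((h i).natDegree : ℝ)) * ((N + t).choose t : ℝ)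

/-- JOB TY-TORCV (from `S_BND`, `S_TORP`; generalizes `S_TORC`, proof in
Pool/Agent/Q121/TY/TORC.lean).  Proof: let `L` be the lattice `ℤ^t ∩ V`; it is finitely generated by
differences of exponent vectors, so there is `K ≥ 1` with `p^(K w) = 1` for all `w ∈ L`.  So
`x^u - x^v ∈ tor p V` whenever `u - v ∈ K L` (`S_TORP` (6) with `σ = 1`), and the number of the classes
modulo `K L` of the exponents of degree `≤ n` is at most `C (n+1)^(t - rank V)`.  Apply `S_BND`. -/
def S_TORCV : Prop := ∀ (t : ℕ) (p : Fin t → ℂ) (V : Submodule ℚ (Fin t → ℚ)), (∀ i, p i ≠ 0) →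
  (∀ u v : Fin t →₀ ℕ, dif u v ∈ V → ∃ k : ℕ, 1 ≤ k ∧
    (∏ i, p i ^ u i) ^ k = (∏ i, p i ^ v i) ^ k) →
  ∀ ε : ℝ, 0 < ε → ∃ C : ℝ, ∀ n N : ℕ, HasSep (tor p V) n ε N →
  Real.log N ≤ C * ((n : ℝ) + 1) ^ (t - Module.finrank ℚ V)

/-- JOB TY-RAT.  Proof: the set of the rational vectors `w` such that for some `k ≥ 1` the vector
`k w` is integral and `p^(k w) = 1` is a subspace (integer powers, all `p i ≠ 0`); it contains the
vectors of the binomials of `F` (`p^u = ± p^v`) and the unit vectors of `I`. -/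
def S_RAT : Prop := ∀ (t : ℕ) (p : Fin t → ℂ) (F : Set (P t)) (I : Finset (Fin t)),
  (∀ i, p i ≠ 0) → (∀ f ∈ F, f ∈ mx p) → (∀ i ∈ I, ∃ k : ℕ, 1 ≤ k ∧ p i ^ k = 1) →
  ∀ u v : Fin t →₀ ℕ, dif u v ∈ VI F I → ∃ k : ℕ, 1 ≤ k ∧
    (∏ i, p i ^ u i) ^ k = (∏ i, p i ^ v i) ^ k

/-- JOB TY-TORS.  Proof: clear denominators: `k e_i` is an integer combination of the vectors
`ex a + ex b - ex c` of `M`, and `vl q a * vl q b * (vl q c)⁻¹ = 1` for solutions. -/
def S_TORS : Prop := ∀ (t : ℕ) (M E : Set (O t × O t × O t)) (i : Fin t),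
  ex (some i) ∈ VM M → ∃ k : ℕ, 1 ≤ k ∧ ∀ q ∈ Sol ℂ M E, (∀ j, q j ≠ 0) → q i ^ k = 1

/-- JOB TY-EXV (from `S_TORP`, `S_KRULL`, `S_ALG`; like `S_EX`, see Pool/Agent/Q121/TY/EX.lean).
Noetherian induction on `q`.  If `q ≠ mx p`, by `S_ALG` for `F ∪ G` some `f ∈ F ∪ G` is not in `q`;
since `G ⊆ tor p V ≤ q` it is in `F`, and it is not a binomial. -/
def S_EXV : Prop := ∀ (t : ℕ) (F G : Set (P t)), (Zer (F ∪ G)).Finite →
  (∀ f ∈ F, (∃ w, IsBin f w) ∨ IsLin f) → ∀ p ∈ Zer (F ∪ G), (∀ i, p i ≠ 0) →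
  ∀ V : Submodule ℚ (Fin t → ℚ), Vsp F ≤ V → (∀ g ∈ G, g ∈ tor p V) →
  ∀ q : Ideal (P t), q.IsPrime → tor p V ≤ q → q ≤ mx p →
  ∃ s : ℕ, Ch F (mx p) s q ∧ ((mx p).map (Ideal.Quotient.mk q)).height ≤ (s : ℕ∞)

end Pool.Agent.Q6.TY
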