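import Pool.Agent.Q6.TY.Final
import Pool.Agent.Q121.TY.ASTEP
import Pool.Agent.Q121.TY.EX
import Pool.Agent.Q121.TY.LIN
import Pool.Agent.Q121.TY.TORC
import Pool.Agent.Q6.TY.HAD
import Pool.Agent.Q128.TY.HADA
import Pool.Agent.Q137.TY.POS2
import Pool.Agent.Q137.TY.SMI
import Pool.Agent.Q14.TY.ALG
import Pool.Agent.Q14.TY.HGT
import Pool.Agent.Q14.TY.VOL
import Pool.Agent.Q190.TY.BND
import Pool.Agent.Q190.TY.DIM
import Pool.Agent.Q190.TY.GRO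
import Pool.Agent.Q190.TY.KRULL
import Pool.Agent.Q190.TY.LIM
import Pool.Agent.Q190.TY.MAIN
import Pool.Agent.Q190.TY.SURJ
import Pool.Agent.Q190.TY.TORD
import Pool.Agent.Q190.TY.TORP
import Pool.Agent.Q261.TY.Low

set_option autoImplicit false
set_option maxHeartbeats 400000

/-!
# Project TY: everything together
-/

namespace Pool.Agent.Q6.TY

theorem p_BND : S_BND := Pool.Agent.Q190.TY.task_BND
theorem p_DIM : S_DIM := Pool.Agent.Q190.TY.task_DIM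
theorem p_TORP : S_TORP := Pool.Agent.Q190.TY.task_TORP
theorem p_TORD : S_TORD := Pool.Agent.Q190.TY.TORD.task_TORD p_DIM p_TORP
theorem p_TORC : S_TORC := Pool.Agent.Q121.TY.task_TORC p_BND p_TORP
theorem p_HGT : S_HGT := Pool.Agent.Q14.TY.task_HGT p_TORP
theorem p_KRULL : S_KRULL := Pool.Agent.Q190.TY.task_KRULL
theorem p_ALG : S_ALG := Pool.Agent.Q14.TY.task_ALG
theorem p_LOWR : S_LOWR := Pool.Agent.Q261.TY.task_LOWR
theorem p_LOWC : S_LOWC := Pool.Agent.Q261.TY.task_LOWC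
theorem p_MAIN : S_MAIN := Pool.Agent.Q190.TY.task_MAIN Pool.Agent.Q190.TY.task_SURJ
theorem p_LIN : S_LIN := Pool.Agent.Q121.TY.task_LIN
theorem p_VOL : S_VOL := Pool.Agent.Q14.TY.task_VOL
theorem p_ASTEP : S_ASTEP := Pool.Agent.Q121.TY.task_ASTEP p_BND p_MAIN p_LIN p_VOL p_DIM
theorem p_GRO : S_GRO := Pool.Agent.Q190.TY.GRO.task_GRO p_ASTEP p_DIM
theorem p_EX : S_EX := Pool.Agent.Q121.TY.task_EX p_TORP p_KRULL p_ALG
theorem p_LIM : S_LIM := Pool.Agent.Q190.TY.task_LIM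
theorem p_SMI : S_SMI := Pool.Agent.Q137.TY.task_SMI
theorem p_HADA : S_HADA := Pool.Agent.Q128.TY.HADA.task_HADA Pool.Agent.Q6.TY.HADP.task_HAD p_TORP
theorem p_SPAN : S_SPAN := Pool.Agent.Q137.TY.task_SPAN
theorem p_INF1 : S_INF1 := Pool.Agent.Q137.TY.task_INF1
theorem p_POS2 : S_POS2 := Pool.Agent.Q137.TY.pos2_full

theorem p_CT : S_CT := ct p_BND p_DIM p_TORP p_TORD p_TORC p_HGT p_ALG p_LOWR p_LOWC p_GRO p_EX
  p_LIM p_SMI

theorem p_CT3 : S_CT3 := ct3 p_BND p_DIM p_TORP p_TORD p_HGT p_KRULL p_ALG p_LOWR p_GRO p_EX p_LIM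
  p_SMI p_HADA

/-- MP_fbd27d_al -/
theorem bound_n' (n : ℕ) (A : Set (Fin n)) (B C : Set (Fin n × Fin n × Fin n))
    (h : (SolE A B C).Finite) (x : Fin n → ℂ) (hx : x ∈ SolE A B C) (i : Fin n) :
    ‖x i‖ ≤ 2 ^ (2 ^ (n - 1)) :=
  bound_n p_CT p_CT3 p_SPAN p_INF1 p_POS2 n A B C h x hx i

/-- MP_78a2de_al -/
theorem bound_one' (n : ℕ) (A : Set (Fin n)) (B C : Set (Fin n × Fin n × Fin n))
    (hA : A.Nonempty) (h : (SolE A B C).Finite) (x : Fin n → ℂ) (hx : x ∈ SolE A B C)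
    (i : Fin n) : ‖x i‖ ≤ (2 : ℝ) ^ ((2 : ℝ) ^ ((n : ℝ) - 2)) :=
  bound_one p_CT p_CT3 p_SPAN p_INF1 p_POS2 n A B C hA h x hx i

end Pool.Agent.Q6.TY
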