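import Pool.Agent.Q6.TY.Stm3

set_option autoImplicit false
set_option maxHeartbeats 400000

/-!
# Project TY: a coordinate takes finitely many or almost all values
-/

namespace Pool.Agent.Q6.TY

open MvPolynomial PrimeSpectrum

/-- the point of the line -/
noncomputable def mz (z : ℂ) : PrimeSpectrum (Polynomial ℂ) :=
  ⟨RingHom.ker (Polynomial.evalRingHom z), RingHom.ker_isPrime _⟩

theorem mem_mz (z : ℂ) (g : Polynomial ℂ) : g ∈ (mz z).asIdeal ↔ g.eval z = 0 := by
  change Polynomial.evalRingHom z g = 0 ↔ _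
  rw [Polynomial.coe_evalRingHom]

/-- the homomorphism given by a coordinate -/
noncomputable def cof {t : ℕ} (I : Ideal (MvPolynomial (Fin t) ℂ)) (i : Fin t) :
    Polynomial ℂ →+* (MvPolynomial (Fin t) ℂ ⧸ I) :=
  (Polynomial.aeval (Ideal.Quotient.mk I (X i)) :
    Polynomial ℂ →ₐ[ℂ] (MvPolynomial (Fin t) ℂ ⧸ I)).toRingHom

theorem cof_fp {t : ℕ} (I : Ideal (MvPolynomial (Fin t) ℂ)) (i : Fin t) :
    (cof I i).FinitePresentation := by
  rw [← RingHom.FinitePresentation.of_finiteType]
  have h1 : ((cof I i).comp (Polynomial.C : ℂ →+* Polynomial ℂ)).FiniteType := by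
    have h2 : (cof I i).comp (Polynomial.C : ℂ →+* Polynomial ℂ) =
        algebraMap ℂ (MvPolynomial (Fin t) ℂ ⧸ I) := by
      ext z
      simp [cof]
    rw [h2, RingHom.finiteType_algebraMap]
    infer_instance
  exact RingHom.FiniteType.of_comp_finiteType h1

theorem cof_X {t : ℕ} (I : Ideal (MvPolynomial (Fin t) ℂ)) (i : Fin t) :
    cof I i Polynomial.X = Ideal.Quotient.mk I (X i) := by
  simp [cof]

theorem cof_C {t : ℕ} (I : Ideal (MvPolynomial (Fin t) ℂ)) (i : Fin t) (z : ℂ) :
    cof I i (Polynomial.C z) = Ideal.Quotient.mk I (C z) := by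
  simp [cof]
  rfl

theorem mz_mem_range {t : ℕ} (G : Set (MvPolynomial (Fin t) ℂ)) (i : Fin t) (z : ℂ) :
    mz z ∈ Set.range (comap (cof (Ideal.span G) i)) ↔
      ∃ q : Fin t → ℂ, (∀ g ∈ G, eval q g = 0) ∧ q i = z := by
  constructor
  · rintro ⟨Q, hQ⟩
    have hpr : (Q.asIdeal.comap (Ideal.Quotient.mk (Ideal.span G))).IsPrime :=
      Ideal.IsPrime.comap _
    obtain ⟨M, hM, hle⟩ := Ideal.exists_le_maximal _ hpr.ne_top
    obtain ⟨q, rfl⟩ := (MvPolynomial.isMaximal_iff_eq_vanishingIdeal_singleton).1 hM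
    have hmem : ∀ g, Ideal.Quotient.mk (Ideal.span G) g ∈ Q.asIdeal → eval q g = 0 := by
      intro g hg
      have h1 := hle (show g ∈ Q.asIdeal.comap (Ideal.Quotient.mk (Ideal.span G)) from hg)
      rw [mem_vanishingIdeal_singleton_iff] at h1
      simpa [MvPolynomial.aeval_eq_eval] using h1
    refine ⟨q, fun g hg => hmem g ?_, ?_⟩
    · rw [Ideal.Quotient.eq_zero_iff_mem.2 (Ideal.subset_span hg)]
      exact Q.asIdeal.zero_mem
    · have h1 : (Polynomial.X - Polynomial.C z : Polynomial ℂ) ∈ (mz z).asIdeal := by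
        rw [mem_mz]; simp
      rw [← hQ] at h1
      have h2 : cof (Ideal.span G) i (Polynomial.X - Polynomial.C z) ∈ Q.asIdeal := h1
      rw [map_sub, cof_X, cof_C, ← map_sub] at h2
      have h3 := hmem _ h2
      rw [map_sub, eval_X, eval_C] at h3
      exact sub_eq_zero.1 h3
  · rintro ⟨q, hq, rfl⟩
    have hI : ∀ g ∈ Ideal.span G, eval q g = 0 := by
      intro g hg
      have h1 : Ideal.span G ≤ RingHom.ker (eval q) := by
        rw [Ideal.span_le]
        intro g hg
        exact hq g hg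
      exact h1 hg
    set L : (MvPolynomial (Fin t) ℂ ⧸ Ideal.span G) →+* ℂ :=
      Ideal.Quotient.lift (Ideal.span G) (eval q) hI with hL
    refine ⟨⟨RingHom.ker L, RingHom.ker_isPrime _⟩, ?_⟩
    apply PrimeSpectrum.ext
    change (RingHom.ker L).comap (cof (Ideal.span G) i) = RingHom.ker (Polynomial.evalRingHom (q i))
    rw [RingHom.comap_ker]
    congr 1
    refine Polynomial.ringHom_ext (fun z => ?_) ?_
    · rw [RingHom.comp_apply, cof_C, hL, Ideal.Quotient.lift_mk]
      simp
    · rw [RingHom.comp_apply, cof_X, hL, Ideal.Quotient.lift_mk]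
      simp

theorem task_COF : S_COF := by
  intro t G i hinf
  set Im : Set ℂ := {z : ℂ | ∃ q : Fin t → ℂ, (∀ g ∈ G, eval q g = 0) ∧ q i = z} with hIm
  have hcon := PrimeSpectrum.isConstructible_range_comap (cof_fp (Ideal.span G) i)
  obtain ⟨S, hS⟩ := PrimeSpectrum.exists_constructibleSetData_iff.2 hcon
  have hz : ∀ z, z ∈ Im ↔ ∃ D ∈ S, (∀ j, (D.g j).eval z = 0) ∧ D.f.eval z ≠ 0 := by
    intro z
    change (∃ q : Fin t → ℂ, (∀ g ∈ G, eval q g = 0) ∧ q i = z) ↔ _
    rw [← mz_mem_range, ← hS]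
    simp only [ConstructibleSetData.toSet, Set.mem_iUnion, exists_prop,
      BasicConstructibleSetData.toSet, Set.mem_sdiff, mem_zeroLocus]
    refine exists_congr fun D => and_congr_right fun _ => and_congr ?_ (not_congr ?_)
    · constructor
      · intro h j
        exact (mem_mz z _).1 (h ⟨j, rfl⟩)
      · rintro h _ ⟨j, rfl⟩
        exact (mem_mz z _).2 (h j)
    · constructor
      · intro h
        exact (mem_mz z _).1 (h rfl)
      · intro h x hx
        rw [Set.mem_singleton_iff.1 hx]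
        exact (mem_mz z _).2 h
  by_cases hD : ∃ D ∈ S, (∀ j, D.g j = 0) ∧ D.f ≠ 0
  · obtain ⟨D, hDS, hg, hf⟩ := hD
    refine (Polynomial.finite_setOfPred_isRoot hf).subset fun z hzc => ?_
    by_contra hne
    apply hzc
    rw [hz]
    exact ⟨D, hDS, fun j => by rw [hg j]; simp, hne⟩
  · exfalso
    push Not at hD
    apply hinf
    have hfin : (⋃ D ∈ S, {z : ℂ | (∀ j, (D.g j).eval z = 0) ∧ D.f.eval z ≠ 0}).Finite := by
      refine Set.Finite.biUnion S.finite_toSet fun D hDS => ?_
      by_cases hg : ∀ j, D.g j = 0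
      · have hf := hD D hDS hg
        have : {z : ℂ | (∀ j, (D.g j).eval z = 0) ∧ D.f.eval z ≠ 0} = ∅ := by
          ext z
          simp [hf]
        rw [this]
        exact Set.finite_empty
      · push Not at hg
        obtain ⟨j, hj⟩ := hg
        exact (Polynomial.finite_setOfPred_isRoot hj).subset fun z h => h.1 j
    refine hfin.subset fun z h => ?_
    obtain ⟨D, hDS, h1⟩ := (hz z).1 h
    exact Set.mem_biUnion (x := D) hDS h1

end Pool.Agent.Q6.TY
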