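import Pool.Agent.Q6.TY.MinNorm
import Pool.Agent.Q6.TY.COF

set_option autoImplicit false
set_option maxHeartbeats 400000

/-!
# Project TY, second stage: maximal systems
-/

namespace Pool.Agent.Q6.TY

open MvPolynomial

/-- the polynomials of a system in `n` unknowns -/
def polE {n : ℕ} (A : Set (Fin n)) (B C : Set (Fin n × Fin n × Fin n)) :
    Set (MvPolynomial (Fin n) ℂ) :=
  {g | (∃ i ∈ A, g = X i - 1) ∨ (∃ e ∈ B, g = X e.1 + X e.2.1 - X e.2.2) ∨
    ∃ e ∈ C, g = X e.1 * X e.2.1 - X e.2.2}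

theorem polE_iff {n : ℕ} (A : Set (Fin n)) (B C : Set (Fin n × Fin n × Fin n)) (q : Fin n → ℂ) :
    (∀ g ∈ polE A B C, eval q g = 0) ↔ q ∈ SolE A B C := by
  constructor
  · intro h
    refine ⟨fun i hi => ?_, fun e he => ?_, fun e he => ?_⟩
    · have := h _ (Or.inl ⟨i, hi, rfl⟩)
      simpa [sub_eq_zero] using this
    · have := h _ (Or.inr (Or.inl ⟨e, he, rfl⟩))
      simpa [sub_eq_zero] using this
    · have := h _ (Or.inr (Or.inr ⟨e, he, rfl⟩))
      simpa [sub_eq_zero] using this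
  · rintro ⟨h1, h2, h3⟩ g (⟨i, hi, rfl⟩ | ⟨e, he, rfl⟩ | ⟨e, he, rfl⟩)
    · simp [h1 i hi]
    · simp [h2 e he]
    · simp [h3 e he]

/-- An infinite solution set is unbounded. -/
theorem unbdd (hC : S_COF) {n : ℕ} {A : Set (Fin n)} {B C : Set (Fin n × Fin n × Fin n)}
    (h : (SolE A B C).Infinite) (R : ℝ) : ∃ x ∈ SolE A B C, ∃ i, R < ‖x i‖ := by
  have hex : ∃ i : Fin n, {z : ℂ | ∃ q : Fin n → ℂ, (∀ g ∈ polE A B C, eval q g = 0) ∧
      q i = z}.Infinite := by
    by_contra hcon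
    push Not at hcon
    apply h
    have h1 : (Set.pi Set.univ (fun i : Fin n => {z : ℂ | ∃ q : Fin n → ℂ,
        (∀ g ∈ polE A B C, eval q g = 0) ∧ q i = z})).Finite :=
      Set.Finite.pi' (fun i => hcon i) |>.subset (fun q hq i => hq i (Set.mem_univ i))
    refine h1.subset fun q hq i _ => ⟨q, (polE_iff A B C q).2 hq, rfl⟩
  obtain ⟨i, hi⟩ := hex
  have hf := hC n (polE A B C) i hi
  have hinf : {z : ℂ | R < ‖z‖}.Infinite := by
    intro hfin
    have h2 : (Set.range (fun m : ℕ => ((|R| + 1 + m : ℝ) : ℂ))).Infinite := by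
      refine Set.infinite_range_of_injective fun a b hab => ?_
      have h3 : (|R| + 1 + a : ℝ) = |R| + 1 + b := by exact_mod_cast hab
      have h4 : (a : ℝ) = b := by linarith
      exact_mod_cast h4
    apply h2
    refine hfin.subset ?_
    rintro _ ⟨m, rfl⟩
    simp only [Set.mem_setOf_eq]
    rw [Complex.norm_real, Real.norm_of_nonneg (by positivity)]
    have h5 := le_abs_self R
    have h6 : (0 : ℝ) ≤ m := Nat.cast_nonneg m
    linarith
  obtain ⟨z, hz1, hz2⟩ := (hinf.sdiff hf).nonempty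
  have hz3 : z ∈ {z : ℂ | ∃ q : Fin n → ℂ, (∀ g ∈ polE A B C, eval q g = 0) ∧ q i = z} := by
    by_contra h7
    exact hz2 h7
  obtain ⟨q, hq, rfl⟩ := hz3
  exact ⟨q, (polE_iff A B C q).1 hq, i, hz1⟩

end Pool.Agent.Q6.TY
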