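import Pool.Agent.Q6.TY.CTW
import Pool.Agent.Q190.TY.TORD
import Pool.Agent.Q14.TY.HGT

set_option autoImplicit false
set_option maxHeartbeats 400000

/-!
# Project TY: rank growth of the coset ideal with more coordinates
-/

namespace Pool.Agent.Q6.TY

open MvPolynomial Pool.Agent.Q190.TY.TORD

theorem sm_step_d (k k' : ℕ → ℕ) (d : ℕ) (hd : 1 ≤ d)
    (h2 : ∀ m, k' (m + d) + k m ≤ k (m + d)) (h0 : ∀ m, k' m ≤ k m)
    (hm : ∀ m n, m ≤ n → k m ≤ k n) (M : ℕ) :
    Sm (fun n => (k' n : ℝ)) M ≤ d * (k M : ℝ) := by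
  have key : ∀ m, ∑ n ∈ Finset.range (m + d), k' n ≤ ∑ j ∈ Finset.range d, k (m + j) := by
    intro m
    induction m with
    | zero =>
      simp only [zero_add]
      exact Finset.sum_le_sum fun n _ => h0 n
    | succ m ih =>
      rw [show m + 1 + d = (m + d) + 1 by ring, Finset.sum_range_succ]
      have h3 := h2 m
      have h4 : ∑ j ∈ Finset.range (d + 1), k (m + j) =
          ∑ j ∈ Finset.range d, k (m + j) + k (m + d) := Finset.sum_range_succ _ _
      have h5 : ∑ j ∈ Finset.range (d + 1), k (m + j) =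
          ∑ j ∈ Finset.range d, k (m + 1 + j) + k m := by
        rw [Finset.sum_range_succ']
        simp only [add_zero]
        congr 1
        refine Finset.sum_congr rfl fun j _ => ?_
        congr 1
        ring
      omega
  have key2 : ∑ n ∈ Finset.range (M + 1), k' n ≤ d * k M := by
    rcases Nat.lt_or_ge M d with h | h
    · calc ∑ n ∈ Finset.range (M + 1), k' n ≤ ∑ _n ∈ Finset.range (M + 1), k M :=
            Finset.sum_le_sum fun n hn =>
              (h0 n).trans (hm _ _ (Nat.lt_succ_iff.1 (Finset.mem_range.1 hn)))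
        _ = (M + 1) * k M := by rw [Finset.sum_const, Finset.card_range, smul_eq_mul]
        _ ≤ d * k M := Nat.mul_le_mul_right _ h
    · obtain ⟨m, hmm⟩ : ∃ m, M + 1 = m + d := ⟨M + 1 - d, by omega⟩
      rw [hmm]
      refine (key m).trans ?_
      calc ∑ j ∈ Finset.range d, k (m + j) ≤ ∑ _j ∈ Finset.range d, k M :=
            Finset.sum_le_sum fun j hj => hm _ _ (by
              have := Finset.mem_range.1 hj
              omega)
        _ = d * k M := by rw [Finset.sum_const, Finset.card_range, smul_eq_mul]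
  have key3 : ((∑ n ∈ Finset.range (M + 1), k' n : ℕ) : ℝ) ≤ ((d * k M : ℕ) : ℝ) := by
    exact_mod_cast key2
  rw [Nat.cast_sum, Nat.cast_mul] at key3
  exact key3

theorem inj1_notMem_tor {t : ℕ} {p : Fin t → ℂ} (hp : ∀ i, p i ≠ 0)
    {V : Submodule ℚ (Fin t → ℚ)} {j : Fin t}
    (hj : (Pi.single j 1 : Fin t → ℚ) ∉ V) {h : Polynomial ℤ} (h0 : h ≠ 0) :
    inj1 j h ∉ tor p V := by
  have hX : torHom p V (Polynomial.aeval (X j) h) =
      Polynomial.aeval (AddMonoidAlgebra.single (V.mkQ (Pi.single j 1)) (p j)) h := by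
    have h1 : torHom p V (X j) = AddMonoidAlgebra.single (V.mkQ (Pi.single j 1)) (p j) := by
      unfold torHom
      exact aeval_X _ _
    rw [Polynomial.aeval_eq_sum_range, Polynomial.aeval_eq_sum_range, map_sum]
    refine Finset.sum_congr rfl fun i _ => ?_
    rw [map_zsmul, map_pow, h1]
  intro h1
  unfold tor inj1 at h1
  rw [RingHom.mem_ker, hX] at h1
  apply h0
  ext k
  have hg0 : V.mkQ (Pi.single j 1) ≠ 0 := by
    rw [Submodule.mkQ_apply]
    exact fun h2 => hj ((Submodule.Quotient.mk_eq_zero _).1 h2)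
  have hg : ∀ i l : ℕ, i • V.mkQ (Pi.single j 1) = l • V.mkQ (Pi.single j 1) → i = l := by
    intro i l hil
    rw [← Nat.cast_smul_eq_nsmul ℚ, ← Nat.cast_smul_eq_nsmul ℚ] at hil
    have := smul_left_injective ℚ hg0 hil
    exact_mod_cast this
  have h2 := Pool.Agent.Q14.TY.coeff_aeval hg (p j) h k
  rw [h1, AddMonoidAlgebra.coeff_zero, Finsupp.zero_apply] at h2
  have h3 := mul_eq_zero.1 h2.symm
  rcases h3 with h3 | h3
  · rw [Polynomial.coeff_zero]
    exact_mod_cast h3
  · exact absurd h3 (pow_ne_zero _ (hp j))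

theorem inj1_degree {t : ℕ} (i : Fin t) (h : Polynomial ℤ) :
    (inj1 i h : P t).totalDegree ≤ h.natDegree := by
  unfold inj1
  rw [Polynomial.aeval_eq_sum_range]
  refine totalDegree_finsetSum_le fun l hl => ?_
  have h1 : h.coeff l • (X i : P t) ^ l = C (h.coeff l) * X i ^ l := by
    rw [smul_eq_C_mul]
  rw [h1]
  refine (totalDegree_mul _ _).trans ?_
  rw [totalDegree_C, zero_add]
  refine (totalDegree_pow _ _).trans ?_
  rw [totalDegree_X, mul_one]
  exact Nat.lt_succ_iff.1 (Finset.mem_range.1 hl)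

theorem VI_empty {t : ℕ} (F : Set (P t)) : VI F ∅ = Vsp F := by
  unfold VI
  simp

theorem VI_insert {t : ℕ} (F : Set (P t)) (I : Finset (Fin t)) (i : Fin t) :
    VI F (insert i I) = VI F I ⊔ Submodule.span ℚ {(Pi.single i 1 : Fin t → ℚ)} := by
  unfold VI
  rw [sup_assoc, ← Submodule.span_union]
  congr 2
  ext w
  simp only [Finset.mem_insert, Set.mem_setOf_eq, Set.mem_union, Set.mem_singleton_iff]
  constructor
  · rintro ⟨j, (rfl | hj), rfl⟩
    · exact Or.inr rfl
    · exact Or.inl ⟨j, hj, rfl⟩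
  · rintro (⟨j, hj, rfl⟩ | rfl)
    · exact ⟨j, Or.inr hj, rfl⟩
    · exact ⟨i, Or.inl rfl, rfl⟩

theorem task_TORDV : S_DIM → S_TORP → S_TORD → S_TORDV := by
  intro hD hT hTD t p F hp hF I h
  obtain ⟨hD1, hD2, hD3, hD4, -⟩ := hD
  obtain ⟨hT1, -, hT3, -, hT5, hT6, hT7, -⟩ := hT t p hp
  classical
  induction I using Finset.induction_on with
  | empty =>
    intro _ N
    have h1 := hTD t p F hp hF N
    rw [VI_empty]
    simpa using h1
  | insert i I hi ih =>
    intro hI N
    have ih' := ih (fun j hj => hI j (Finset.mem_insert_of_mem hj))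
    obtain ⟨hd, hr⟩ := hI i (Finset.mem_insert_self _ _)
    have hd' : (1 : ℝ) ≤ ((h i).natDegree : ℝ) := by exact_mod_cast hd
    rw [Finset.prod_insert hi]
    have hprod : (0 : ℝ) ≤ ∏ i ∈ I, ((h i).natDegree : ℝ) :=
      Finset.prod_nonneg fun _ _ => Nat.cast_nonneg _
    have hrhs : (0 : ℝ) ≤ 2 ^ Module.finrank ℚ (Vsp F) * (∏ i ∈ I, ((h i).natDegree : ℝ)) *
        ((N + t).choose t : ℝ) := by positivity
    by_cases hmem : (Pi.single i 1 : Fin t → ℚ) ∈ VI F I
    · have hV : VI F (insert i I) = VI F I := by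
        rw [VI_insert, sup_eq_left, Submodule.span_le, Set.singleton_subset_iff]
        exact hmem
      rw [hV]
      refine (ih' N).trans ?_
      calc 2 ^ Module.finrank ℚ (Vsp F) * (∏ i ∈ I, ((h i).natDegree : ℝ)) *
            ((N + t).choose t : ℝ) ≤ ((h i).natDegree : ℝ) *
            (2 ^ Module.finrank ℚ (Vsp F) * (∏ i ∈ I, ((h i).natDegree : ℝ)) *
            ((N + t).choose t : ℝ)) := le_mul_of_one_le_left hrhs hd'
        _ = _ := by ring
    · set V := VI F I with hV
      set V' := VI F (insert i I) with hV'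
      have hVV' : V' = V ⊔ Submodule.span ℚ {(Pi.single i 1 : Fin t → ℚ)} := VI_insert F I i
      have hle : V ≤ V' := hVV' ▸ le_sup_left
      have hi' : (Pi.single i 1 : Fin t → ℚ) ∈ V' := by
        rw [hVV']
        exact Submodule.mem_sup_right (Submodule.mem_span_singleton_self _)
      have hlt : V < V' := lt_of_le_of_ne hle fun h => hmem (h ▸ hi')
      have hr1 : Module.finrank ℚ V < Module.finrank ℚ V' := Submodule.finrank_lt_finrank_of_lt hlt
      have hr2 : Module.finrank ℚ V' ≤ Module.finrank ℚ V + 1 := by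
        rw [hVV']
        refine (Submodule.finrank_add_le_finrank_add_finrank _ _).trans ?_
        have h9 : (Pi.single i 1 : Fin t → ℚ) ≠ 0 := fun h => by
          have h10 := congrFun h i
          rw [Pi.single_eq_same] at h10
          exact one_ne_zero h10
        have := finrank_span_singleton (K := ℚ) h9
        omega
      have hrk : Module.finrank ℚ V' = Module.finrank ℚ V + 1 := by omega
      have hne : h i ≠ 0 := fun h0 => by
        rw [h0, Polynomial.natDegree_zero] at hd
        omega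
      have h2 := hD1 t (tor p V) (tor p V') (inj1 i (h i)) (h i).natDegree (hT1 V)
        (hT5 V V' hle) (inj1_degree i (h i)) (inj1_notMem_tor hp hmem hne)
        (inj1_mem_tor hi' hr)
      have hs := sm_step_d (k (tor p V)) (k (tor p V')) (h i).natDegree hd h2
        (fun m => hD4 t _ _ m (hT5 V V' hle)) (fun m n hmn => hD3 t _ m n hmn)
      rw [hrk, Function.iterate_succ_apply]
      refine (Sm_iter_mono (Module.finrank ℚ V) hs N).trans ?_
      rw [Sm_iter_smul]
      calc ((h i).natDegree : ℝ) * (Sm^[Module.finrank ℚ V] fun n => ((k (tor p V) n : ℕ) : ℝ)) N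
          ≤ ((h i).natDegree : ℝ) * (2 ^ Module.finrank ℚ (Vsp F) *
            (∏ i ∈ I, ((h i).natDegree : ℝ)) * ((N + t).choose t : ℝ)) :=
            mul_le_mul_of_nonneg_left (ih' N) (Nat.cast_nonneg _)
        _ = _ := by ring

end Pool.Agent.Q6.TY
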