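import Pool.Agent.Q6.TY.All
import Pool.Agent.Q6.TY.Maxi
import Pool.Agent.Q6.TY.TORDV
import Pool.Agent.Q25.TY.CONJ
import Pool.Agent.Q25.TY.CUT
import Pool.Agent.Q25.TY.EXV
import Pool.Agent.Q25.TY.Tq
import Pool.Agent.Q261.TY.LOWX
import Pool.Agent.Q261.TY.TORCV

set_option autoImplicit false
set_option maxHeartbeats 400000

/-!
# Project TY, second stage: everything together
-/

namespace Pool.Agent.Q6.TY

theorem p_COF : S_COF := task_COF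
theorem p_CUT : S_CUT := Pool.Agent.Q25.TY.task_CUT p_COF
theorem p_CONJ : S_CONJ := Pool.Agent.Q25.TY.task_CONJ
theorem p_LOWX : S_LOWX := Pool.Agent.Q261.TY.task_LOWX
theorem p_TORDV : S_TORDV := task_TORDV p_DIM p_TORP p_TORD
theorem p_TORCV : S_TORCV := Pool.Agent.Q261.TY.task_TORCV p_BND p_TORP
theorem p_RAT : S_RAT := Pool.Agent.Q25.TY.task_RAT
theorem p_TORS : S_TORS := Pool.Agent.Q25.TY.task_TORS
theorem p_EXV : S_EXV := Pool.Agent.Q25.TY.task_EXV p_TORP p_KRULL p_ALG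

theorem p_CTW : S_CTW := ctw p_BND p_DIM p_TORP p_HGT p_ALG p_GRO p_LIM p_SMI p_CONJ p_LOWX
  p_TORDV p_TORCV p_RAT p_EXV

theorem p_W (t : ℕ) (M E : Set (O t × O t × O t)) (h : (Sol ℂ M E).Nonempty) :
    ∃ y ∈ Sol ℂ M E, ∀ m, ‖y m‖ ≤ 2 ^ (2 ^ (t - 1)) :=
  w_all p_CTW p_TORS p_CUT (fun _ _ _ _ hp hf m =>
    final_norm p_CT p_CT3 p_SPAN p_INF1 p_POS2 hp hf m) h

/-- MP_4c3a42_al, Q1 -/
theorem bounded_image' (n : ℕ) (x : Fin n → ℂ) :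
    ∃ y : Fin n → ℂ, (∀ i, ‖y i‖ ≤ (2 : ℝ) ^ ((2 : ℝ) ^ ((n : ℝ) - 2))) ∧
      (∀ i, x i = 1 → y i = 1) ∧ (∀ i j k, x i + x j = x k → y i + y j = y k) ∧
      (∀ i j k, x i * x j = x k → y i * y j = y k) :=
  bounded_image p_W n x

/-- MP_e336e1_al, Q1 -/
theorem min_norm' (n : ℕ) (A : Set (Fin n)) (B C : Set (Fin n × Fin n × Fin n)) (x : Fin n → ℂ)
    (hx : x ∈ SolE A B C) (hmin : ∀ y ∈ SolE A B C, ∑ i, ‖x i‖ ^ 2 ≤ ∑ i, ‖y i‖ ^ 2) (i : Fin n) :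
    ‖x i‖ ≤ (2 : ℝ) ^ ((2 : ℝ) ^ ((n : ℝ) - 2)) :=
  min_norm p_CTW p_TORS p_CUT (fun n A B C hA h x hx i => bound_one' n A B C hA h x hx i)
    n A B C x hx hmin i

/-- small solution of a system with an equation `x i = 1` -/
theorem small_one' (n : ℕ) (A : Set (Fin n)) (B C : Set (Fin n × Fin n × Fin n))
    (hA : A.Nonempty) (h : (SolE A B C).Nonempty) :
    ∃ y ∈ SolE A B C, ∀ i, ‖y i‖ ≤ (2 : ℝ) ^ ((2 : ℝ) ^ ((n : ℝ) - 2)) :=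
  small_one p_W n A B C hA h

end Pool.Agent.Q6.TY
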