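import Pool.Agent.Q6.TY.Stm2

set_option autoImplicit false
set_option maxHeartbeats 400000

/-!
# Project TY: basic facts on the numbers of separated characters
-/

namespace Pool.Agent.Q6.TY

open MvPolynomial

theorem le_degree {t : ℕ} (u : Fin t →₀ ℕ) (i : Fin t) : u i ≤ u.degree := by
  rw [Finsupp.degree_eq_sum]
  exact Finset.single_le_sum (f := fun j => u j) (fun _ _ => Nat.zero_le _) (Finset.mem_univ i)

theorem bddSep (hB : S_BND) {t : ℕ} (I : Ideal (P t)) (n : ℕ) {ε : ℝ} (hε : 0 < ε) :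
    BddAbove {N | HasSep I n ε N} := by
  refine ⟨(⌊1 / ε⌋₊ + 1) ^ Fintype.card (Fin t → Fin (n + 1)), fun N hN => ?_⟩
  refine hB t I n ε hε (Fin t → Fin (n + 1))
    (fun u i => ⟨min (u i) n, Nat.lt_succ_of_le (min_le_right _ _)⟩) ?_ N hN
  intro u v hu hv h
  have huv : u = v := by
    ext i
    have h1 := congrArg Fin.val (congrFun h i)
    simp only at h1
    rw [min_eq_left ((le_degree u i).trans hu), min_eq_left ((le_degree v i).trans hv)] at h1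
    exact h1
  rw [huv, sub_self]
  exact I.zero_mem

theorem hasSep_one {t : ℕ} (I : Ideal (P t)) (n : ℕ) (ε : ℝ) : HasSep I n ε 1 := by
  refine ⟨{0}, by simp, fun φ hφ f _ => ?_, fun φ hφ ψ hψ h => ?_⟩
  · rw [Finset.mem_singleton.1 hφ]; rfl
  · exact absurd ((Finset.mem_singleton.1 hφ).trans (Finset.mem_singleton.1 hψ).symm) h

theorem hasSep_Sp (hB : S_BND) {t : ℕ} (I : Ideal (P t)) (n : ℕ) {ε : ℝ} (hε : 0 < ε) :
    HasSep I n ε (Sp I n ε) :=
  Nat.sSup_mem ⟨1, hasSep_one I n ε⟩ (bddSep hB I n hε)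

theorem le_Sp (hB : S_BND) {t : ℕ} {I : Ideal (P t)} {n : ℕ} {ε : ℝ} (hε : 0 < ε) {N : ℕ}
    (h : HasSep I n ε N) : N ≤ Sp I n ε := le_csSup (bddSep hB I n hε) h

theorem one_le_Sp (hB : S_BND) {t : ℕ} (I : Ideal (P t)) (n : ℕ) {ε : ℝ} (hε : 0 < ε) :
    1 ≤ Sp I n ε := le_Sp hB hε (hasSep_one I n ε)

theorem logSp_nonneg (hB : S_BND) {t : ℕ} (I : Ideal (P t)) (n : ℕ) {ε : ℝ} (hε : 0 < ε) :
    0 ≤ Real.log (Sp I n ε) :=
  Real.log_nonneg (by exact_mod_cast one_le_Sp hB I n hε)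

theorem log_le_logSp (hB : S_BND) {t : ℕ} {I : Ideal (P t)} {n : ℕ} {ε : ℝ} (hε : 0 < ε) {N : ℕ}
    (hN : 0 < N) (h : HasSep I n ε N) : Real.log N ≤ Real.log (Sp I n ε) :=
  Real.log_le_log (by exact_mod_cast hN) (by exact_mod_cast le_Sp hB hε h)

end Pool.Agent.Q6.TY
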