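import Pool.Agent.Q6.TY.Basic

set_option autoImplicit false
set_option maxHeartbeats 400000

/-!
# Project TY: the chain theorem
-/

namespace Pool.Agent.Q6.TY

open MvPolynomial

/-- The chain theorem. -/
def S_CT : Prop := ∀ (t : ℕ) (F : Set (P t)), (Zer F).Finite →
  (∀ f ∈ F, (∃ w, IsBin f w) ∨ IsLin f) → ∀ p ∈ Zer F, (∀ i, p i ≠ 0) → ∀ m, 1 < ‖p m‖ →
  Real.log ‖p m‖ ≤ ((t : ℝ) - Module.finrank ℚ (Vsp F)) * Real.log 3 *
      2 ^ Module.finrank ℚ (Vsp F) ∧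
    ((∃ i, (p i).im ≠ 0) → 2 * Real.log ‖p m‖ ≤ ((t : ℝ) - Module.finrank ℚ (Vsp F)) *
      Real.log 3 * 2 ^ Module.finrank ℚ (Vsp F))

theorem sm_k (hD : S_DIM) {t : ℕ} {q q' : Ideal (P t)} {f : P t} (hq : q.IsPrime) (hle : q ≤ q')
    (hl : IsLin f) (h1 : f ∉ q) (h2 : f ∈ q') (N : ℕ) :
    Sm (fun n => (k q' n : ℝ)) N ≤ k q N := by
  induction N with
  | zero =>
    simp only [Sm, zero_add, Finset.range_one, Finset.sum_singleton]
    exact_mod_cast hD.2.2.2.1 t q q' 0 hle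
  | succ n ih =>
    have h3 := hD.1 t q q' f 1 hq hle hl.1 h1 h2 n
    have h4 : ((k q' (n + 1) : ℕ) : ℝ) + k q n ≤ k q (n + 1) := by exact_mod_cast h3
    unfold Sm at ih ⊢
    rw [Finset.sum_range_succ]
    linarith

theorem k_chain (hD : S_DIM) (hS : S_SMI) {t : ℕ} {F : Set (P t)} {m : Ideal (P t)} {s : ℕ}
    {q : Ideal (P t)} (h : Ch F m s q) (N : ℕ) :
    (Sm^[s] (fun n => (k m n : ℝ))) N ≤ k q N := by
  induction h generalizing N with
  | refl => simp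
  | step s q q' f hq hle hf hl hfq hfq' h ih =>
    rw [Function.iterate_succ']
    refine le_trans ?_ (sm_k hD hq hle hl hfq hfq' N)
    exact hS.1 _ _ 1 ih N

theorem choose_mono_right' (N : ℕ) {j l : ℕ} (h : j ≤ l) : (N + j).choose j ≤ (N + l).choose l := by
  induction h with
  | refl => exact le_rfl
  | @step l' _ ih =>
    refine ih.trans ?_
    rw [show N + (l' + 1) = (N + l') + 1 by ring, Nat.choose_succ_succ]
    exact Nat.le_add_right _ _

theorem steps_le (t j a : ℕ) (h : ∀ N : ℕ, ((N + j).choose j : ℝ) ≤ 2 ^ a * ((N + t).choose t : ℝ)) :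
    j ≤ t := by
  by_contra hj
  push Not at hj
  have h1 := h (2 ^ a * (t + 1))
  set N := 2 ^ a * (t + 1) with hN
  have h2 : (N + (t + 1)).choose (t + 1) ≤ (N + j).choose j := choose_mono_right' N hj
  have h3 : (N + (t + 1)).choose (t + 1) * (t + 1) = (N + t).choose t * (N + t + 1) := by
    have := Nat.add_one_mul_choose_eq (N + t) t
    rw [show N + (t + 1) = N + t + 1 by ring]
    linarith
  have h4 : 0 < (N + t).choose t := Nat.choose_pos (Nat.le_add_left _ _)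
  have h5 : ((N + (t + 1)).choose (t + 1) : ℝ) ≤ 2 ^ a * ((N + t).choose t : ℝ) :=
    le_trans (by exact_mod_cast h2) h1
  have h6 : (N + (t + 1)).choose (t + 1) ≤ 2 ^ a * (N + t).choose t := by exact_mod_cast h5
  have h7 : (N + t).choose t * (N + t + 1) ≤ 2 ^ a * (N + t).choose t * (t + 1) := by
    rw [← h3]; exact Nat.mul_le_mul_right _ h6
  have h8 : (N + t).choose t * (N + t + 1) ≤ (N + t).choose t * N := by
    refine h7.trans (le_of_eq ?_)
    rw [hN]; ring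
  have h9 := Nat.le_of_mul_le_mul_left h8 h4
  omega

theorem iter_sum (F : ℕ → ℝ) (a s : ℕ) : Sm^[a] (Sm^[s] F) = Sm^[a + s] F := by
  rw [Function.iterate_add_apply]

theorem choose_le_pow' (N t : ℕ) : ((N + t).choose t : ℝ) ≤ ((t : ℝ) + 1) ^ t * ((N : ℝ) + 1) ^ t := by
  have h1 : (N + t).choose t ≤ (N + t) ^ t := Nat.choose_le_pow _ _
  have h2 : (N + t) ^ t ≤ ((t + 1) * (N + 1)) ^ t := Nat.pow_le_pow_left (by nlinarith) t
  have h3 : (N + t).choose t ≤ ((t + 1) * (N + 1)) ^ t := h1.trans h2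
  rw [← mul_pow]
  exact_mod_cast h3

/-- The final inequality for the chain theorem. -/
theorem key (hB : S_BND) (hD : S_DIM) (hT : S_TORP) (hTD : S_TORD) (hTC : S_TORC) (hG : S_GRO)
    (hL : S_LIM) (hS : S_SMI) {t : ℕ} {F : Set (P t)} {p : Fin t → ℂ} (hp : p ∈ Zer F)
    (hne : ∀ i, p i ≠ 0) {s : ℕ} (hs : Ch F (mx p) s (tor p (Vsp F)))
    (hst : t ≤ s + Module.finrank ℚ (Vsp F)) (T C' : ℝ)
    (hlow : ∃ ε₁ : ℝ, 0 < ε₁ ∧ ∀ ε, 0 < ε → ε ≤ ε₁ → ∀ n : ℕ,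
      T * n - C' ≤ Real.log (Sp (mx p) n ε)) :
    T ≤ ((t : ℝ) - Module.finrank ℚ (Vsp F)) * Real.log 3 * 2 ^ Module.finrank ℚ (Vsp F) := by
  set a := Module.finrank ℚ (Vsp F) with ha
  have hpF : ∀ f ∈ F, f ∈ mx p := fun f hf => hp f hf
  have hTD' := hTD t p F hne hpF
  rw [← ha] at hTD'
  have hT' := hT t p hne
  -- number of steps
  have hk1 : ∀ n, (1 : ℝ) ≤ k (mx p) n := fun n => by
    exact_mod_cast hD.2.2.2.2 t (mx p) n hT'.2.2.2.2.2.2.2.2
  have hsa : s + a ≤ t := by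
    refine steps_le t (s + a) a (fun N => ?_)
    have h1 : (Sm^[a] (Sm^[s] (fun n => ((n + 0).choose 0 : ℝ)))) N = ((N + (s + a)).choose (s + a) : ℝ) := by
      rw [iter_sum, hS.2.2.2.1 0 (a + s) N]
      rw [show N + 0 + (a + s) = N + (s + a) by ring, show 0 + (a + s) = s + a by ring]
    rw [← h1]
    refine le_trans ?_ (hTD' N)
    refine hS.1 _ _ a (fun n => ?_) N
    refine le_trans ?_ (k_chain hD hS hs n)
    refine hS.1 _ _ s (fun n => ?_) n
    simpa using hk1 n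
  have hsa' : a + s = t := by omega
  obtain ⟨ε₂, hε₂, hlow⟩ := hlow
  obtain ⟨ε₃, hε₃, hG⟩ := hG t F (mx p) s _ hs
  set ε := min ε₂ ε₃ with hεd
  have hε : 0 < ε := lt_min hε₂ hε₃
  have hlow' := hlow ε hε (min_le_left _ _)
  have hG' := hG ε hε (min_le_right _ _)
  obtain ⟨C1, hC1⟩ := hTC t p F hne hpF ε hε
  rw [← ha] at hC1
  set C2 := max C1 0 with hC2
  have hA0 : ∀ n, Real.log (Sp (tor p (Vsp F)) n ε) ≤ C2 * ((n : ℝ) + 1) ^ (t - a) := fun n => by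
    refine (hC1 n _ (hasSep_Sp hB _ n hε)).trans ?_
    exact mul_le_mul_of_nonneg_right (le_max_left _ _) (by positivity)
  have hr : ((t : ℝ) - a) = s := by
    have : (t : ℝ) = a + s := by rw [← hsa']; push_cast; ring
    rw [this]; ring
  rw [hr]
  have hfin := hL t a s T 0
  rw [add_zero] at hfin
  refine hfin (fun K hK => ?_)
  obtain ⟨C3, hC3, hG''⟩ := hG' K hK
  set M := s * K with hM
  set γ := Real.log (1 + 2 * 3 ^ K) / K with hγ
  have hγ0 : 0 ≤ γ := by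
    refine div_nonneg (Real.log_nonneg ?_) (Nat.cast_nonneg K)
    have : (0 : ℝ) ≤ 2 * 3 ^ K := by positivity
    linarith
  refine ⟨C2 * ((M : ℝ) + 1) ^ t + C3 + |C'| * ((t : ℝ) + 1) ^ t, M, fun N => ?_⟩
  -- the inequality after `Sm^[a]`
  have e1 : ∀ n, (Sm^[s] (fun n => T * (n : ℝ) + (-C') * ((n + 0).choose 0 : ℝ))) n ≤
      C2 * ((fun l : ℕ => ((l : ℝ) + 1) ^ (t - a)) (n + M)) +
      1 * ((s * γ) * Sm (fun n => (k (tor p (Vsp F)) n : ℝ)) (n + M) +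
      C3 * ((n : ℝ) + 1) ^ s) := fun n => by
    have h1 : (Sm^[s] (fun n => T * (n : ℝ) + (-C') * ((n + 0).choose 0 : ℝ))) n ≤
        (Sm^[s] (fun n => Real.log (Sp (mx p) n ε))) n := by
      refine hS.1 _ _ s (fun l => ?_) n
      have := hlow' l
      simp only [add_zero, Nat.choose_zero_right, Nat.cast_one, mul_one]
      linarith
    have h2 := hG'' n
    have h3 := hA0 (n + M)
    simp only [one_mul]
    linarith
  have e2 := hS.1 _ _ a e1 N
  rw [iter_sum, hS.2.1, hS.2.2.2.2.2, hS.2.2.2.1, hS.2.1, hS.2.1] at e2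
  have e3 : (Sm^[a] (fun n => (fun l : ℕ => ((l : ℝ) + 1) ^ (t - a)) (n + M))) N ≤
      ((M : ℝ) + 1) ^ t * ((N : ℝ) + 1) ^ t := by
    refine (hS.2.2.1 (fun l : ℕ => ((l : ℝ) + 1) ^ (t - a)) a M (fun n => by positivity) N).trans ?_
    refine (hS.2.2.2.2.1 (t - a) a (N + M)).trans ?_
    rw [show t - a + a = t by omega, ← mul_pow]
    refine pow_le_pow_left₀ (by positivity) ?_ t
    push_cast
    nlinarith [Nat.cast_nonneg (α := ℝ) N, Nat.cast_nonneg (α := ℝ) M]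
  have e4 : (Sm^[a] (fun n => Sm (fun n => (k (tor p (Vsp F)) n : ℝ)) (n + M))) N ≤
      2 ^ a * ((N + M + t + 1).choose (t + 1) : ℝ) := by
    refine (hS.2.2.1 (Sm (fun n => (k (tor p (Vsp F)) n : ℝ))) a M (fun n => ?_) N).trans ?_
    · exact Finset.sum_nonneg fun _ _ => Nat.cast_nonneg _
    · have h1 : Sm^[a] (Sm (fun n => (k (tor p (Vsp F)) n : ℝ))) =
          Sm (Sm^[a] (fun n => (k (tor p (Vsp F)) n : ℝ))) := by
        rw [← Function.iterate_succ_apply, Function.iterate_succ_apply']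
      rw [h1]
      have h2 : ∀ n, (Sm^[a] (fun n => (k (tor p (Vsp F)) n : ℝ))) n ≤
          2 ^ a * ((n + t).choose t : ℝ) + 0 * ((n + t).choose t : ℝ) := fun n => by
        rw [zero_mul, add_zero]; exact hTD' n
      have h3 := hS.1 _ _ 1 h2 (N + M)
      rw [hS.2.1, hS.2.2.2.1, zero_mul, add_zero] at h3
      exact h3
  have e5 := hS.2.2.2.2.1 s a N
  rw [show s + a = t by omega] at e5
  rw [show N + (a + s) = N + t by omega, show a + s + 1 = t + 1 by omega,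
    show N + 0 + (a + s) = N + t by omega, show 0 + (a + s) = t by omega] at e2
  have e6 := choose_le_pow' N t
  have e7 : (1 : ℝ) ≤ Real.log ((N : ℝ) + 3) := by
    rw [Real.le_log_iff_exp_le (by positivity)]
    have := Real.exp_one_lt_d9
    have h0 : (0 : ℝ) ≤ N := Nat.cast_nonneg N
    linarith
  have e8 : (0 : ℝ) ≤ ((N : ℝ) + 1) ^ t := by positivity
  have e9 : C' * ((N + t).choose t : ℝ) ≤ |C'| * (((t : ℝ) + 1) ^ t * ((N : ℝ) + 1) ^ t) :=
    (mul_le_mul_of_nonneg_right (le_abs_self _) (Nat.cast_nonneg _)).trans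
      (mul_le_mul_of_nonneg_left e6 (abs_nonneg _))
  have f1 : C2 * (Sm^[a] (fun n => (fun l : ℕ => ((l : ℝ) + 1) ^ (t - a)) (n + M))) N ≤
      C2 * (((M : ℝ) + 1) ^ t * ((N : ℝ) + 1) ^ t) :=
    mul_le_mul_of_nonneg_left e3 (le_max_right _ _)
  have f2 : (s * γ) * (Sm^[a] (fun n => Sm (fun n => (k (tor p (Vsp F)) n : ℝ)) (n + M))) N ≤
      (s * γ) * (2 ^ a * ((N + M + t + 1).choose (t + 1) : ℝ)) :=
    mul_le_mul_of_nonneg_left e4 (mul_nonneg (Nat.cast_nonneg _) hγ0)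
  have f3 : C3 * (Sm^[a] (fun n => ((n : ℝ) + 1) ^ s)) N ≤ C3 * ((N : ℝ) + 1) ^ t :=
    mul_le_mul_of_nonneg_left e5 hC3
  have f4 : 0 ≤ C2 * ((M : ℝ) + 1) ^ t + C3 + |C'| * ((t : ℝ) + 1) ^ t := by
    have : 0 ≤ C2 := le_max_right _ _
    positivity
  have f5 : (C2 * ((M : ℝ) + 1) ^ t + C3 + |C'| * ((t : ℝ) + 1) ^ t) * ((N : ℝ) + 1) ^ t ≤
      (C2 * ((M : ℝ) + 1) ^ t + C3 + |C'| * ((t : ℝ) + 1) ^ t) * ((N : ℝ) + 1) ^ t *
        Real.log ((N : ℝ) + 3) :=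
    le_mul_of_one_le_right (mul_nonneg f4 e8) e7
  simp only [one_mul, add_zero] at e2 ⊢
  nlinarith [e2, f1, f2, f3, f5, e9]

theorem ct (hB : S_BND) (hD : S_DIM) (hT : S_TORP) (hTD : S_TORD) (hTC : S_TORC) (hH : S_HGT)
    (hA : S_ALG) (hR : S_LOWR) (hC : S_LOWC) (hG : S_GRO) (hX : S_EX) (hL : S_LIM) (hS : S_SMI) :
    S_CT := by
  intro t F hfin hF p hp hne m hm
  have hT' := hT t p hne
  obtain ⟨s, hs, hh⟩ := hX t F hfin hF p hp hne (tor p (Vsp F)) (hT'.1 _) le_rfl (hT'.2.1 _)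
  have halg := (hA t F hfin p hp).1
  have hht := hH t p hne halg (Vsp F)
  have hst : t ≤ s + Module.finrank ℚ (Vsp F) := by
    have h1 : (t : ℕ∞) ≤ (s : ℕ∞) + (Module.finrank ℚ (Vsp F) : ℕ∞) :=
      hht.trans (by gcongr)
    exact_mod_cast h1
  have hlog : 0 < Real.log ‖p m‖ := Real.log_pos hm
  have hpm : 0 < ‖p m‖ := by linarith
  have hnon : (∃ i, (p i).im ≠ 0) → 2 * Real.log ‖p m‖ ≤
      ((t : ℝ) - Module.finrank ℚ (Vsp F)) * Real.log 3 * 2 ^ Module.finrank ℚ (Vsp F) := by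
    intro hi
    obtain ⟨ε₁, hε₁, c, hc, hlow⟩ := hC t p m hi hm
    refine key hB hD hT hTD hTC hG hL hS hp hne hs hst _ (-Real.log c) ⟨ε₁, hε₁, fun ε h0 h1 n => ?_⟩
    obtain ⟨N, hN, hsep⟩ := hlow ε h0 h1 n
    have hN0 : (0 : ℝ) < N := lt_of_lt_of_le (by positivity) hN
    refine le_trans ?_ (log_le_logSp hB h0 (by exact_mod_cast hN0) hsep)
    refine le_trans (le_of_eq ?_) (Real.log_le_log (by positivity) hN)
    rw [Real.log_mul hc.ne' (by positivity), Real.log_pow]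
    push_cast
    ring
  refine ⟨?_, hnon⟩
  by_cases hi : ∃ i, (p i).im ≠ 0
  · exact le_trans (by linarith) (hnon hi)
  · push Not at hi
    obtain ⟨ε₁, hε₁, hlow⟩ := hR t p m hi hm
    refine key hB hD hT hTD hTC hG hL hS hp hne hs hst _ 0 ⟨ε₁, hε₁, fun ε h0 h1 n => ?_⟩
    obtain ⟨N, hN, hsep⟩ := hlow ε h0 h1 n
    have hN0 : (0 : ℝ) < N := lt_of_lt_of_le (by positivity) hN
    refine le_trans ?_ (log_le_logSp hB h0 (by exact_mod_cast hN0) hsep)
    refine le_trans (le_of_eq ?_) (Real.log_le_log (by positivity) hN)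
    rw [Real.log_pow]
    ring

end Pool.Agent.Q6.TY
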