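import Pool.Agent.Q6.TY.Sys

set_option autoImplicit false
set_option maxHeartbeats 400000

/-!
# Project TY: the chain theorem with a better first step
-/

namespace Pool.Agent.Q6.TY

open MvPolynomial

theorem torHom_monomial {t : ℕ} (p : Fin t → ℂ) (V : Submodule ℚ (Fin t → ℚ)) (u : Fin t →₀ ℕ)
    (c : ℤ) : torHom p V (monomial u c) =
      AddMonoidAlgebra.single (V.mkQ (fun i => (u i : ℚ))) ((c : ℂ) * ∏ i, p i ^ u i) := by
  simp only [torHom, AlgHom.toRingHom_eq_coe, RingHom.coe_coe, aeval_monomial, eq_intCast]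
  rw [Finsupp.prod_fintype _ _ (fun i => pow_zero _)]
  have h1 : ∀ i, (AddMonoidAlgebra.single (V.mkQ (Pi.single i 1)) (p i) :
      AddMonoidAlgebra ℂ ((Fin t → ℚ) ⧸ V)) ^ u i =
      AddMonoidAlgebra.single (V.mkQ (fun j => if j = i then (u i : ℚ) else 0)) (p i ^ u i) := by
    intro i
    rw [AddMonoidAlgebra.single_pow, ← map_nsmul]
    congr 2
    funext j
    simp [Pi.single_apply]
  have h2 : ∀ s : Finset (Fin t), ∏ i ∈ s,
      (AddMonoidAlgebra.single (V.mkQ (fun j => if j = i then (u i : ℚ) else 0)) (p i ^ u i) :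
        AddMonoidAlgebra ℂ ((Fin t → ℚ) ⧸ V)) =
      AddMonoidAlgebra.single (V.mkQ (fun j => if j ∈ s then (u j : ℚ) else 0))
        (∏ i ∈ s, p i ^ u i) := by
    classical
    intro s
    induction s using Finset.induction_on with
    | empty =>
      simp only [Finset.prod_empty, Finset.notMem_empty, if_false]
      rw [show (fun _ : Fin t => (0 : ℚ)) = 0 from rfl, map_zero]
      rfl
    | insert a s ha ih =>
      rw [Finset.prod_insert ha, Finset.prod_insert ha, ih, AddMonoidAlgebra.single_mul_single,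
        ← map_add]
      congr 2
      funext j
      simp only [Pi.add_apply, Finset.mem_insert]
      by_cases hj : j = a
      · subst hj; simp [ha]
      · simp [hj]
  rw [Finset.prod_congr rfl (fun i _ => h1 i), h2]
  simp only [Finset.mem_univ, if_true]
  rw [AddMonoidAlgebra.intCast_def, AddMonoidAlgebra.single_mul_single, zero_add]

theorem mkQ_ne {t : ℕ} {V : Submodule ℚ (Fin t → ℚ)} {u v : Fin t →₀ ℕ} (h : dif u v ∉ V) :
    V.mkQ (fun i => (u i : ℚ)) ≠ V.mkQ (fun i => (v i : ℚ)) := by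
  intro h1
  apply h
  have h2 := (Submodule.Quotient.eq V).1 h1
  exact h2

/-- a single coefficient function -/
noncomputable def torHomC {G : Type} (g : G) (z : ℂ) : G → ℂ := ⇑(Finsupp.single g z)

theorem tri_notMem {t : ℕ} {p : Fin t → ℂ} (hne : ∀ i, p i ≠ 0) {V : Submodule ℚ (Fin t → ℚ)}
    {a b c : Fin t →₀ ℕ} (hac : dif a c ∉ V) (hbc : dif b c ∉ V) :
    (monomial a 1 + monomial b 1 - monomial c 1 : P t) ∉ tor p V := by
  intro h
  have h1 : torHom p V (monomial a 1 + monomial b 1 - monomial c 1) = 0 := h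
  rw [map_sub, map_add, torHom_monomial, torHom_monomial, torHom_monomial] at h1
  have h2 : (torHomC (V.mkQ (fun i => (a i : ℚ))) (((1 : ℤ) : ℂ) * ∏ i, p i ^ a i)
      (V.mkQ (fun i => (c i : ℚ))) + torHomC (V.mkQ (fun i => (b i : ℚ)))
      (((1 : ℤ) : ℂ) * ∏ i, p i ^ b i) (V.mkQ (fun i => (c i : ℚ))) -
      torHomC (V.mkQ (fun i => (c i : ℚ))) (((1 : ℤ) : ℂ) * ∏ i, p i ^ c i)
      (V.mkQ (fun i => (c i : ℚ)))) = 0 := by
    have h3 := congrArg (fun f => f.coeff (V.mkQ (fun i => (c i : ℚ)))) h1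
    exact h3
  unfold torHomC at h2
  rw [Finsupp.single_eq_of_ne (mkQ_ne hac).symm, Finsupp.single_eq_of_ne (mkQ_ne hbc).symm,
    Finsupp.single_eq_same] at h2
  have h3 : (∏ i, p i ^ c i) ≠ 0 := Finset.prod_ne_zero_iff.2 fun i _ => pow_ne_zero _ (hne i)
  apply h3
  simpa using h2

end Pool.Agent.Q6.TY
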