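import Pool.Agent.Q6.TY.CT3

set_option autoImplicit false
set_option maxHeartbeats 400000

/-!
# Project TY: the chain theorem with a better first step, assembly
-/

namespace Pool.Agent.Q6.TY

open MvPolynomial

/-- The chain theorem with a better first step. -/
def S_CT3 : Prop := ∀ (t : ℕ) (M E : Set (O t × O t × O t)) (x : Fin t → ℝ), (∀ i, 0 < x i) →
  x ∈ Sol ℝ M E → (Sol ℂ M E).Finite → ∀ e ∈ E, ex e.1 - ex e.2.1 ∉ VM M →
  ex e.1 - ex e.2.2 ∉ VM M → ex e.2.1 - ex e.2.2 ∉ VM M → ∀ m, Real.log (x m) ≤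
    (((t : ℝ) - Module.finrank ℚ (VM M) - 1) * Real.log 3 + Real.log 3 / 2) *
      2 ^ Module.finrank ℚ (VM M)

theorem sm_nonneg (g : ℕ → ℝ) (hg : ∀ n, 0 ≤ g n) (j : ℕ) : ∀ n, 0 ≤ (Sm^[j] g) n := by
  induction j with
  | zero => simpa using hg
  | succ j ih =>
    intro n
    rw [Function.iterate_succ_apply']
    exact Finset.sum_nonneg fun i _ => ih i

theorem log_mul_sm (g : ℕ → ℝ) (hg : ∀ n, 0 ≤ g n) (j : ℕ) : ∀ N,
    (Sm^[j] (fun n => g n * Real.log ((n : ℝ) + 3))) N ≤ Real.log ((N : ℝ) + 3) * (Sm^[j] g) N := by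
  induction j with
  | zero => intro N; simp [mul_comm]
  | succ j ih =>
    intro N
    rw [Function.iterate_succ_apply', Function.iterate_succ_apply']
    unfold Sm
    rw [Finset.mul_sum]
    refine Finset.sum_le_sum fun n hn => ?_
    refine (ih n).trans ?_
    refine mul_le_mul_of_nonneg_right ?_ (sm_nonneg g hg j n)
    refine Real.log_le_log (by positivity) ?_
    have : n ≤ N := Nat.lt_succ_iff.1 (Finset.mem_range.1 hn)
    have : (n : ℝ) ≤ N := by exact_mod_cast this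
    linarith

theorem hasSep_mono_n {t : ℕ} {I : Ideal (P t)} {n n' : ℕ} (h : n ≤ n') {ε : ℝ} {N : ℕ}
    (hs : HasSep I n ε N) : HasSep I n' ε N := by
  obtain ⟨A, h1, h2, h3⟩ := hs
  refine ⟨A, h1, h2, fun φ hφ ψ hψ hne => ?_⟩
  obtain ⟨u, hu, hu'⟩ := h3 φ hφ ψ hψ hne
  exact ⟨u, hu.trans h, hu'⟩

theorem k_le_choose (hD : S_DIM) {t : ℕ} (I : Ideal (P t)) (n : ℕ) :
    k I n ≤ (n + t).choose t := (hD.2.2.2.1 t ⊥ I n bot_le).trans (hD.2.1 t n)

/-- the bound for the first ideal of the chain -/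
theorem first_bound (hB : S_BND) (hD : S_DIM) (hHA : S_HADA) {t : ℕ} {p : Fin t → ℂ}
    {x : Fin t → ℝ} {F : Set (P t)} (hx : ∀ i, 0 < x i) (hpx : ∀ i, p i = x i)
    (hF : ∀ f ∈ F, f ∈ mx p) {a b c : Fin t →₀ ℕ} (ha : a.degree ≤ 1) (hb : b.degree ≤ 1)
    (hc : c.degree ≤ 1) (hab : dif a b ∉ Vsp F) (hac : dif a c ∉ Vsp F) (hbc : dif b c ∉ Vsp F)
    {q' : Ideal (P t)} (hq' : tor p (Vsp F) ≤ q')
    (hf : (monomial a 1 + monomial b 1 - monomial c 1 : P t) ∈ q') {δ : ℝ} (hδ : 0 < δ)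
    (hδ' : δ ≤ 1 / 2) : ∃ C : ℝ, 0 ≤ C ∧ ∀ n : ℕ, Real.log (Sp q' n δ) ≤
      1 * ((n + 0).choose 0 : ℝ) + 1 * (Real.log 3 / 2 * k (tor p (Vsp F)) n +
      C * (((k (tor p (Vsp F)) (n + 1) : ℝ) - k (tor p (Vsp F)) n) * Real.log ((n : ℝ) + 3))) := by
  set k0 := k (tor p (Vsp F)) with hk0
  -- logarithm of the base
  have hbase : ∃ C : ℝ, 0 ≤ C ∧ ∀ n : ℕ, Real.log ((k0 (n + 1) : ℝ) ^ 2 / δ) ≤
      C * Real.log ((n : ℝ) + 3) := by
    have h4 : 0 ≤ (t : ℝ) * Real.log (t + 1) :=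
      mul_nonneg (Nat.cast_nonneg _) (Real.log_nonneg (by
        have : (0 : ℝ) ≤ t := Nat.cast_nonneg t
        linarith))
    have h40 : 0 ≤ 2 * ((t : ℝ) * Real.log (t + 1) + t) + |Real.log δ| := by
      have := abs_nonneg (Real.log δ)
      have : (0 : ℝ) ≤ t := Nat.cast_nonneg t
      linarith
    refine ⟨2 * ((t : ℝ) * Real.log (t + 1) + t) + |Real.log δ|, h40, fun n => ?_⟩
    have hl1 : 1 ≤ Real.log ((n : ℝ) + 3) := by
      rw [Real.le_log_iff_exp_le (by positivity)]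
      have := Real.exp_one_lt_d9
      have h0 : (0 : ℝ) ≤ n := Nat.cast_nonneg n
      linarith
    by_cases hz : k0 (n + 1) = 0
    · rw [hz]
      simp only [Nat.cast_zero, ne_eq, OfNat.ofNat_ne_zero, not_false_eq_true, zero_pow, zero_div,
        Real.log_zero]
      exact mul_nonneg h40 (by linarith)
    have hkp : (0 : ℝ) < k0 (n + 1) := by
      exact_mod_cast Nat.pos_of_ne_zero hz
    rw [Real.log_div (by positivity) hδ.ne', Real.log_pow]
    have h1 : Real.log (k0 (n + 1)) ≤ t * Real.log (t + 1) + t * Real.log ((n : ℝ) + 3) := by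
      have h2 : (k0 (n + 1) : ℝ) ≤ ((t : ℝ) + 1) ^ t * (((n + 1 : ℕ) : ℝ) + 1) ^ t := by
        refine le_trans ?_ (choose_le_pow' (n + 1) t)
        exact_mod_cast k_le_choose hD _ _
      have h3 : (k0 (n + 1) : ℝ) ≤ ((t : ℝ) + 1) ^ t * ((n : ℝ) + 3) ^ t := by
        refine h2.trans (mul_le_mul_of_nonneg_left ?_ (by positivity))
        refine pow_le_pow_left₀ (by positivity) ?_ t
        push_cast; linarith
      refine (Real.log_le_log hkp h3).trans (le_of_eq ?_)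
      rw [Real.log_mul (by positivity) (by positivity), Real.log_pow, Real.log_pow]
    have h5 : -Real.log δ ≤ |Real.log δ| := neg_le_abs _
    have h6 : (t : ℝ) * Real.log (t + 1) ≤ (t : ℝ) * Real.log (t + 1) * Real.log ((n : ℝ) + 3) :=
      le_mul_of_one_le_right h4 hl1
    have h7 : |Real.log δ| ≤ |Real.log δ| * Real.log ((n : ℝ) + 3) :=
      le_mul_of_one_le_right (abs_nonneg _) hl1
    push_cast
    nlinarith [h1, h5, h6, h7]
  obtain ⟨C, hC, hCb⟩ := hbase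
  refine ⟨C, hC, fun n => ?_⟩
  have hsep := hasSep_Sp hB q' n hδ
  have h1 := hHA t p x F hx hpx hF a b c ha hb hc hab hac hbc q' hq' hf δ hδ hδ' n _
    (hasSep_mono_n (Nat.le_succ n) hsep)
  have hmono : k0 n ≤ k0 (n + 1) := hD.2.2.1 t _ n (n + 1) (Nat.le_succ n)
  have hpos : (0 : ℝ) < Sp q' n δ := by exact_mod_cast one_le_Sp hB q' n hδ
  have hlogmono := Real.log_le_log hpos h1
  have hk0n : k0 = k (tor p (Vsp F)) := rfl
  have hpow : Real.log (Real.exp 1 * Real.sqrt 3 ^ k0 n *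
      ((k0 (n + 1) : ℝ) ^ 2 / δ) ^ (k0 (n + 1) - k0 n)) ≤
      1 + Real.log 3 / 2 * k0 n + ((k0 (n + 1) : ℝ) - k0 n) *
        Real.log ((k0 (n + 1) : ℝ) ^ 2 / δ) := by
    have hs3 : (0 : ℝ) < Real.sqrt 3 ^ k0 n := by positivity
    by_cases hz : k0 (n + 1) = 0
    · have hz' : k0 n = 0 := by omega
      rw [hz, hz']
      simp
    have hkp : (0 : ℝ) < k0 (n + 1) := by exact_mod_cast Nat.pos_of_ne_zero hz
    have hb' : (0 : ℝ) < (k0 (n + 1) : ℝ) ^ 2 / δ := by positivity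
    rw [Real.log_mul (by positivity) (by positivity), Real.log_mul (by positivity) (by positivity),
      Real.log_exp, Real.log_pow, Real.log_pow, Real.log_sqrt (by norm_num), Nat.cast_sub hmono]
    linarith [mul_comm (k0 n : ℝ) (Real.log 3 / 2)]
  have h2 : ((k0 (n + 1) : ℝ) - k0 n) * Real.log ((k0 (n + 1) : ℝ) ^ 2 / δ) ≤
      ((k0 (n + 1) : ℝ) - k0 n) * (C * Real.log ((n : ℝ) + 3)) := by
    refine mul_le_mul_of_nonneg_left (hCb n) ?_
    have : (k0 n : ℝ) ≤ k0 (n + 1) := by exact_mod_cast hmono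
    linarith
  simp only [add_zero, Nat.choose_zero_right, Nat.cast_one, one_mul]
  nlinarith [hlogmono, hpow, h2]

end Pool.Agent.Q6.TY
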