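import Pool.Agent.Q6.TY.CT3b

set_option autoImplicit false
set_option maxHeartbeats 400000

/-!
# Project TY: the chain theorem with a better first step, assembly
-/

namespace Pool.Agent.Q6.TY

open MvPolynomial

theorem vl_cast {t : ℕ} (x : Fin t → ℝ) (o : O t) :
    vl (fun i => (x i : ℂ)) o = ((vl x o : ℝ) : ℂ) := by
  cases o <;> simp [vl]

theorem sol_cast {t : ℕ} {M E : Set (O t × O t × O t)} {x : Fin t → ℝ} (h : x ∈ Sol ℝ M E) :
    (fun i => (x i : ℂ)) ∈ Sol ℂ M E := by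
  refine ⟨fun e he => ?_, fun e he => ?_⟩
  · rw [vl_cast, vl_cast, vl_cast, ← h.1 e he]; push_cast; rfl
  · rw [vl_cast, vl_cast, vl_cast, ← h.2 e he]; push_cast; rfl

/-- The final inequality. -/
theorem key3 (hB : S_BND) (hD : S_DIM) (hT : S_TORP) (hTD : S_TORD) (hG : S_GRO)
    (hL : S_LIM) (hS : S_SMI) (hHA : S_HADA) {t : ℕ} {F : Set (P t)} {p : Fin t → ℂ}
    {x : Fin t → ℝ} (hx : ∀ i, 0 < x i) (hpx : ∀ i, p i = x i)
    (hF : ∀ f ∈ F, f ∈ mx p) {a' b' c' : Fin t →₀ ℕ} (ha' : a'.degree ≤ 1) (hb' : b'.degree ≤ 1)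
    (hc' : c'.degree ≤ 1) (hab : dif a' b' ∉ Vsp F) (hac : dif a' c' ∉ Vsp F)
    (hbc : dif b' c' ∉ Vsp F) {q' : Ideal (P t)} (hq' : tor p (Vsp F) ≤ q')
    (hf : (monomial a' 1 + monomial b' 1 - monomial c' 1 : P t) ∈ q')
    (hlin : IsLin (monomial a' 1 + monomial b' 1 - monomial c' 1 : P t))
    {s : ℕ} (hs : Ch F (mx p) s q')
    (hst : t ≤ s + 1 + Module.finrank ℚ (Vsp F)) (T : ℝ)
    (hlow : ∃ ε₁ : ℝ, 0 < ε₁ ∧ ∀ ε, 0 < ε → ε ≤ ε₁ → ∀ n : ℕ,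
      T * n ≤ Real.log (Sp (mx p) n ε)) :
    T ≤ (((t : ℝ) - Module.finrank ℚ (Vsp F) - 1) * Real.log 3 + Real.log 3 / 2) *
      2 ^ Module.finrank ℚ (Vsp F) := by
  have hne : ∀ i, p i ≠ 0 := fun i => by
    rw [hpx]; exact_mod_cast (hx i).ne'
  set a := Module.finrank ℚ (Vsp F) with ha
  have hTD' := hTD t p F hne hF
  rw [← ha] at hTD'
  have hT' := hT t p hne
  have hnot : (monomial a' 1 + monomial b' 1 - monomial c' 1 : P t) ∉ tor p (Vsp F) :=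
    tri_notMem hne hac hbc
  have hsmk : ∀ N, Sm (fun n => (k q' n : ℝ)) N ≤ k (tor p (Vsp F)) N :=
    sm_k hD (hT'.1 _) hq' hlin hnot hf
  -- number of steps
  have hk1 : ∀ n, (1 : ℝ) ≤ k (mx p) n := fun n => by
    exact_mod_cast hD.2.2.2.2 t (mx p) n hT'.2.2.2.2.2.2.2.2
  have hsa : s + 1 + a ≤ t := by
    refine steps_le t (s + 1 + a) a (fun N => ?_)
    have h1 : (Sm^[a] (Sm^[s + 1] (fun n => ((n + 0).choose 0 : ℝ)))) N =
        ((N + (s + 1 + a)).choose (s + 1 + a) : ℝ) := by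
      rw [iter_sum, hS.2.2.2.1 0 (a + (s + 1)) N]
      rw [show N + 0 + (a + (s + 1)) = N + (s + 1 + a) by ring,
        show 0 + (a + (s + 1)) = s + 1 + a by ring]
    rw [← h1]
    refine le_trans ?_ (hTD' N)
    refine hS.1 _ _ a (fun n => ?_) N
    refine le_trans ?_ (hsmk n)
    rw [Function.iterate_succ']
    refine hS.1 _ _ 1 (fun n => ?_) n
    refine le_trans ?_ (k_chain hD hS hs n)
    refine hS.1 _ _ s (fun n => ?_) n
    simpa using hk1 n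
  have hsa' : a + 1 + s = t := by omega
  obtain ⟨ε₂, hε₂, hlow⟩ := hlow
  obtain ⟨ε₃, hε₃, hG⟩ := hG t F (mx p) s _ hs
  set ε := min (min ε₂ ε₃) (1 / 2) with hεd
  have hε : 0 < ε := lt_min (lt_min hε₂ hε₃) (by norm_num)
  have hlow' := hlow ε hε ((min_le_left _ _).trans (min_le_left _ _))
  have hG' := hG ε hε ((min_le_left _ _).trans (min_le_right _ _))
  obtain ⟨C2, hC2, hA0⟩ := first_bound hB hD hHA hx hpx hF ha' hb' hc' hab hac hbc hq' hf hε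
    (min_le_right _ _)
  have hr : ((t : ℝ) - a - 1) = s := by
    have : (t : ℝ) = a + 1 + s := by rw [← hsa']; push_cast; ring
    rw [this]; ring
  rw [hr]
  refine hL t a s T (Real.log 3 / 2) (fun K hK => ?_)
  obtain ⟨C3, hC3, hG''⟩ := hG' K hK
  set M := s * K with hM
  set γ := Real.log (1 + 2 * 3 ^ K) / K with hγ
  have hγ0 : 0 ≤ γ := by
    refine div_nonneg (Real.log_nonneg ?_) (Nat.cast_nonneg K)
    have : (0 : ℝ) ≤ 2 * 3 ^ K := by positivity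
    linarith
  have hlog3 : (0 : ℝ) ≤ Real.log 3 / 2 := by
    have := Real.log_nonneg (show (1 : ℝ) ≤ 3 by norm_num)
    linarith
  set k0 : ℕ → ℝ := fun n => (k (tor p (Vsp F)) n : ℝ) with hk0
  have hk0m : ∀ n, k0 n ≤ k0 (n + 1) := fun n => by
    simp only [hk0]
    exact_mod_cast hD.2.2.1 t _ n (n + 1) (Nat.le_succ n)
  -- a bound for the iterated sum of the difference
  have hdiff : ∀ N, (Sm^[a + 1] (fun n => k0 (n + 1) - k0 n)) N ≤
      2 ^ a * ((N + 1 + t).choose t : ℝ) := by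
    intro N
    rw [Function.iterate_succ]
    have h1 : ∀ n, (Sm (fun n => k0 (n + 1) - k0 n)) n ≤ (fun l => k0 l) (n + 1) := by
      intro n
      unfold Sm
      rw [Finset.sum_range_sub]
      have : 0 ≤ k0 0 := Nat.cast_nonneg _
      linarith
    refine (hS.1 _ _ a h1 N).trans ?_
    refine (hS.2.2.1 (fun l => k0 l) a 1 (fun n => Nat.cast_nonneg _) N).trans ?_
    exact hTD' (N + 1)
  refine ⟨((M : ℝ) + 1) ^ t * (((t : ℝ) + 1) ^ t) +
    C2 * ((M : ℝ) + 3) * (2 ^ a * (((t : ℝ) + 1) ^ t * ((M : ℝ) + 2) ^ t)) + C3, M, fun N => ?_⟩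
  -- the inequality after `Sm^[a + 1]`
  obtain ⟨W, hW⟩ : ∃ W : ℕ → ℝ, W = fun l : ℕ => (k0 (l + 1) - k0 l) * Real.log ((l : ℝ) + 3) :=
    ⟨_, rfl⟩
  obtain ⟨G, hGd⟩ : ∃ G : ℕ → ℝ, G = fun l : ℕ => 1 * ((l + 0).choose 0 : ℝ) +
      1 * (Real.log 3 / 2 * k0 l + C2 * W l) := ⟨_, rfl⟩
  have e1 : ∀ n, (Sm^[s] (fun n => T * (n : ℝ) + 0 * ((n + 0).choose 0 : ℝ))) n ≤
      1 * G (n + M) + 1 * ((s * γ) * k0 (n + M) + C3 * ((n : ℝ) + 1) ^ s) := fun n => by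
    have h1 : (Sm^[s] (fun n => T * (n : ℝ) + 0 * ((n + 0).choose 0 : ℝ))) n ≤
        (Sm^[s] (fun n => Real.log (Sp (mx p) n ε))) n := by
      refine hS.1 _ _ s (fun l => ?_) n
      have := hlow' l
      simp only [zero_mul, add_zero]
      linarith
    have h2 := hG'' n
    have h3 := hA0 (n + M)
    have h4 : s * γ * Sm (fun n => (k q' n : ℝ)) (n + M) ≤ s * γ * k0 (n + M) :=
      mul_le_mul_of_nonneg_left (hsmk _) (mul_nonneg (Nat.cast_nonneg _) hγ0)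
    simp only [one_mul, hk0, hGd, hW] at h3 h4 ⊢
    linarith
  have e2 := hS.1 _ _ (a + 1) e1 N
  have e2l : (Sm^[a + 1] (Sm^[s] (fun n => T * (n : ℝ) + 0 * ((n + 0).choose 0 : ℝ)))) N =
      T * ((N + t).choose (t + 1) : ℝ) := by
    rw [iter_sum, hS.2.1, hS.2.2.2.2.2, hS.2.2.2.1, show N + (a + 1 + s) = N + t by omega,
      show a + 1 + s + 1 = t + 1 by omega, zero_mul, add_zero]
  have e2r : (Sm^[a + 1] (fun n => 1 * G (n + M) + 1 * ((s * γ) * k0 (n + M) +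
      C3 * ((n : ℝ) + 1) ^ s))) N = 1 * (Sm^[a + 1] (fun n => G (n + M))) N +
      1 * ((s * γ) * (Sm^[a + 1] (fun n => k0 (n + M))) N +
        C3 * (Sm^[a + 1] (fun n => ((n : ℝ) + 1) ^ s)) N) := by
    rw [hS.2.1 (fun n => G (n + M)) (fun n : ℕ => (s * γ) * k0 (n + M) +
      C3 * ((n : ℝ) + 1) ^ s) 1 1 (a + 1) N, hS.2.1 (fun n => k0 (n + M))
      (fun n : ℕ => ((n : ℝ) + 1) ^ s) _ _ (a + 1) N]
  have e2' : T * ((N + t).choose (t + 1) : ℝ) ≤ 1 * (Sm^[a + 1] (fun n => G (n + M))) N +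
      1 * ((s * γ) * (Sm^[a + 1] (fun n => k0 (n + M))) N +
        C3 * (Sm^[a + 1] (fun n => ((n : ℝ) + 1) ^ s)) N) := by
    rw [← e2l, ← e2r]; exact e2
  have gnn : ∀ l : ℕ, 0 ≤ G l := by
    intro l
    have h1 : 0 ≤ Real.log ((l : ℝ) + 3) := Real.log_nonneg (by
      have : (0 : ℝ) ≤ l := Nat.cast_nonneg l
      linarith)
    have h2 := hk0m l
    have h3 : 0 ≤ k0 l := Nat.cast_nonneg _
    have h4 : 0 ≤ C2 * ((k0 (l + 1) - k0 l) * Real.log ((l : ℝ) + 3)) :=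
      mul_nonneg hC2 (mul_nonneg (by linarith) h1)
    have h5 : 0 ≤ Real.log 3 / 2 * k0 l := mul_nonneg hlog3 h3
    simp only [hGd, hW, add_zero, Nat.choose_zero_right, Nat.cast_one, one_mul]
    linarith
  have e3 := hS.2.2.1 G (a + 1) M gnn N
  have e3b : (Sm^[a + 1] G) (N + M) =
      1 * ((N + M + 0 + (a + 1)).choose (0 + (a + 1)) : ℝ) +
        1 * (Real.log 3 / 2 * (Sm^[a + 1] k0) (N + M) +
        C2 * (Sm^[a + 1] W) (N + M)) := by
    rw [hGd, hS.2.1, hS.2.1, hS.2.2.2.1]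
  have e4 : (Sm^[a + 1] k0) (N + M) ≤ 2 ^ a * ((N + M + t + 1).choose (t + 1) : ℝ) := by
    rw [Function.iterate_succ_apply']
    have h2 : ∀ n, (Sm^[a] k0) n ≤
        2 ^ a * ((n + t).choose t : ℝ) + 0 * ((n + t).choose t : ℝ) := fun n => by
      rw [zero_mul, add_zero]; exact hTD' n
    have h3 := hS.1 _ _ 1 h2 (N + M)
    rw [hS.2.1, hS.2.2.2.1, zero_mul, add_zero] at h3
    exact h3
  have e4' : (Sm^[a + 1] (fun n => k0 (n + M))) N ≤
      2 ^ a * ((N + M + t + 1).choose (t + 1) : ℝ) :=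
    (hS.2.2.1 k0 (a + 1) M (fun n => Nat.cast_nonneg _) N).trans e4
  have e5 := hS.2.2.2.2.1 s (a + 1) N
  rw [show s + (a + 1) = t by omega] at e5
  have e6 : (Sm^[a + 1] W) (N + M) ≤
      Real.log (((N + M : ℕ) : ℝ) + 3) * (2 ^ a * ((N + M + 1 + t).choose t : ℝ)) := by
    rw [hW]
    refine (log_mul_sm (fun n => k0 (n + 1) - k0 n) (fun n => by linarith [hk0m n])
      (a + 1) (N + M)).trans ?_
    refine mul_le_mul_of_nonneg_left (hdiff (N + M)) (Real.log_nonneg ?_)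
    have : (0 : ℝ) ≤ ((N + M : ℕ) : ℝ) := Nat.cast_nonneg _
    linarith
  have hL1 : (1 : ℝ) ≤ Real.log ((N : ℝ) + 3) := by
    rw [Real.le_log_iff_exp_le (by positivity)]
    have := Real.exp_one_lt_d9
    have h0 : (0 : ℝ) ≤ N := Nat.cast_nonneg N
    linarith
  have hN0 : (0 : ℝ) ≤ N := Nat.cast_nonneg N
  have hM0 : (0 : ℝ) ≤ M := Nat.cast_nonneg M
  have e7 : Real.log (((N + M : ℕ) : ℝ) + 3) ≤ ((M : ℝ) + 3) * Real.log ((N : ℝ) + 3) := by
    have h1 : ((N + M : ℕ) : ℝ) + 3 ≤ ((M : ℝ) + 3) * ((N : ℝ) + 3) := by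
      push_cast; nlinarith
    refine (Real.log_le_log (by positivity) h1).trans ?_
    rw [Real.log_mul (by positivity) (by positivity)]
    have h2 : Real.log ((M : ℝ) + 3) ≤ (M : ℝ) + 2 := by
      have := Real.log_le_sub_one_of_pos (show (0 : ℝ) < (M : ℝ) + 3 by positivity)
      linarith
    nlinarith
  have e8 : ((N + M + 1 + t).choose t : ℝ) ≤
      (((t : ℝ) + 1) ^ t * ((M : ℝ) + 2) ^ t) * ((N : ℝ) + 1) ^ t := by
    refine (choose_le_pow' (N + M + 1) t).trans ?_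
    rw [mul_assoc, ← mul_pow ((M : ℝ) + 2)]
    refine mul_le_mul_of_nonneg_left (pow_le_pow_left₀ (by positivity) ?_ t) (by positivity)
    push_cast; nlinarith
  have e9 : ((N + M + 0 + (a + 1)).choose (0 + (a + 1)) : ℝ) ≤
      ((M : ℝ) + 1) ^ t * (((t : ℝ) + 1) ^ t) * ((N : ℝ) + 1) ^ t := by
    have h1 : (N + M + 0 + (a + 1)).choose (0 + (a + 1)) ≤ (N + M + t).choose t := by
      rw [show N + M + 0 + (a + 1) = N + M + (a + 1) by ring, zero_add]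
      exact choose_mono_right' _ (by omega)
    have h2 : ((N + M + 0 + (a + 1)).choose (0 + (a + 1)) : ℝ) ≤ ((N + M + t).choose t : ℝ) := by
      exact_mod_cast h1
    refine h2.trans ((choose_le_pow' (N + M) t).trans ?_)
    rw [mul_comm (((M : ℝ) + 1) ^ t), mul_assoc, ← mul_pow ((M : ℝ) + 1)]
    refine mul_le_mul_of_nonneg_left (pow_le_pow_left₀ (by positivity) ?_ t) (by positivity)
    push_cast; nlinarith
  have hpN : (0 : ℝ) ≤ ((N : ℝ) + 1) ^ t := by positivity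
  have h2a : (0 : ℝ) < 2 ^ a := by positivity
  have g1 : (s * γ) * (Sm^[a + 1] (fun n => k0 (n + M))) N ≤
      (s * γ) * (2 ^ a * ((N + M + t + 1).choose (t + 1) : ℝ)) :=
    mul_le_mul_of_nonneg_left e4' (mul_nonneg (Nat.cast_nonneg _) hγ0)
  have g2 : Real.log 3 / 2 * (Sm^[a + 1] k0) (N + M) ≤
      Real.log 3 / 2 * (2 ^ a * ((N + M + t + 1).choose (t + 1) : ℝ)) :=
    mul_le_mul_of_nonneg_left e4 hlog3
  have g3 : C3 * (Sm^[a + 1] (fun n => ((n : ℝ) + 1) ^ s)) N ≤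
      C3 * ((N : ℝ) + 1) ^ t * Real.log ((N : ℝ) + 3) := by
    refine (mul_le_mul_of_nonneg_left e5 hC3).trans ?_
    exact le_mul_of_one_le_right (by positivity) hL1
  have g4 : C2 * (Sm^[a + 1] W) (N + M) ≤
      C2 * ((M : ℝ) + 3) * (2 ^ a * (((t : ℝ) + 1) ^ t * ((M : ℝ) + 2) ^ t)) * ((N : ℝ) + 1) ^ t *
        Real.log ((N : ℝ) + 3) := by
    refine (mul_le_mul_of_nonneg_left e6 hC2).trans ?_
    have h1 : Real.log (((N + M : ℕ) : ℝ) + 3) * (2 ^ a * ((N + M + 1 + t).choose t : ℝ)) ≤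
        (((M : ℝ) + 3) * Real.log ((N : ℝ) + 3)) *
        (2 ^ a * ((((t : ℝ) + 1) ^ t * ((M : ℝ) + 2) ^ t) * ((N : ℝ) + 1) ^ t)) := by
      refine mul_le_mul e7 (mul_le_mul_of_nonneg_left e8 h2a.le) (by positivity) ?_
      exact mul_nonneg (by positivity) (by linarith)
    refine (mul_le_mul_of_nonneg_left h1 hC2).trans (le_of_eq ?_)
    ring
  have g5 : ((N + M + 0 + (a + 1)).choose (0 + (a + 1)) : ℝ) ≤
      ((M : ℝ) + 1) ^ t * (((t : ℝ) + 1) ^ t) * ((N : ℝ) + 1) ^ t * Real.log ((N : ℝ) + 3) :=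
    e9.trans (le_mul_of_one_le_right (by positivity) hL1)
  rw [one_mul, one_mul] at e2' e3b
  linarith [e2', e3, e3b, g1, g2, g3, g4, g5]

end Pool.Agent.Q6.TY
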