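import Pool.Agent.Q6.TY.CT

set_option autoImplicit false
set_option maxHeartbeats 400000

/-!
# Project TY: the polynomials of a system
-/

namespace Pool.Agent.Q6.TY

open MvPolynomial

/-- the exponent of an index -/
noncomputable def eN {t : ℕ} : O t → (Fin t →₀ ℕ) := fun o => o.elim 0 (fun i => Finsupp.single i 1)

/-- the monomial of an index -/
noncomputable def Xo {t : ℕ} (o : O t) : P t := monomial (eN o) 1

/-- the polynomials of a system -/
def sysF {t : ℕ} (M E : Set (O t × O t × O t)) : Set (P t) :=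
  {f | (∃ x ∈ M, f = monomial (eN x.1 + eN x.2.1) 1 - monomial (eN x.2.2) 1) ∨
    ∃ x ∈ E, f = monomial (eN x.1) 1 + monomial (eN x.2.1) 1 - monomial (eN x.2.2) 1}

theorem evh_monomial {t : ℕ} (q : Fin t → ℂ) (u : Fin t →₀ ℕ) (c : ℤ) :
    evh q (monomial u c) = (c : ℂ) * ∏ i, q i ^ u i := by
  simp only [evh, AlgHom.toRingHom_eq_coe, RingHom.coe_coe, aeval_monomial, eq_intCast]
  rw [Finsupp.prod_fintype _ _ (fun i => pow_zero _)]

theorem evh_eN {t : ℕ} (q : Fin t → ℂ) (o : O t) : evh q (monomial (eN o) 1) = vl q o := by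
  rw [evh_monomial]
  cases o with
  | none => simp [eN, vl]
  | some i =>
    simp only [eN, vl, Option.elim, Int.cast_one, one_mul]
    rw [Finset.prod_eq_single i]
    · simp
    · intro j _ hj
      rw [Finsupp.single_eq_of_ne hj, pow_zero]
    · intro h; exact absurd (Finset.mem_univ i) h

theorem evh_eN_add {t : ℕ} (q : Fin t → ℂ) (o o' : O t) :
    evh q (monomial (eN o + eN o') 1) = vl q o * vl q o' := by
  rw [← evh_eN, ← evh_eN, ← map_mul, monomial_mul, one_mul]

theorem zer_sysF {t : ℕ} (M E : Set (O t × O t × O t)) : Zer (sysF M E) = Sol ℂ M E := by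
  ext q
  constructor
  · intro h
    refine ⟨fun x hx => ?_, fun x hx => ?_⟩
    · have h1 := h _ (Or.inl ⟨x, hx, rfl⟩)
      rw [map_sub, evh_eN, evh_eN_add] at h1
      exact sub_eq_zero.1 h1
    · have h1 := h _ (Or.inr ⟨x, hx, rfl⟩)
      rw [map_sub, map_add, evh_eN, evh_eN, evh_eN] at h1
      exact sub_eq_zero.1 h1
  · rintro ⟨h1, h2⟩ f (⟨x, hx, rfl⟩ | ⟨x, hx, rfl⟩)
    · rw [map_sub, evh_eN, evh_eN_add, h1 x hx, sub_self]
    · rw [map_sub, map_add, evh_eN, evh_eN, evh_eN, h2 x hx, sub_self]

theorem degree_eN {t : ℕ} (o : O t) : (eN o).degree ≤ 1 := by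
  cases o with
  | none => simp [eN]
  | some i => simp [eN]

theorem dif_eN {t : ℕ} (o o' : O t) : dif (eN o) (eN o') = ex o - ex o' := by
  have h : ∀ (a : O t) (i : Fin t), ((eN a i : ℕ) : ℚ) = ex a i := by
    intro a i
    cases a with
    | none => simp [eN, ex]
    | some j =>
      simp only [eN, ex, Option.elim]
      rw [Finsupp.single_apply, Pi.single_apply]
      by_cases hij : j = i
      · subst hij; simp
      · rw [if_neg hij, if_neg (Ne.symm hij)]; simp
  funext i
  simp only [dif, Pi.sub_apply, h]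

theorem dif_eN_add {t : ℕ} (o o' o'' : O t) :
    dif (eN o + eN o') (eN o'') = ex o + ex o' - ex o'' := by
  have h : ∀ (a : O t) (i : Fin t), ((eN a i : ℕ) : ℚ) = ex a i := fun a i => by
    have := congrFun (dif_eN a none) i
    simpa [dif, eN, ex] using this
  funext i
  simp only [dif, Pi.sub_apply, Pi.add_apply, Finsupp.add_apply, Nat.cast_add, h]

theorem isBin_M {t : ℕ} (x : O t × O t × O t) :
    IsBin (monomial (eN x.1 + eN x.2.1) 1 - monomial (eN x.2.2) 1 : P t)
      (ex x.1 + ex x.2.1 - ex x.2.2) := by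
  refine ⟨_, _, 1, Or.inl rfl, ?_, ?_, rfl, (dif_eN_add _ _ _).symm⟩
  · rw [map_add]
    have := degree_eN x.1
    have := degree_eN x.2.1
    omega
  · have := degree_eN x.2.2
    omega

theorem evh_one_monomial {t : ℕ} (u : Fin t →₀ ℕ) (c : ℤ) :
    evh (fun _ => (1 : ℂ)) (monomial u c) = (c : ℂ) := by
  rw [evh_monomial]; simp

theorem not_isBin_E {t : ℕ} (x : O t × O t × O t) (w : Fin t → ℚ) :
    ¬ IsBin (monomial (eN x.1) 1 + monomial (eN x.2.1) 1 - monomial (eN x.2.2) 1 : P t) w := by
  rintro ⟨u, v, σ, hσ, -, -, hf, -⟩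
  have h := congrArg (evh (fun _ => (1 : ℂ))) hf
  rw [map_sub, map_add, map_sub, evh_one_monomial, evh_one_monomial, evh_one_monomial,
    evh_one_monomial, evh_one_monomial] at h
  rcases hσ with rfl | rfl
  · norm_num at h
  · norm_num at h

theorem isLin_E {t : ℕ} (x : O t × O t × O t) :
    IsLin (monomial (eN x.1) 1 + monomial (eN x.2.1) 1 - monomial (eN x.2.2) 1 : P t) := by
  have hd : ∀ o : O t, (monomial (eN o) (1 : ℤ)).totalDegree ≤ 1 := fun o => by
    refine (totalDegree_monomial_le _ _).trans ?_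
    have := degree_eN o
    rwa [Finsupp.degree_eq_sum, ← Finsupp.sum_fintype _ (fun _ e => e) (fun _ => rfl)] at this
  refine ⟨?_, ?_⟩
  · refine (totalDegree_sub _ _).trans (max_le ?_ (hd _))
    exact (totalDegree_add _ _).trans (max_le (hd _) (hd _))
  · classical
    unfold nrm
    set f := (monomial (eN x.1) (1 : ℤ) + monomial (eN x.2.1) 1 - monomial (eN x.2.2) 1 : P t)
    have h1 : ∀ u, |coeff u f| ≤ (if eN x.1 = u then (1 : ℤ) else 0) +
        (if eN x.2.1 = u then (1 : ℤ) else 0) + (if eN x.2.2 = u then (1 : ℤ) else 0) := by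
      intro u
      simp only [f, coeff_sub, coeff_add, coeff_monomial]
      split_ifs <;> norm_num
    refine (Finset.sum_le_sum fun u _ => h1 u).trans ?_
    rw [Finset.sum_add_distrib, Finset.sum_add_distrib]
    have h2 : ∀ a : Fin t →₀ ℕ, ∑ u ∈ f.support, (if a = u then (1 : ℤ) else 0) ≤ 1 := by
      intro a
      rw [Finset.sum_ite_eq]
      split_ifs <;> norm_num
    have := h2 (eN x.1)
    have := h2 (eN x.2.1)
    have := h2 (eN x.2.2)
    linarith

theorem vsp_sysF {t : ℕ} (M E : Set (O t × O t × O t)) : Vsp (sysF M E) = VM M := by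
  apply le_antisymm
  · refine Submodule.span_le.2 ?_
    rintro w ⟨f, (⟨x, hx, rfl⟩ | ⟨x, hx, rfl⟩), hw⟩
    · obtain ⟨u, v, σ, hσ, -, -, hf, rfl⟩ := hw
      -- compare the two binomials
      by_cases huv : u = v
      · subst huv
        have : dif u u = 0 := by funext i; simp [dif]
        rw [this]; exact Submodule.zero_mem _
      · by_cases hxx : eN x.1 + eN x.2.1 = eN x.2.2
        · rw [hxx, sub_self] at hf
          have h1 := congrArg (coeff u) hf
          rw [coeff_sub, coeff_monomial, coeff_monomial, if_pos rfl, if_neg (Ne.symm huv)] at h1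
          simp at h1
        · have h1 := congrArg (coeff u) hf
          have h2 := congrArg (coeff v) hf
          rw [coeff_sub, coeff_sub, coeff_monomial, coeff_monomial, coeff_monomial, coeff_monomial,
            if_pos rfl, if_neg (Ne.symm huv)] at h1
          rw [coeff_sub, coeff_sub, coeff_monomial, coeff_monomial, coeff_monomial, coeff_monomial,
            if_neg huv, if_pos rfl] at h2
          have e1 : eN x.1 + eN x.2.1 = u := by
            by_contra hne
            rw [if_neg hne] at h1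
            split_ifs at h1 <;> norm_num at h1
          subst e1
          have e2 : eN x.2.2 = v := by
            by_contra hne
            rw [if_neg huv, if_neg hne] at h2
            rcases hσ with rfl | rfl <;> norm_num at h2
          subst e2
          rw [dif_eN_add]
          exact Submodule.subset_span ⟨x, hx, rfl⟩
    · exact absurd hw (not_isBin_E x w)
  · refine Submodule.span_le.2 ?_
    rintro w ⟨x, hx, rfl⟩
    exact Submodule.subset_span ⟨_, Or.inl ⟨x, hx, rfl⟩, isBin_M x⟩

theorem sysF_types {t : ℕ} (M E : Set (O t × O t × O t)) :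
    ∀ f ∈ sysF M E, (∃ w, IsBin f w) ∨ IsLin f := by
  rintro f (⟨x, hx, rfl⟩ | ⟨x, hx, rfl⟩)
  · exact Or.inl ⟨_, isBin_M x⟩
  · exact Or.inr (isLin_E x)

end Pool.Agent.Q6.TY
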