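import Pool.Agent.Q6.TY.CT3c
import Pool.Agent.Q6.TY.Sys

set_option autoImplicit false
set_option maxHeartbeats 400000

/-!
# Project TY: the chain theorem with a better first step
-/

namespace Pool.Agent.Q6.TY

open MvPolynomial

theorem ct3 (hB : S_BND) (hD : S_DIM) (hT : S_TORP) (hTD : S_TORD) (hH : S_HGT) (hKr : S_KRULL)
    (hA : S_ALG) (hR : S_LOWR) (hG : S_GRO) (hX : S_EX) (hL : S_LIM) (hS : S_SMI)
    (hHA : S_HADA) : S_CT3 := by
  intro t M E x hx hxs hfin e he h12 h13 h23 m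
  set p : Fin t → ℂ := fun i => (x i : ℂ) with hpd
  have hps : p ∈ Sol ℂ M E := sol_cast hxs
  have hne : ∀ i, p i ≠ 0 := fun i => by
    simp only [hpd]; exact_mod_cast (hx i).ne'
  have hV : Vsp (sysF M E) = VM M := vsp_sysF M E
  have hlt : Module.finrank ℚ (VM M) < t := by
    have h1 : VM M ≠ ⊤ := fun h => h12 (h ▸ Submodule.mem_top)
    have h2 := Submodule.finrank_lt h1
    simpa using h2
  have hlt' : (Module.finrank ℚ (VM M) : ℝ) + 1 ≤ t := by exact_mod_cast hlt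
  have hl3 : 0 ≤ Real.log 3 := Real.log_nonneg (by norm_num)
  by_cases hm : x m ≤ 1
  · refine (Real.log_nonpos (hx m).le hm).trans ?_
    have h1 : 0 ≤ ((t : ℝ) - Module.finrank ℚ (VM M) - 1) * Real.log 3 + Real.log 3 / 2 := by
      have := mul_nonneg (show 0 ≤ (t : ℝ) - Module.finrank ℚ (VM M) - 1 by linarith) hl3
      linarith
    positivity
  push Not at hm
  have hnorm : ‖p m‖ = x m := by
    simp only [hpd]
    rw [Complex.norm_real, Real.norm_of_nonneg (hx m).le]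
  have hZ : Zer (sysF M E) = Sol ℂ M E := zer_sysF M E
  have hZf : (Zer (sysF M E)).Finite := hZ ▸ hfin
  have hpZ : p ∈ Zer (sysF M E) := hZ ▸ hps
  have hT' := hT t p hne
  have hmp : (mx p).IsPrime := RingHom.ker_isPrime _
  have hFm : ∀ f ∈ sysF M E, f ∈ mx p := fun f hf => hpZ f hf
  have hfF : (monomial (eN e.1) 1 + monomial (eN e.2.1) 1 - monomial (eN e.2.2) 1 : P t) ∈
      sysF M E := Or.inr ⟨e, he, rfl⟩
  obtain ⟨q', hq'p, hq', hfq', hq'm, hkr⟩ := hKr (P t) (tor p (Vsp (sysF M E))) (mx p) (hT'.1 _)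
    hmp (hT'.2.1 _) _ (hFm _ hfF)
  obtain ⟨s, hs, hh⟩ := hX t (sysF M E) hZf (sysF_types M E) p hpZ hne q' hq'p hq' hq'm
  have halg := (hA t (sysF M E) hZf p hpZ).1
  have hht := hH t p hne halg (Vsp (sysF M E))
  have hst : t ≤ s + 1 + Module.finrank ℚ (Vsp (sysF M E)) := by
    have h1 : (t : ℕ∞) ≤ (s : ℕ∞) + 1 + (Module.finrank ℚ (Vsp (sysF M E)) : ℕ∞) :=
      hht.trans (add_le_add (hkr.trans (add_le_add hh le_rfl)) le_rfl)
    exact_mod_cast h1
  have hk := key3 hB hD hT hTD hG hL hS hHA hx (fun i => rfl) hFm (degree_eN e.1)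
    (degree_eN e.2.1) (degree_eN e.2.2) (by rw [dif_eN, hV]; exact h12)
    (by rw [dif_eN, hV]; exact h13) (by rw [dif_eN, hV]; exact h23) hq' hfq' (isLin_E e) hs hst
    (Real.log (x m)) ?_
  · rw [hV] at hk
    exact hk
  · obtain ⟨ε₁, hε₁, hlow⟩ := hR t p m (fun i => Complex.ofReal_im _) (by rw [hnorm]; exact hm)
    refine ⟨ε₁, hε₁, fun ε h0 h1 n => ?_⟩
    obtain ⟨N, hN, hsep⟩ := hlow ε h0 h1 n
    rw [hnorm] at hN
    have hxm := hx m
    have hN0 : (0 : ℝ) < N := lt_of_lt_of_le (by positivity) hN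
    refine le_trans ?_ (log_le_logSp hB h0 (by exact_mod_cast hN0) hsep)
    refine le_trans (le_of_eq ?_) (Real.log_le_log (by positivity) hN)
    rw [Real.log_pow]
    ring

end Pool.Agent.Q6.TY
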