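import Pool.Agent.Q6.TY.CT
import Pool.Agent.Q6.TY.Stm3

set_option autoImplicit false
set_option maxHeartbeats 400000

/-!
# Project TY, second stage: the final inequality for a general coset ideal
-/

namespace Pool.Agent.Q6.TY

open MvPolynomial

/-- The final inequality for a coset ideal with rank growth of constant `2 ^ a * D`. -/
theorem keyv (hB : S_BND) (hD : S_DIM) (hG : S_GRO) (hL : S_LIM) (hS : S_SMI) {t : ℕ}
    {F : Set (P t)} {p : Fin t → ℂ} {V : Submodule ℚ (Fin t → ℚ)}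
    (hz : ∀ z : ℤ, C z ∈ mx p → z = 0) {s : ℕ} (hs : Ch F (mx p) s (tor p V)) (a : ℕ) (D : ℝ)
    (hD1 : 0 < D)
    (hTD' : ∀ N : ℕ, (Sm^[Module.finrank ℚ V] (fun n => (k (tor p V) n : ℝ))) N ≤
      2 ^ a * D * ((N + t).choose t : ℝ))
    (hTC : ∀ ε : ℝ, 0 < ε → ∃ C : ℝ, ∀ n N : ℕ, HasSep (tor p V) n ε N →
      Real.log N ≤ C * ((n : ℝ) + 1) ^ (t - Module.finrank ℚ V))
    (hst : t ≤ s + Module.finrank ℚ V) (T C' : ℝ)
    (hlow : ∃ ε₁ : ℝ, 0 < ε₁ ∧ ∀ ε, 0 < ε → ε ≤ ε₁ → ∀ n : ℕ,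
      T * n - C' ≤ Real.log (Sp (mx p) n ε)) :
    T ≤ ((t : ℝ) - Module.finrank ℚ V) * Real.log 3 * 2 ^ a * D := by
  set b := Module.finrank ℚ V with hb
  -- number of steps
  have hk1 : ∀ n, (1 : ℝ) ≤ k (mx p) n := fun n => by
    exact_mod_cast hD.2.2.2.2 t (mx p) n hz
  obtain ⟨a', ha'⟩ : ∃ a' : ℕ, D ≤ 2 ^ a' := by
    obtain ⟨n, hn⟩ := pow_unbounded_of_one_lt D (show (1 : ℝ) < 2 by norm_num)
    exact ⟨n, hn.le⟩
  have hsa : s + b ≤ t := by
    refine steps_le t (s + b) (a + a') (fun N => ?_)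
    have h1 : (Sm^[b] (Sm^[s] (fun n => ((n + 0).choose 0 : ℝ)))) N = ((N + (s + b)).choose (s + b) : ℝ) := by
      rw [iter_sum, hS.2.2.2.1 0 (b + s) N]
      rw [show N + 0 + (b + s) = N + (s + b) by ring, show 0 + (b + s) = s + b by ring]
    rw [← h1]
    have h2 : 2 ^ a * D * ((N + t).choose t : ℝ) ≤ 2 ^ (a + a') * ((N + t).choose t : ℝ) := by
      refine mul_le_mul_of_nonneg_right ?_ (Nat.cast_nonneg _)
      rw [pow_add]
      exact mul_le_mul_of_nonneg_left ha' (by positivity)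
    refine le_trans ?_ ((hTD' N).trans h2)
    refine hS.1 _ _ b (fun n => ?_) N
    refine le_trans ?_ (k_chain hD hS hs n)
    refine hS.1 _ _ s (fun n => ?_) n
    simpa using hk1 n
  have hsa' : b + s = t := by omega
  obtain ⟨ε₂, hε₂, hlow⟩ := hlow
  obtain ⟨ε₃, hε₃, hG⟩ := hG t F (mx p) s _ hs
  set ε := min ε₂ ε₃ with hεd
  have hε : 0 < ε := lt_min hε₂ hε₃
  have hlow' := hlow ε hε (min_le_left _ _)
  have hG' := hG ε hε (min_le_right _ _)
  obtain ⟨C1, hC1⟩ := hTC ε hε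
  set C2 := max C1 0 with hC2
  have hA0 : ∀ n, Real.log (Sp (tor p V) n ε) ≤ C2 * ((n : ℝ) + 1) ^ (t - b) := fun n => by
    refine (hC1 n _ (hasSep_Sp hB _ n hε)).trans ?_
    exact mul_le_mul_of_nonneg_right (le_max_left _ _) (by positivity)
  have hr : ((t : ℝ) - b) = s := by
    have : (t : ℝ) = b + s := by rw [← hsa']; push_cast; ring
    rw [this]; ring
  rw [hr]
  have hfin := hL t a s (T / D) 0
  rw [add_zero] at hfin
  have hgoal : T / D ≤ s * Real.log 3 * 2 ^ a := by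
    refine hfin (fun K hK => ?_)
    obtain ⟨C3, hC3, hG''⟩ := hG' K hK
    set M := s * K with hM
    set γ := Real.log (1 + 2 * 3 ^ K) / K with hγ
    have hγ0 : 0 ≤ γ := by
      refine div_nonneg (Real.log_nonneg ?_) (Nat.cast_nonneg K)
      have : (0 : ℝ) ≤ 2 * 3 ^ K := by positivity
      linarith
    refine ⟨(C2 * ((M : ℝ) + 1) ^ t + C3 + |C'| * ((t : ℝ) + 1) ^ t) / D, M, fun N => ?_⟩
    -- the inequality after `Sm^[b]`
    have e1 : ∀ n, (Sm^[s] (fun n => T * (n : ℝ) + (-C') * ((n + 0).choose 0 : ℝ))) n ≤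
        C2 * ((fun l : ℕ => ((l : ℝ) + 1) ^ (t - b)) (n + M)) +
        1 * ((s * γ) * Sm (fun n => (k (tor p V) n : ℝ)) (n + M) +
        C3 * ((n : ℝ) + 1) ^ s) := fun n => by
      have h1 : (Sm^[s] (fun n => T * (n : ℝ) + (-C') * ((n + 0).choose 0 : ℝ))) n ≤
          (Sm^[s] (fun n => Real.log (Sp (mx p) n ε))) n := by
        refine hS.1 _ _ s (fun l => ?_) n
        have := hlow' l
        simp only [add_zero, Nat.choose_zero_right, Nat.cast_one, mul_one]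
        linarith
      have h2 := hG'' n
      have h3 := hA0 (n + M)
      simp only [one_mul]
      linarith
    have e2 := hS.1 _ _ b e1 N
    rw [iter_sum, hS.2.1, hS.2.2.2.2.2, hS.2.2.2.1, hS.2.1, hS.2.1] at e2
    have e3 : (Sm^[b] (fun n => (fun l : ℕ => ((l : ℝ) + 1) ^ (t - b)) (n + M))) N ≤
        ((M : ℝ) + 1) ^ t * ((N : ℝ) + 1) ^ t := by
      refine (hS.2.2.1 (fun l : ℕ => ((l : ℝ) + 1) ^ (t - b)) b M (fun n => by positivity) N).trans ?_
      refine (hS.2.2.2.2.1 (t - b) b (N + M)).trans ?_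
      rw [show t - b + b = t by omega, ← mul_pow]
      refine pow_le_pow_left₀ (by positivity) ?_ t
      push_cast
      nlinarith [Nat.cast_nonneg (α := ℝ) N, Nat.cast_nonneg (α := ℝ) M]
    have e4 : (Sm^[b] (fun n => Sm (fun n => (k (tor p V) n : ℝ)) (n + M))) N ≤
        2 ^ a * D * ((N + M + t + 1).choose (t + 1) : ℝ) := by
      refine (hS.2.2.1 (Sm (fun n => (k (tor p V) n : ℝ))) b M (fun n => ?_) N).trans ?_
      · exact Finset.sum_nonneg fun _ _ => Nat.cast_nonneg _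
      · have h1 : Sm^[b] (Sm (fun n => (k (tor p V) n : ℝ))) =
            Sm (Sm^[b] (fun n => (k (tor p V) n : ℝ))) := by
          rw [← Function.iterate_succ_apply, Function.iterate_succ_apply']
        rw [h1]
        have h2 : ∀ n, (Sm^[b] (fun n => (k (tor p V) n : ℝ))) n ≤
            2 ^ a * D * ((n + t).choose t : ℝ) + 0 * ((n + t).choose t : ℝ) := fun n => by
          rw [zero_mul, add_zero]; exact hTD' n
        have h3 := hS.1 _ _ 1 h2 (N + M)
        rw [hS.2.1, hS.2.2.2.1, zero_mul, add_zero] at h3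
        exact h3
    have e5 := hS.2.2.2.2.1 s b N
    rw [show s + b = t by omega] at e5
    rw [show N + (b + s) = N + t by omega, show b + s + 1 = t + 1 by omega,
      show N + 0 + (b + s) = N + t by omega, show 0 + (b + s) = t by omega] at e2
    have e6 := choose_le_pow' N t
    have e7 : (1 : ℝ) ≤ Real.log ((N : ℝ) + 3) := by
      rw [Real.le_log_iff_exp_le (by positivity)]
      have := Real.exp_one_lt_d9
      have h0 : (0 : ℝ) ≤ N := Nat.cast_nonneg N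
      linarith
    have e8 : (0 : ℝ) ≤ ((N : ℝ) + 1) ^ t := by positivity
    have e9 : C' * ((N + t).choose t : ℝ) ≤ |C'| * (((t : ℝ) + 1) ^ t * ((N : ℝ) + 1) ^ t) :=
      (mul_le_mul_of_nonneg_right (le_abs_self _) (Nat.cast_nonneg _)).trans
        (mul_le_mul_of_nonneg_left e6 (abs_nonneg _))
    have f1 : C2 * (Sm^[b] (fun n => (fun l : ℕ => ((l : ℝ) + 1) ^ (t - b)) (n + M))) N ≤
        C2 * (((M : ℝ) + 1) ^ t * ((N : ℝ) + 1) ^ t) :=
      mul_le_mul_of_nonneg_left e3 (le_max_right _ _)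
    have f2 : (s * γ) * (Sm^[b] (fun n => Sm (fun n => (k (tor p V) n : ℝ)) (n + M))) N ≤
        (s * γ) * (2 ^ a * D * ((N + M + t + 1).choose (t + 1) : ℝ)) :=
      mul_le_mul_of_nonneg_left e4 (mul_nonneg (Nat.cast_nonneg _) hγ0)
    have f3 : C3 * (Sm^[b] (fun n => ((n : ℝ) + 1) ^ s)) N ≤ C3 * ((N : ℝ) + 1) ^ t :=
      mul_le_mul_of_nonneg_left e5 hC3
    have f4 : 0 ≤ C2 * ((M : ℝ) + 1) ^ t + C3 + |C'| * ((t : ℝ) + 1) ^ t := by
      have : 0 ≤ C2 := le_max_right _ _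
      positivity
    have f5 : (C2 * ((M : ℝ) + 1) ^ t + C3 + |C'| * ((t : ℝ) + 1) ^ t) * ((N : ℝ) + 1) ^ t ≤
        (C2 * ((M : ℝ) + 1) ^ t + C3 + |C'| * ((t : ℝ) + 1) ^ t) * ((N : ℝ) + 1) ^ t *
          Real.log ((N : ℝ) + 3) :=
      le_mul_of_one_le_right (mul_nonneg f4 e8) e7
    simp only [one_mul, add_zero] at e2 ⊢
    have g1 : T * ((N + t).choose (t + 1) : ℝ) ≤
        (s * γ) * (2 ^ a * D * ((N + M + t + 1).choose (t + 1) : ℝ)) +
        (C2 * ((M : ℝ) + 1) ^ t + C3 + |C'| * ((t : ℝ) + 1) ^ t) * ((N : ℝ) + 1) ^ t *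
          Real.log ((N : ℝ) + 3) := by
      nlinarith [e2, f1, f2, f3, f5, e9]
    rw [div_mul_eq_mul_div, div_le_iff₀ hD1]
    refine g1.trans (le_of_eq ?_)
    field_simp
  rw [div_le_iff₀ hD1] at hgoal
  exact hgoal

end Pool.Agent.Q6.TY
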