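import Pool.Agent.Q6.TY.CTV
import Pool.Agent.Q6.TY.CT3

set_option autoImplicit false
set_option maxHeartbeats 400000

/-!
# Project TY, second stage: the averaged bound
-/

namespace Pool.Agent.Q6.TY

open MvPolynomial

/-- a polynomial in one of the variables -/
noncomputable def inj1 {t : ℕ} (i : Fin t) (h : Polynomial ℤ) : P t := Polynomial.aeval (X i) h

theorem evh_inj1 {t : ℕ} (q : Fin t → ℂ) (i : Fin t) (h : Polynomial ℤ) :
    evh q (inj1 i h) = Polynomial.aeval (q i) h := by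
  have h1 : (aeval q : P t →ₐ[ℤ] ℂ) (Polynomial.aeval (X i) h) =
      Polynomial.aeval ((aeval q : P t →ₐ[ℤ] ℂ) (X i)) h := by
    rw [← Polynomial.aeval_algHom_apply]
  rw [aeval_X] at h1
  exact h1

theorem inj1_mem_tor {t : ℕ} {p : Fin t → ℂ} {V : Submodule ℚ (Fin t → ℚ)} {i : Fin t}
    (hi : (Pi.single i 1 : Fin t → ℚ) ∈ V) {h : Polynomial ℤ}
    (hh : Polynomial.aeval (p i) h = 0) : inj1 i h ∈ tor p V := by
  have h0 : V.mkQ (Pi.single i 1) = 0 := (Submodule.Quotient.mk_eq_zero V).2 hi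
  have h1 : (aeval (fun i => AddMonoidAlgebra.single (V.mkQ (Pi.single i 1)) (p i)) :
      P t →ₐ[ℤ] AddMonoidAlgebra ℂ ((Fin t → ℚ) ⧸ V)) (Polynomial.aeval (X i) h) =
      Polynomial.aeval (AddMonoidAlgebra.single (V.mkQ (Pi.single i 1)) (p i)) h := by
    rw [← Polynomial.aeval_algHom_apply, aeval_X]
  change torHom p V (inj1 i h) = 0
  change (aeval (fun i => AddMonoidAlgebra.single (V.mkQ (Pi.single i 1)) (p i)) :
      P t →ₐ[ℤ] AddMonoidAlgebra ℂ ((Fin t → ℚ) ⧸ V)) (Polynomial.aeval (X i) h) = 0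
  rw [h1, h0]
  have h2 : (AddMonoidAlgebra.single (0 : (Fin t → ℚ) ⧸ V) (p i) :
      AddMonoidAlgebra ℂ ((Fin t → ℚ) ⧸ V)) =
      (AddMonoidAlgebra.singleZeroRingHom.toIntAlgHom : ℂ →ₐ[ℤ]
        AddMonoidAlgebra ℂ ((Fin t → ℚ) ⧸ V)) (p i) := rfl
  rw [h2, Polynomial.aeval_algHom_apply, hh, map_zero]

/-- The averaged bound. -/
def S_CTW : Prop := ∀ (t : ℕ) (F : Set (P t)), (∀ f ∈ F, (∃ w, IsBin f w) ∨ IsLin f) →
  ∀ p ∈ Zer F, (∀ i, p i ≠ 0) → ∀ (I : Finset (Fin t)) (N : Fin t → ℕ), I.Nonempty →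
  (∀ i ∈ I, (N i).Prime ∧ 2 < N i) → (∀ i ∈ I, ∀ j ∈ I, N i = N j → i = j) →
  (∀ i ∈ I, IsPrimitiveRoot (p i) (N i)) →
  {q | q ∈ Zer F ∧ ∀ i ∈ I, IsPrimitiveRoot (q i) (N i)}.Finite →
  ∀ B : ℝ, 1 < B →
  (∀ q ∈ Zer F, (∀ i ∈ I, IsPrimitiveRoot (q i) (N i)) → ∃ m, B ≤ ‖q m‖) →
  Real.log B ≤ ((t : ℝ) - Module.finrank ℚ (VI F I)) * Real.log 3 *
    2 ^ Module.finrank ℚ (Vsp F)

theorem ctw (hB : S_BND) (hD : S_DIM) (hT : S_TORP) (hH : S_HGT) (hA : S_ALG) (hG : S_GRO)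
    (hL : S_LIM) (hS : S_SMI) (hCo : S_CONJ) (hLX : S_LOWX) (hTD : S_TORDV) (hTC : S_TORCV)
    (hRa : S_RAT) (hX : S_EXV) : S_CTW := by
  intro t F hF p hp hne I N hI hN hinj hprim hfin B hB1 hBig
  obtain ⟨i₀, hi₀⟩ := hI
  have hT' := hT t p hne
  have hpF : ∀ f ∈ F, f ∈ mx p := fun f hf => hp f hf
  set G : Set (P t) := {f | ∃ i ∈ I, f = inj1 i (Polynomial.cyclotomic (N i) ℤ)} with hGd
  have hroot : ∀ (q : Fin t → ℂ) (i : Fin t), i ∈ I →
      (evh q (inj1 i (Polynomial.cyclotomic (N i) ℤ)) = 0 ↔ IsPrimitiveRoot (q i) (N i)) := by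
    intro q i hi
    have h0 : NeZero ((N i : ℕ) : ℂ) := ⟨by exact_mod_cast (hN i hi).1.ne_zero⟩
    rw [evh_inj1, Polynomial.aeval_def, Polynomial.eval₂_eq_eval_map,
      Polynomial.map_cyclotomic, ← Polynomial.IsRoot.def, Polynomial.isRoot_cyclotomic_iff]
  have hZ : Zer (F ∪ G) = {q | q ∈ Zer F ∧ ∀ i ∈ I, IsPrimitiveRoot (q i) (N i)} := by
    ext q
    constructor
    · intro h
      refine ⟨fun f hf => h f (Or.inl hf), fun i hi => ?_⟩
      exact (hroot q i hi).1 (h _ (Or.inr ⟨i, hi, rfl⟩))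
    · rintro ⟨h1, h2⟩ f (hf | ⟨i, hi, rfl⟩)
      · exact h1 f hf
      · exact (hroot q i hi).2 (h2 i hi)
  have hZf : (Zer (F ∪ G)).Finite := hZ ▸ hfin
  have hpZ : p ∈ Zer (F ∪ G) := by rw [hZ]; exact ⟨hp, hprim⟩
  have halg := (hA t (F ∪ G) hZf p hpZ).1
  set V := VI F I with hV
  have hVF : Vsp F ≤ V := le_sup_left
  have heV : ∀ i ∈ I, (Pi.single i 1 : Fin t → ℚ) ∈ V := fun i hi =>
    Submodule.mem_sup_right (Submodule.subset_span ⟨i, hi, rfl⟩)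
  have hGV : ∀ g ∈ G, g ∈ tor p V := by
    rintro g ⟨i, hi, rfl⟩
    refine inj1_mem_tor (heV i hi) ?_
    rw [← evh_inj1]
    exact (hroot p i hi).2 (hprim i hi)
  obtain ⟨s, hs, hh⟩ := hX t F G hZf hF p hpZ hne V hVF hGV (tor p V) (hT'.1 _) le_rfl (hT'.2.1 _)
  have hht := hH t p hne halg V
  have hst : t ≤ s + Module.finrank ℚ V := by
    have h1 : (t : ℕ∞) ≤ (s : ℕ∞) + (Module.finrank ℚ V : ℕ∞) := hht.trans (by gcongr)
    exact_mod_cast h1
  have hdeg : ∀ i ∈ I, (Polynomial.cyclotomic (N i) ℤ).natDegree = N i - 1 := fun i hi => by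
    rw [Polynomial.natDegree_cyclotomic, Nat.totient_prime (hN i hi).1]
  have hTDV := hTD t p F hne hpF I (fun i => Polynomial.cyclotomic (N i) ℤ) (fun i hi => by
    refine ⟨?_, ?_⟩
    · rw [hdeg i hi]
      have := (hN i hi).2
      omega
    · rw [← evh_inj1]
      exact (hroot p i hi).2 (hprim i hi))
  obtain ⟨X, hXc, hX⟩ := hCo t p halg I N i₀ hi₀ hN hinj hprim
  have hprod : (∏ i ∈ I, ((Polynomial.cyclotomic (N i) ℤ).natDegree : ℝ)) = 2 * X.card := by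
    rw [Finset.prod_congr rfl (fun i hi => by rw [hdeg i hi])]
    exact_mod_cast hXc.symm
  have hXpos : 0 < (2 * X.card : ℝ) := by
    have h1 : 0 < ∏ i ∈ I, (N i - 1) := Finset.prod_pos fun i hi => by
      have := (hN i hi).2
      omega
    rw [← hXc] at h1
    exact_mod_cast h1
  obtain ⟨ε₁, hε₁, c, hc, hlow⟩ := hLX t p X i₀ B hB1 hX (fun q hq => by
    refine hBig q (fun f hf => ?_) (fun i hi => ?_)
    · have h1 : f ∈ mx q := by rw [(hX q hq).1]; exact hpF f hf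
      exact h1
    · have h1 : inj1 i (Polynomial.cyclotomic (N i) ℤ) ∈ mx q := by
        rw [(hX q hq).1]
        exact (hroot p i hi).2 (hprim i hi)
      exact (hroot q i hi).1 h1)
  have hk := keyv hB hD hG hL hS hT'.2.2.2.2.2.2.2.2 hs (Module.finrank ℚ (Vsp F)) (2 * X.card)
    hXpos (fun N' => by rw [← hprod]; exact hTDV N')
    (fun ε hε => hTC t p V hne (hRa t p F I hne hpF (fun i hi =>
      ⟨N i, (hN i hi).1.one_le, (hprim i hi).pow_eq_one⟩)) ε hε) hst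
    (2 * X.card * Real.log B) (-Real.log c) ⟨ε₁, hε₁, fun ε h0 h1 n => ?_⟩
  · have h1 : Real.log B * (2 * X.card) ≤ (((t : ℝ) - Module.finrank ℚ V) * Real.log 3 *
        2 ^ Module.finrank ℚ (Vsp F)) * (2 * X.card) := by linarith
    exact le_of_mul_le_mul_right h1 hXpos
  · obtain ⟨N', hN', hsep⟩ := hlow ε h0 h1 n
    have hB0 : 0 < B := by linarith
    have hN0 : (0 : ℝ) < N' := lt_of_lt_of_le (by positivity) hN'
    refine le_trans ?_ (log_le_logSp hB h0 (by exact_mod_cast hN0) hsep)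
    refine le_trans (le_of_eq ?_) (Real.log_le_log (by positivity) hN')
    rw [Real.log_mul hc.ne' (by positivity), Real.log_pow]
    push_cast
    ring

end Pool.Agent.Q6.TY
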