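import Mathlib

set_option autoImplicit false

/-!
# Project TY: definitions

Bounds for the isolated complex solutions of systems of equations `x i = 1`, `x i + x j = x k`,
`x i * x j = x k`.
-/

namespace Pool.Agent.Q6.TY

open MvPolynomial

/-- polynomials with integer coefficients in `t` variables -/
abbrev P (t : ℕ) := MvPolynomial (Fin t) ℤ

/-- the sum of the absolute values of the coefficients -/
noncomputable def nrm {t : ℕ} (f : P t) : ℤ := ∑ u ∈ f.support, |coeff u f|

/-- two characters are `ε`-apart on the monomials of degree at most `n` -/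
def Apart {t : ℕ} (n : ℕ) (ε : ℝ) (φ ψ : P t →+ UnitAddCircle) : Prop :=
  ∃ u : Fin t →₀ ℕ, u.degree ≤ n ∧ ε ≤ ‖φ (monomial u 1) - ψ (monomial u 1)‖

/-- there are `N` characters killing `I` which are pairwise `ε`-apart on the monomials of degree
at most `n` -/
def HasSep {t : ℕ} (I : Ideal (P t)) (n : ℕ) (ε : ℝ) (N : ℕ) : Prop :=
  ∃ A : Finset (P t →+ UnitAddCircle), A.card = N ∧ (∀ φ ∈ A, ∀ f ∈ I, φ f = 0) ∧
    ∀ φ ∈ A, ∀ ψ ∈ A, φ ≠ ψ → Apart n ε φ ψ

/-- the largest number of characters killing `I` which are pairwise `ε`-apart on the monomials of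
degree at most `n` (it is finite) -/
noncomputable def Sp {t : ℕ} (I : Ideal (P t)) (n : ℕ) (ε : ℝ) : ℕ := sSup {N | HasSep I n ε N}

/-- the image in the quotient of the polynomials of degree at most `n` -/
noncomputable def Md {t : ℕ} (I : Ideal (P t)) (n : ℕ) : Submodule ℤ (P t ⧸ I) :=
  (restrictTotalDegree (Fin t) ℤ n).map (Ideal.Quotient.mkₐ ℤ I).toLinearMap

/-- the rank of the image in the quotient of the polynomials of degree at most `n` -/
noncomputable def k {t : ℕ} (I : Ideal (P t)) (n : ℕ) : ℕ := Module.finrank ℤ (Md I n)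

/-- the real functions on the monomials of degree at most `n` (extended arbitrarily) which satisfy
exactly all relations of `I` in degree at most `n` -/
def Exact {t : ℕ} (I : Ideal (P t)) (n : ℕ) (y : (Fin t →₀ ℕ) → ℝ) : Prop :=
  ∀ f ∈ I, f.totalDegree ≤ n → ∑ u ∈ f.support, ((coeff u f : ℤ) : ℝ) * y u = 0

/-- summation -/
noncomputable def Sm (F : ℕ → ℝ) (N : ℕ) : ℝ := ∑ n ∈ Finset.range (N + 1), F n

/-- evaluation at a complex point, as a ring homomorphism -/
noncomputable def evh {t : ℕ} (p : Fin t → ℂ) : P t →+* ℂ := (aeval p : P t →ₐ[ℤ] ℂ).toRingHom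

/-- the ideal of the polynomials vanishing at a point -/
noncomputable def mx {t : ℕ} (p : Fin t → ℂ) : Ideal (P t) := RingHom.ker (evh p)

/-- the homomorphism to the group algebra of `ℚ^t / V` twisted by `p` -/
noncomputable def torHom {t : ℕ} (p : Fin t → ℂ) (V : Submodule ℚ (Fin t → ℚ)) :
    P t →+* AddMonoidAlgebra ℂ ((Fin t → ℚ) ⧸ V) :=
  (aeval (fun i => AddMonoidAlgebra.single (V.mkQ (Pi.single i 1)) (p i)) :
    P t →ₐ[ℤ] AddMonoidAlgebra ℂ ((Fin t → ℚ) ⧸ V)).toRingHom

/-- the ideal of the coset through `p` of the torus orthogonal to `V` -/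
noncomputable def tor {t : ℕ} (p : Fin t → ℂ) (V : Submodule ℚ (Fin t → ℚ)) : Ideal (P t) :=
  RingHom.ker (torHom p V)

/-- a set of complex points defined by polynomials -/
def Zer {t : ℕ} (F : Set (P t)) : Set (Fin t → ℂ) := {q | ∀ f ∈ F, evh q f = 0}

/-- the difference of two exponent vectors -/
def dif {t : ℕ} (u v : Fin t →₀ ℕ) : Fin t → ℚ := fun i => (u i : ℚ) - v i

/-- binomials of degree at most two with coefficients `1` and `∓ 1`, with their vector -/
def IsBin {t : ℕ} (f : P t) (w : Fin t → ℚ) : Prop :=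
  ∃ (u v : Fin t →₀ ℕ) (σ : ℤ), (σ = 1 ∨ σ = -1) ∧ u.degree ≤ 2 ∧ v.degree ≤ 2 ∧
    f = monomial u 1 - monomial v σ ∧ w = dif u v

/-- polynomials of degree at most one and norm at most three -/
def IsLin {t : ℕ} (f : P t) : Prop := f.totalDegree ≤ 1 ∧ nrm f ≤ 3

/-- the span of the vectors of the binomials of `F` -/
def Vsp {t : ℕ} (F : Set (P t)) : Submodule ℚ (Fin t → ℚ) :=
  Submodule.span ℚ {w | ∃ f ∈ F, IsBin f w}

/-- chains of primes up to `m`, each step one linear polynomial of `F` -/
inductive Ch {t : ℕ} (F : Set (P t)) (m : Ideal (P t)) : ℕ → Ideal (P t) → Prop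
  | refl : Ch F m 0 m
  | step (s : ℕ) (q q' : Ideal (P t)) (f : P t) (hq : q.IsPrime) (hle : q ≤ q') (hf : f ∈ F)
      (hl : IsLin f) (hfq : f ∉ q) (hfq' : f ∈ q') (h : Ch F m s q') : Ch F m (s + 1) q

/-! ### The systems (third part) -/

/-- indices: `none` stands for the constant one -/
abbrev O (t : ℕ) := Option (Fin t)

/-- the value of an index -/
def vl {t : ℕ} {R : Type} [One R] (q : Fin t → R) : O t → R := fun o => o.elim 1 q

/-- the exponent vector of an index -/
def ex {t : ℕ} : O t → (Fin t → ℚ) := fun o => o.elim 0 (fun i => Pi.single i 1)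

/-- the logarithm of a monomial with rational exponents at a positive point -/
noncomputable def lg {t : ℕ} (p : Fin t → ℝ) (w : Fin t → ℚ) : ℝ := ∑ i, (w i : ℝ) * Real.log (p i)

/-- the solutions in a commutative ring of a system of multiplicative and additive equations -/
def Sol {t : ℕ} (R : Type) [CommRing R] (M E : Set (O t × O t × O t)) : Set (Fin t → R) :=
  {q | (∀ x ∈ M, vl q x.1 * vl q x.2.1 = vl q x.2.2) ∧
    ∀ x ∈ E, vl q x.1 + vl q x.2.1 = vl q x.2.2}

/-- the span of the vectors of the multiplicative equations -/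
def VM {t : ℕ} (M : Set (O t × O t × O t)) : Submodule ℚ (Fin t → ℚ) :=
  Submodule.span ℚ {w | ∃ x ∈ M, w = ex x.1 + ex x.2.1 - ex x.2.2}

/-- the vectors (sum minus a larger summand) of the additive equations at a positive point -/
def Dset {t : ℕ} (E : Set (O t × O t × O t)) (p : Fin t → ℝ) : Set (Fin t → ℚ) :=
  {w | ∃ x ∈ E, (vl p x.2.1 ≤ vl p x.1 ∧ w = ex x.2.2 - ex x.1) ∨
    (vl p x.1 ≤ vl p x.2.1 ∧ w = ex x.2.2 - ex x.2.1)}

end Pool.Agent.Q6.TY
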