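import Pool.Agent.Q6.TY.Zero

set_option autoImplicit false
set_option maxHeartbeats 400000

/-!
# Project TY: the two theorems, from the statements
-/

namespace Pool.Agent.Q6.TY

open MvPolynomial

/-- the solutions of a system of equations `x i = 1`, `x i + x j = x k`, `x i * x j = x k` -/
def SolE {n : ℕ} (A : Set (Fin n)) (B C : Set (Fin n × Fin n × Fin n)) : Set (Fin n → ℂ) :=
  {x | (∀ i ∈ A, x i = 1) ∧ (∀ e ∈ B, x e.1 + x e.2.1 = x e.2.2) ∧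
    ∀ e ∈ C, x e.1 * x e.2.1 = x e.2.2}

/-- the multiplicative part -/
def MM {n t : ℕ} (φ : Fin n → O t) (A : Set (Fin n)) (C : Set (Fin n × Fin n × Fin n)) :
    Set (O t × O t × O t) :=
  {e | (∃ i ∈ A, e = (φ i, none, none)) ∨ ∃ c ∈ C, e = (φ c.1, φ c.2.1, φ c.2.2)}

/-- the additive part -/
def EE {n t : ℕ} (φ : Fin n → O t) (B : Set (Fin n × Fin n × Fin n)) :
    Set (O t × O t × O t) := {e | ∃ c ∈ B, e = (φ c.1, φ c.2.1, φ c.2.2)}

theorem solE_iff {n t : ℕ} (φ : Fin n → O t) (A : Set (Fin n)) (B C : Set (Fin n × Fin n × Fin n))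
    (q : Fin t → ℂ) : (fun i => vl q (φ i)) ∈ SolE A B C ↔ q ∈ Sol ℂ (MM φ A C) (EE φ B) := by
  constructor
  · rintro ⟨h1, h2, h3⟩
    refine ⟨?_, ?_⟩
    · rintro _ (⟨i, hi, rfl⟩ | ⟨c, hc, rfl⟩)
      · have := h1 i hi
        simp only at this ⊢
        rw [this]
        simp [vl]
      · exact h3 c hc
    · rintro _ ⟨c, hc, rfl⟩
      exact h2 c hc
  · rintro ⟨h1, h2⟩
    refine ⟨fun i hi => ?_, fun e he => h2 _ ⟨e, he, rfl⟩, fun e he => h1 _ (Or.inr ⟨e, he, rfl⟩)⟩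
    have := h1 _ (Or.inl ⟨i, hi, rfl⟩)
    simpa [vl] using this

theorem solE_finite {n t : ℕ} (φ : Fin n → O t) (hφ : ∀ j, ∃ i, φ i = some j) (A : Set (Fin n))
    (B C : Set (Fin n × Fin n × Fin n)) (h : (SolE A B C).Finite) :
    (Sol ℂ (MM φ A C) (EE φ B)).Finite := by
  have hinj : Function.Injective (fun (q : Fin t → ℂ) (i : Fin n) => vl q (φ i)) := by
    intro q q' h
    funext j
    obtain ⟨i, hi⟩ := hφ j
    have := congrFun h i
    simpa [hi, vl] using this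
  refine (h.preimage (hinj.injOn (s := _))).subset fun q hq => ?_
  exact (solE_iff φ A B C q).2 hq

/-- The bound for all systems. -/
theorem bound_n (hCT : S_CT) (hC3 : S_CT3) (hSP : S_SPAN) (hI : S_INF1) (hP2 : S_POS2) (n : ℕ)
    (A : Set (Fin n)) (B C : Set (Fin n × Fin n × Fin n)) (h : (SolE A B C).Finite)
    (x : Fin n → ℂ) (hx : x ∈ SolE A B C) (i : Fin n) : ‖x i‖ ≤ 2 ^ (2 ^ (n - 1)) := by
  have h1 := solE_finite (fun i => some i) (fun j => ⟨j, rfl⟩) A B C h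
  have h2 : x ∈ Sol ℂ (MM (fun i => some i) A C) (EE (fun i => some i) B) :=
    (solE_iff (fun i => some i) A B C x).1 hx
  exact final_norm hCT hC3 hSP hI hP2 h2 h1 i

/-- The bound for the systems with an equation `x i₀ = 1`. -/
theorem bound_one (hCT : S_CT) (hC3 : S_CT3) (hSP : S_SPAN) (hI : S_INF1) (hP2 : S_POS2) (n : ℕ)
    (A : Set (Fin n)) (B C : Set (Fin n × Fin n × Fin n)) (hA : A.Nonempty)
    (h : (SolE A B C).Finite) (x : Fin n → ℂ) (hx : x ∈ SolE A B C) (i : Fin n) :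
    ‖x i‖ ≤ (2 : ℝ) ^ ((2 : ℝ) ^ ((n : ℝ) - 2)) := by
  obtain ⟨i₀, hi₀⟩ := hA
  obtain ⟨t, rfl⟩ : ∃ t, n = t + 1 := ⟨n - 1, by have := i.2; omega⟩
  have hx0 : x i₀ = 1 := hx.1 i₀ hi₀
  have hone : (1 : ℝ) ≤ (2 : ℝ) ^ ((2 : ℝ) ^ (((t + 1 : ℕ) : ℝ) - 2)) :=
    Real.one_le_rpow (by norm_num) (by positivity)
  by_cases hi : i = i₀
  · rw [hi, hx0, norm_one]
    exact hone
  set φ : Fin (t + 1) → O t := fun i => finSuccEquiv' i₀ i with hφ
  set q : Fin t → ℂ := fun j => x (i₀.succAbove j) with hq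
  have hxq : (fun i => vl q (φ i)) = x := by
    funext i
    by_cases h : i = i₀
    · rw [h]; simp [hφ, vl, hx0]
    · obtain ⟨j, rfl⟩ := Fin.exists_succAbove_eq h
      simp [hφ, vl, hq]
  have h1 := solE_finite φ (fun j => ⟨i₀.succAbove j, by simp [hφ]⟩) A B C h
  have h2 : q ∈ Sol ℂ (MM φ A C) (EE φ B) := by
    rw [← solE_iff, hxq]; exact hx
  obtain ⟨j, rfl⟩ := Fin.exists_succAbove_eq hi
  have h3 := final_norm hCT hC3 hSP hI hP2 h2 h1 j
  have ht : 1 ≤ t := lt_of_le_of_lt (Nat.zero_le _) j.2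
  have h4 : (2 : ℝ) ^ ((2 : ℝ) ^ (((t + 1 : ℕ) : ℝ) - 2)) = 2 ^ (2 ^ (t - 1)) := by
    rw [show ((t + 1 : ℕ) : ℝ) - 2 = ((t - 1 : ℕ) : ℝ) by
      rw [Nat.cast_sub ht]; push_cast; ring]
    rw [Real.rpow_natCast, show ((2 : ℝ) ^ (t - 1)) = ((2 ^ (t - 1) : ℕ) : ℝ) by push_cast; rfl,
      Real.rpow_natCast]
  rw [h4]
  exact h3

end Pool.Agent.Q6.TY
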