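import Pool.Agent.Q6.TY.W2

set_option autoImplicit false
set_option maxHeartbeats 400000

/-!
# Project TY, second stage: solutions of minimal Euclidean norm
-/

namespace Pool.Agent.Q6.TY

open MvPolynomial

theorem num_aux (s : ℕ) : (s + 3) * 3 ^ (2 ^ (s + 2)) ≤ 4 ^ (2 ^ (s + 2)) := by
  induction s with
  | zero => norm_num
  | succ s ih =>
    rw [show s + 1 + 2 = (s + 2) + 1 by ring, pow_succ 2 (s + 2), pow_mul, pow_mul]
    have h1 : (s + 1 + 3) * (3 ^ 2 ^ (s + 2)) ^ 2 ≤ ((s + 3) * 3 ^ (2 ^ (s + 2))) ^ 2 := by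
      rw [mul_pow]
      refine Nat.mul_le_mul_right _ ?_
      nlinarith
    exact h1.trans (Nat.pow_le_pow_left ih 2)

theorem num_min (s : ℕ) : s * 3 ^ (2 ^ s) + 1 ≤ 4 ^ (2 ^ s) := by
  match s with
  | 0 => norm_num
  | 1 => norm_num
  | s + 2 =>
    have h1 := num_aux s
    have h2 : 1 ≤ 3 ^ (2 ^ (s + 2)) := Nat.one_le_pow _ _ (by norm_num)
    calc (s + 2) * 3 ^ (2 ^ (s + 2)) + 1 ≤ (s + 2) * 3 ^ (2 ^ (s + 2)) + 3 ^ (2 ^ (s + 2)) := by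
          omega
      _ = (s + 3) * 3 ^ (2 ^ (s + 2)) := by ring
      _ ≤ _ := h1

/-- A consistent system with an equation `x i₀ = 1`: solutions of minimal norm are small. -/
theorem min_norm (hW : S_CTW) (hTo : S_TORS) (hCut : S_CUT)
    (hF : ∀ (n : ℕ) (A : Set (Fin n)) (B C : Set (Fin n × Fin n × Fin n)), A.Nonempty →
      (SolE A B C).Finite → ∀ x ∈ SolE A B C, ∀ i, ‖x i‖ ≤ (2 : ℝ) ^ ((2 : ℝ) ^ ((n : ℝ) - 2)))
    (n : ℕ) (A : Set (Fin n)) (B C : Set (Fin n × Fin n × Fin n)) (x : Fin n → ℂ)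
    (hx : x ∈ SolE A B C) (hmin : ∀ y ∈ SolE A B C, ∑ i, ‖x i‖ ^ 2 ≤ ∑ i, ‖y i‖ ^ 2) (i : Fin n) :
    ‖x i‖ ≤ (2 : ℝ) ^ ((2 : ℝ) ^ ((n : ℝ) - 2)) := by
  by_cases hA : A.Nonempty
  swap
  · have hA' : A = ∅ := Set.not_nonempty_iff_eq_empty.1 hA
    have h0 : (fun _ => 0 : Fin n → ℂ) ∈ SolE A B C := by
      refine ⟨fun j hj => ?_, fun e _ => by simp, fun e _ => by simp⟩
      rw [hA'] at hj
      exact absurd hj (Set.notMem_empty j)
    have h1 := hmin _ h0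
    have h2 : ‖x i‖ ^ 2 ≤ ∑ j, ‖x j‖ ^ 2 :=
      Finset.single_le_sum (f := fun j => ‖x j‖ ^ 2) (fun _ _ => by positivity) (Finset.mem_univ i)
    simp only [norm_zero, ne_eq, OfNat.ofNat_ne_zero, not_false_eq_true, zero_pow,
      Finset.sum_const_zero] at h1
    have h3 : ‖x i‖ = 0 := by
      have : ‖x i‖ ^ 2 ≤ 0 := h2.trans h1
      have h4 := sq_nonneg ‖x i‖
      exact pow_eq_zero_iff (two_ne_zero) |>.1 (le_antisymm this h4)
    rw [h3]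
    positivity
  by_cases hfin : (SolE A B C).Finite
  · exact hF n A B C hA hfin x hx i
  obtain ⟨i₀, hi₀⟩ := hA
  obtain ⟨t, rfl⟩ : ∃ t, n = t + 1 := ⟨n - 1, by have := i.2; omega⟩
  have hx0 : x i₀ = 1 := hx.1 i₀ hi₀
  have hone : (1 : ℝ) ≤ (2 : ℝ) ^ ((2 : ℝ) ^ (((t + 1 : ℕ) : ℝ) - 2)) :=
    Real.one_le_rpow (by norm_num) (by positivity)
  by_cases hi : i = i₀
  · rw [hi, hx0, norm_one]
    exact hone
  set φ : Fin (t + 1) → O t := fun i => finSuccEquiv' i₀ i with hφ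
  -- infinitely many solutions of the reduced system
  have hinf : (Sol ℂ (MM φ A C) (EE φ B)).Infinite := by
    intro hf
    apply hfin
    refine (hf.image (fun q i => vl q (φ i))).subset fun z hz => ?_
    have hz0 : z i₀ = 1 := hz.1 i₀ hi₀
    have hzq : (fun i => vl (fun j => z (i₀.succAbove j)) (φ i)) = z := by
      funext i
      by_cases h : i = i₀
      · rw [h]; simp [hφ, vl, hz0]
      · obtain ⟨j, rfl⟩ := Fin.exists_succAbove_eq h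
        simp [hφ, vl]
    refine ⟨fun j => z (i₀.succAbove j), ?_, hzq⟩
    rw [← solE_iff, hzq]
    exact hz
  obtain ⟨y, hy, ⟨j₀, hj₀⟩, hb⟩ := w_inf hW hTo hCut hinf
  have hmin' := hmin _ ((solE_iff φ A B C y).2 hy)
  obtain ⟨j, rfl⟩ := Fin.exists_succAbove_eq hi
  have ht : 1 ≤ t := lt_of_le_of_lt (Nat.zero_le _) j.2
  rw [bound_eq t ht]
  rw [Fin.sum_univ_succAbove _ i₀, Fin.sum_univ_succAbove _ i₀] at hmin'
  have e1 : ∀ l : Fin t, vl y (φ (i₀.succAbove l)) = y l := fun l => by simp [hφ, vl]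
  have e0 : vl y (φ i₀) = 1 := by simp [hφ, vl]
  simp only [e1, e0, hx0, norm_one, one_pow] at hmin'
  have h1 : ‖x (i₀.succAbove j)‖ ^ 2 ≤ ∑ l : Fin t, ‖x (i₀.succAbove l)‖ ^ 2 :=
    Finset.single_le_sum (f := fun l : Fin t => ‖x (i₀.succAbove l)‖ ^ 2)
      (fun _ _ => by positivity) (Finset.mem_univ j)
  have h2 : ∑ l : Fin t, ‖y l‖ ^ 2 ≤ 1 + ((t - 1 : ℕ) : ℝ) * 3 ^ (2 ^ (t - 1)) := by
    rw [← Finset.add_sum_erase _ _ (Finset.mem_univ j₀), hj₀, one_pow]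
    have h5 : ∑ l ∈ Finset.univ.erase j₀, ‖y l‖ ^ 2 ≤
        ∑ _l ∈ Finset.univ.erase j₀, (3 : ℝ) ^ (2 ^ (t - 1)) :=
      Finset.sum_le_sum fun l _ => hb l
    rw [Finset.sum_const, Finset.card_erase_of_mem (Finset.mem_univ j₀), Finset.card_univ,
      Fintype.card_fin, nsmul_eq_mul] at h5
    linarith
  have h3 : ((t - 1 : ℕ) : ℝ) * 3 ^ (2 ^ (t - 1)) + 1 ≤ 4 ^ (2 ^ (t - 1)) := by
    exact_mod_cast num_min (t - 1)
  have h4 : ‖x (i₀.succAbove j)‖ ^ 2 ≤ (2 ^ (2 ^ (t - 1))) ^ 2 := by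
    rw [← pow_mul, mul_comm (2 ^ (t - 1)) 2, pow_mul]
    norm_num
    linarith
  exact le_of_sq_le_sq h4 (by positivity)

end Pool.Agent.Q6.TY
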