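import Pool.Agent.Q6.TY.CT3d
import Pool.Agent.Q6.TY.CT

set_option autoImplicit false
set_option maxHeartbeats 400000

/-!
# Project TY: the bound for positive solutions
-/

namespace Pool.Agent.Q6.TY

open MvPolynomial

theorem lg_add {t : ℕ} (p : Fin t → ℝ) (v w : Fin t → ℚ) : lg p (v + w) = lg p v + lg p w := by
  simp only [lg, Pi.add_apply, Rat.cast_add, add_mul, Finset.sum_add_distrib]

theorem lg_smul {t : ℕ} (p : Fin t → ℝ) (c : ℚ) (v : Fin t → ℚ) :
    lg p (c • v) = c * lg p v := by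
  simp only [lg, Pi.smul_apply, smul_eq_mul, Rat.cast_mul, Finset.mul_sum, mul_assoc]

theorem lg_sub {t : ℕ} (p : Fin t → ℝ) (v w : Fin t → ℚ) : lg p (v - w) = lg p v - lg p w := by
  simp only [lg, Pi.sub_apply, Rat.cast_sub, sub_mul, Finset.sum_sub_distrib]

theorem lg_zero {t : ℕ} (p : Fin t → ℝ) : lg p 0 = 0 := by simp [lg]

theorem lg_ex {t : ℕ} (p : Fin t → ℝ) (o : O t) : lg p (ex o) = Real.log (vl p o) := by
  cases o with
  | none => simp [lg, ex, vl]
  | some i =>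
    simp only [lg, ex, vl, Option.elim]
    rw [Finset.sum_eq_single i]
    · simp
    · intro j _ hj
      simp [Pi.single_apply, hj]
    · intro h; exact absurd (Finset.mem_univ i) h

theorem vl_pos {t : ℕ} {p : Fin t → ℝ} (hp : ∀ i, 0 < p i) (o : O t) : 0 < vl p o := by
  cases o with
  | none => simp [vl]
  | some i => simpa [vl] using hp i

theorem lg_VM {t : ℕ} {M E : Set (O t × O t × O t)} {p : Fin t → ℝ} (hp : ∀ i, 0 < p i)
    (hs : p ∈ Sol ℝ M E) {w : Fin t → ℚ} (hw : w ∈ VM M) : lg p w = 0 := by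
  induction hw using Submodule.span_induction with
  | mem w h =>
    obtain ⟨x, hx, rfl⟩ := h
    rw [lg_sub, lg_add, lg_ex, lg_ex, lg_ex, ← hs.1 x hx,
      Real.log_mul (vl_pos hp _).ne' (vl_pos hp _).ne']
    ring
  | zero => exact lg_zero p
  | add v w _ _ hv hw => rw [lg_add, hv, hw, add_zero]
  | smul c v _ hv => rw [lg_smul, hv, mul_zero]

theorem tri_lt {t : ℕ} {M E : Set (O t × O t × O t)} {p : Fin t → ℝ} (hp : ∀ i, 0 < p i)
    (hs : p ∈ Sol ℝ M E) {e : O t × O t × O t} (he : e ∈ E) :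
    0 < lg p (ex e.2.2 - ex e.1) ∧ 0 < lg p (ex e.2.2 - ex e.2.1) := by
  have h1 := vl_pos hp e.1
  have h2 := vl_pos hp e.2.1
  have h3 := hs.2 e he
  rw [lg_sub, lg_sub, lg_ex, lg_ex, lg_ex, sub_pos, sub_pos]
  exact ⟨Real.log_lt_log h1 (by linarith), Real.log_lt_log h2 (by linarith)⟩

theorem dset_pos {t : ℕ} {M E : Set (O t × O t × O t)} {p : Fin t → ℝ} (hp : ∀ i, 0 < p i)
    (hs : p ∈ Sol ℝ M E) {d : Fin t → ℚ} (hd : d ∈ Dset E p) : 0 < lg p d := by
  obtain ⟨x, hx, (⟨-, rfl⟩ | ⟨-, rfl⟩)⟩ := hd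
  · exact (tri_lt hp hs hx).1
  · exact (tri_lt hp hs hx).2

theorem dset_notMem {t : ℕ} {M E : Set (O t × O t × O t)} {p : Fin t → ℝ} (hp : ∀ i, 0 < p i)
    (hs : p ∈ Sol ℝ M E) {d : Fin t → ℚ} (hd : d ∈ Dset E p) : d ∉ VM M := fun h =>
  (dset_pos hp hs hd).ne' (lg_VM hp hs h)

theorem exists_dset {t : ℕ} {E : Set (O t × O t × O t)} (p : Fin t → ℝ) {e : O t × O t × O t}
    (he : e ∈ E) : ∃ d, d ∈ Dset E p := by
  rcases le_total (vl p e.2.1) (vl p e.1) with h | h
  · exact ⟨_, e, he, Or.inl ⟨h, rfl⟩⟩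
  · exact ⟨_, e, he, Or.inr ⟨h, rfl⟩⟩

theorem pos_finite_E {t : ℕ} {M E : Set (O t × O t × O t)} {p : Fin t → ℝ} (hI : S_INF1)
    (hp : ∀ i, 0 < p i) (hs : p ∈ Sol ℝ M E) (hfin : (Sol ℂ M E).Finite) (hV : VM M ≠ ⊤) :
    ∃ d, d ∈ Dset E p := by
  by_contra hcon
  have hE : ∀ x ∈ E, False := fun x hx => hcon (exists_dset p hx)
  exact hI t M E _ (fun i => by exact_mod_cast (hp i).ne') (sol_cast hs) (VM M) hV le_rfl
    (fun x hx => (hE x hx).elim) hfin

theorem pos_le_one (hSP : S_SPAN) (hI : S_INF1) {t : ℕ} {M E : Set (O t × O t × O t)}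
    {p : Fin t → ℝ} (hp : ∀ i, 0 < p i) (hs : p ∈ Sol ℝ M E) (hfin : (Sol ℂ M E).Finite)
    (hr : t ≤ Module.finrank ℚ (VM M) + 1) (m : Fin t) :
    |Real.log (p m)| ≤ ((t : ℝ) - Module.finrank ℚ (VM M)) * 2 ^ Module.finrank ℚ (VM M) *
      Real.log 2 := by
  refine hSP t M E p hp hs ?_ m
  by_cases hV : VM M = ⊤
  · rw [hV, top_sup_eq]
  obtain ⟨d, hd⟩ := pos_finite_E hI hp hs hfin hV
  by_contra hU
  have h1 : VM M < VM M ⊔ Submodule.span ℚ (Dset E p) := by
    refine lt_of_le_of_ne le_sup_left fun h => ?_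
    refine dset_notMem hp hs hd ?_
    rw [h]
    exact Submodule.mem_sup_right (Submodule.subset_span hd)
  have h2 := Submodule.finrank_lt_finrank_of_lt h1
  have h3 := Submodule.finrank_lt hU
  rw [Module.finrank_fin_fun] at h3
  omega

theorem log3_le : Real.log 3 ≤ 2 * Real.log 2 := by
  rw [show (2 : ℝ) * Real.log 2 = Real.log (2 ^ 2) by rw [Real.log_pow]; norm_num]
  exact Real.log_le_log (by norm_num) (by norm_num)

theorem log3_le' : 5 / 2 * Real.log 3 ≤ 4 * Real.log 2 := by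
  have h : 5 * Real.log 3 ≤ 8 * Real.log 2 := by
    rw [show (5 : ℝ) * Real.log 3 = Real.log (3 ^ 5) by rw [Real.log_pow]; norm_num,
      show (8 : ℝ) * Real.log 2 = Real.log (2 ^ 8) by rw [Real.log_pow]; norm_num]
    exact Real.log_le_log (by norm_num) (by norm_num)
  linarith

theorem pos_three (hSP : S_SPAN) (hI : S_INF1) (hC3 : S_CT3) {t : ℕ}
    {M E : Set (O t × O t × O t)} {p : Fin t → ℝ} (hp : ∀ i, 0 < p i) (hs : p ∈ Sol ℝ M E)
    (hfin : (Sol ℂ M E).Finite) (hr : Module.finrank ℚ (VM M) + 3 = t) (m : Fin t) :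
    Real.log (p m) ≤ 4 * 2 ^ Module.finrank ℚ (VM M) * Real.log 2 := by
  have hr' : (t : ℝ) = Module.finrank ℚ (VM M) + 3 := by exact_mod_cast hr.symm
  have hl2 : 0 < Real.log 2 := Real.log_pos (by norm_num)
  have h2a : (0 : ℝ) < 2 ^ Module.finrank ℚ (VM M) := by positivity
  by_cases hU : VM M ⊔ Submodule.span ℚ (Dset E p) = ⊤
  · have h1 := hSP t M E p hp hs hU m
    have h2 := (le_abs_self _).trans h1
    rw [hr'] at h2
    refine h2.trans ?_
    have h3 := mul_pos h2a hl2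
    nlinarith
  · -- some equation leaves the submodule
    have hex : ∃ e ∈ E, ¬ (ex e.2.2 - ex e.1 ∈ VM M ⊔ Submodule.span ℚ (Dset E p) ∧
        ex e.2.2 - ex e.2.1 ∈ VM M ⊔ Submodule.span ℚ (Dset E p)) := by
      by_contra hcon
      push Not at hcon
      exact hI t M E _ (fun i => by exact_mod_cast (hp i).ne') (sol_cast hs) _ hU le_sup_left
        (fun x hx => hcon x hx) hfin
    obtain ⟨e, he, hne⟩ := hex
    have h12 : ex e.1 - ex e.2.1 ∉ VM M := by
      intro hmem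
      apply hne
      have hmem' := Submodule.mem_sup_left (T := Submodule.span ℚ (Dset E p)) hmem
      rcases le_total (vl p e.2.1) (vl p e.1) with h | h
      · have h1 : ex e.2.2 - ex e.1 ∈ VM M ⊔ Submodule.span ℚ (Dset E p) :=
          Submodule.mem_sup_right (Submodule.subset_span ⟨e, he, Or.inl ⟨h, rfl⟩⟩)
        refine ⟨h1, ?_⟩
        have := Submodule.add_mem _ h1 hmem'
        rwa [show ex e.2.2 - ex e.1 + (ex e.1 - ex e.2.1) = ex e.2.2 - ex e.2.1 by abel] at this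
      · have h1 : ex e.2.2 - ex e.2.1 ∈ VM M ⊔ Submodule.span ℚ (Dset E p) :=
          Submodule.mem_sup_right (Submodule.subset_span ⟨e, he, Or.inr ⟨h, rfl⟩⟩)
        refine ⟨?_, h1⟩
        have := Submodule.sub_mem _ h1 hmem'
        rwa [show ex e.2.2 - ex e.2.1 - (ex e.1 - ex e.2.1) = ex e.2.2 - ex e.1 by abel] at this
    have ht := tri_lt hp hs he
    have h13 : ex e.1 - ex e.2.2 ∉ VM M := fun h => by
      have h0 := lg_VM hp hs h
      have h1 := ht.1
      rw [lg_sub] at h0 h1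
      linarith
    have h23 : ex e.2.1 - ex e.2.2 ∉ VM M := fun h => by
      have h0 := lg_VM hp hs h
      have h1 := ht.2
      rw [lg_sub] at h0 h1
      linarith
    have h1 := hC3 t M E p hp hs hfin e he h12 h13 h23 m
    rw [hr'] at h1
    refine h1.trans ?_
    have h3 := log3_le'
    nlinarith

theorem pow_aux (r : ℕ) (hr : 4 ≤ r) : r ≤ 2 ^ (r - 2) := by
  obtain ⟨s, rfl⟩ := Nat.exists_eq_add_of_le hr
  induction s with
  | zero => norm_num
  | succ s ih =>
    have h1 := ih (by omega)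
    rw [show 4 + (s + 1) - 2 = (4 + s - 2) + 1 by omega, pow_succ]
    omega

/-- The bound for positive solutions. -/
theorem pos_all (hCT : S_CT) (hC3 : S_CT3) (hSP : S_SPAN) (hI : S_INF1) (hP2 : S_POS2) {t : ℕ}
    {M E : Set (O t × O t × O t)} {p : Fin t → ℝ} (hp : ∀ i, 0 < p i) (hs : p ∈ Sol ℝ M E)
    (hfin : (Sol ℂ M E).Finite) (m : Fin t) :
    Real.log (p m) ≤ 2 ^ (t - 1) * Real.log 2 := by
  have hl2 : 0 < Real.log 2 := Real.log_pos (by norm_num)
  have hle : Module.finrank ℚ (VM M) ≤ t := by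
    have := Submodule.finrank_le (VM M)
    simpa using this
  have htm : 0 < t := lt_of_le_of_lt (Nat.zero_le _) m.2
  obtain ⟨r, hr⟩ := Nat.exists_eq_add_of_le hle
  have h2a : (0 : ℝ) < 2 ^ Module.finrank ℚ (VM M) := by positivity
  have hr' : (t : ℝ) = Module.finrank ℚ (VM M) + r := by exact_mod_cast hr
  rcases Nat.lt_or_ge r 2 with h | h
  · have h1 := (le_abs_self _).trans (pos_le_one hSP hI hp hs hfin (by omega) m)
    refine h1.trans ?_
    refine mul_le_mul_of_nonneg_right ?_ hl2.le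
    rw [hr', add_sub_cancel_left]
    interval_cases r
    · simp
    · rw [show t - 1 = Module.finrank ℚ (VM M) by omega]
      simp
  rcases Nat.lt_or_ge r 3 with h' | h'
  · have h1 := (le_abs_self _).trans (hP2 t M E p hp hs hfin (by omega) m)
    refine h1.trans (le_of_eq ?_)
    rw [show t - 1 = Module.finrank ℚ (VM M) + 1 by omega, pow_succ]
    ring
  rcases Nat.lt_or_ge r 4 with h'' | h''
  · refine (pos_three hSP hI hC3 hp hs hfin (by omega) m).trans (le_of_eq ?_)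
    rw [show t - 1 = Module.finrank ℚ (VM M) + 2 by omega, pow_add]
    ring
  · by_cases hm : p m ≤ 1
    · refine (Real.log_nonpos (hp m).le hm).trans ?_
      positivity
    push Not at hm
    set q : Fin t → ℂ := fun i => (p i : ℂ) with hqd
    have hqs : q ∈ Sol ℂ M E := sol_cast hs
    have hZ : Zer (sysF M E) = Sol ℂ M E := zer_sysF M E
    have hnorm : ‖q m‖ = p m := by
      simp only [hqd]
      rw [Complex.norm_real, Real.norm_of_nonneg (hp m).le]
    have h1 := (hCT t (sysF M E) (hZ ▸ hfin) (sysF_types M E) q (hZ ▸ hqs)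
      (fun i => by simp only [hqd]; exact_mod_cast (hp i).ne') m (by rw [hnorm]; exact hm)).1
    rw [hnorm, vsp_sysF, hr', add_sub_cancel_left] at h1
    refine h1.trans ?_
    have h2 : (r : ℝ) ≤ 2 ^ (r - 2) := by exact_mod_cast pow_aux r h''
    have h3 := log3_le
    rw [show t - 1 = Module.finrank ℚ (VM M) + ((r - 2) + 1) by omega, pow_add, pow_succ]
    have h4 : (r : ℝ) * Real.log 3 ≤ 2 ^ (r - 2) * (2 * Real.log 2) :=
      mul_le_mul h2 h3 (Real.log_nonneg (by norm_num)) (by positivity)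
    calc (r : ℝ) * Real.log 3 * 2 ^ Module.finrank ℚ (VM M)
        ≤ 2 ^ (r - 2) * (2 * Real.log 2) * 2 ^ Module.finrank ℚ (VM M) :=
          mul_le_mul_of_nonneg_right h4 h2a.le
      _ = 2 ^ Module.finrank ℚ (VM M) * (2 ^ (r - 2) * 2) * Real.log 2 := by ring

end Pool.Agent.Q6.TY
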