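import Pool.Agent.Q6.TY.Pos

set_option autoImplicit false
set_option maxHeartbeats 400000

/-!
# Project TY: reduction to positive solutions, and the final bound
-/

namespace Pool.Agent.Q6.TY

open MvPolynomial

/-! ### Signs -/

/-- the equation with the signs moved to the other side -/
def tau {t : ℕ} (s : Fin t → ℤ) (e : O t × O t × O t) : O t × O t × O t :=
  if vl s e.1 = vl s e.2.1 then e else
    if vl s e.1 = vl s e.2.2 then (e.2.2, e.2.1, e.1) else (e.2.2, e.1, e.2.1)

theorem vl_sign {t : ℕ} {s : Fin t → ℤ} (hs : ∀ i, s i = 1 ∨ s i = -1) (o : O t) :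
    vl s o = 1 ∨ vl s o = -1 := by
  cases o with
  | none => exact Or.inl rfl
  | some i => exact hs i

theorem vl_mul {t : ℕ} {R : Type} [CommRing R] (s : Fin t → ℤ) (q : Fin t → R) (o : O t) :
    vl (fun i => ((s i : ℤ) : R) * q i) o = ((vl s o : ℤ) : R) * vl q o := by
  cases o <;> simp [vl]

theorem sol_sign {t : ℕ} {R : Type} [CommRing R] {M E : Set (O t × O t × O t)} {s : Fin t → ℤ}
    (hs : ∀ i, s i = 1 ∨ s i = -1) (hM : ∀ x ∈ M, vl s x.1 * vl s x.2.1 = vl s x.2.2)
    (hE : ∀ e ∈ E, vl s e.1 = vl s e.2.1 → vl s e.1 = vl s e.2.2) (q : Fin t → R) :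
    (fun i => ((s i : ℤ) : R) * q i) ∈ Sol R M (tau s '' E) ↔ q ∈ Sol R M E := by
  have h1 : ∀ x ∈ M, (vl (fun i => ((s i : ℤ) : R) * q i) x.1 *
      vl (fun i => ((s i : ℤ) : R) * q i) x.2.1 = vl (fun i => ((s i : ℤ) : R) * q i) x.2.2 ↔
      vl q x.1 * vl q x.2.1 = vl q x.2.2) := by
    intro x hx
    rw [vl_mul, vl_mul, vl_mul, ← hM x hx]
    rcases vl_sign hs x.1 with h | h <;> rcases vl_sign hs x.2.1 with h' | h' <;>
      rw [h, h'] <;> simp
  have h2 : ∀ e ∈ E, (vl (fun i => ((s i : ℤ) : R) * q i) (tau s e).1 +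
      vl (fun i => ((s i : ℤ) : R) * q i) (tau s e).2.1 =
      vl (fun i => ((s i : ℤ) : R) * q i) (tau s e).2.2 ↔
      vl q e.1 + vl q e.2.1 = vl q e.2.2) := by
    intro e he
    have h3 := hE e he
    rw [vl_mul, vl_mul, vl_mul]
    unfold tau
    split_ifs with c1 c2
    · have h4 := h3 c1
      rw [← h4, ← c1]
      rcases vl_sign hs e.1 with h | h <;> rw [h]
      · simp
      · simp only [Int.cast_neg, Int.cast_one, neg_mul, one_mul]
        constructor
        · intro h5; linear_combination -h5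
        · intro h5; linear_combination -h5
    · simp only
      rw [← c2]
      rcases vl_sign hs e.1 with h | h <;> rcases vl_sign hs e.2.1 with h' | h'
      · exact absurd (h.trans h'.symm) c1
      · rw [h, h']
        simp only [Int.cast_neg, Int.cast_one, neg_mul, one_mul]
        constructor
        · intro h5; linear_combination -h5
        · intro h5; linear_combination -h5
      · rw [h, h']
        simp only [Int.cast_neg, Int.cast_one, neg_mul, one_mul]
        constructor
        · intro h5; linear_combination h5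
        · intro h5; linear_combination h5
      · exact absurd (h.trans h'.symm) c1
    · simp only
      have c3 : vl s e.2.1 = vl s e.2.2 := by
        rcases vl_sign hs e.1 with h | h <;> rcases vl_sign hs e.2.1 with h' | h' <;>
          rcases vl_sign hs e.2.2 with h'' | h'' <;> rw [h, h'] at c1 <;> rw [h, h''] at c2 <;>
          rw [h', h''] <;> simp_all
      rw [← c3]
      rcases vl_sign hs e.1 with h | h <;> rcases vl_sign hs e.2.1 with h' | h'
      · exact absurd (h.trans h'.symm) c1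
      · rw [h, h']
        simp only [Int.cast_neg, Int.cast_one, neg_mul, one_mul]
        constructor
        · intro h5; linear_combination h5
        · intro h5; linear_combination h5
      · rw [h, h']
        simp only [Int.cast_neg, Int.cast_one, neg_mul, one_mul]
        constructor
        · intro h5; linear_combination -h5
        · intro h5; linear_combination -h5
      · exact absurd (h.trans h'.symm) c1
  constructor
  · rintro ⟨g1, g2⟩
    exact ⟨fun x hx => (h1 x hx).1 (g1 x hx), fun e he => (h2 e he).1 (g2 _ ⟨e, he, rfl⟩)⟩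
  · rintro ⟨g1, g2⟩
    refine ⟨fun x hx => (h1 x hx).2 (g1 x hx), ?_⟩
    rintro _ ⟨e, he, rfl⟩
    exact (h2 e he).2 (g2 e he)

theorem vl_ofReal {t : ℕ} {p : Fin t → ℂ} (him : ∀ i, (p i).im = 0) (o : O t) :
    vl p o = ((vl (fun i => (p i).re) o : ℝ) : ℂ) := by
  cases o with
  | none => simp [vl]
  | some i =>
    simp only [vl, Option.elim]
    exact Complex.ext (by simp) (by simp [him i])

theorem sol_re {t : ℕ} {M E : Set (O t × O t × O t)} {p : Fin t → ℂ}
    (him : ∀ i, (p i).im = 0) (h : p ∈ Sol ℂ M E) : (fun i => (p i).re) ∈ Sol ℝ M E := by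
  refine ⟨fun x hx => ?_, fun x hx => ?_⟩
  · have h1 := h.1 x hx
    rw [vl_ofReal him, vl_ofReal him, vl_ofReal him] at h1
    exact_mod_cast h1
  · have h1 := h.2 x hx
    rw [vl_ofReal him, vl_ofReal him, vl_ofReal him] at h1
    exact_mod_cast h1

/-- The bound for real solutions without zeros. -/
theorem real_all (hCT : S_CT) (hC3 : S_CT3) (hSP : S_SPAN) (hI : S_INF1) (hP2 : S_POS2) {t : ℕ}
    {M E : Set (O t × O t × O t)} {p : Fin t → ℂ} (hne : ∀ i, p i ≠ 0)
    (him : ∀ i, (p i).im = 0) (hs : p ∈ Sol ℂ M E) (hfin : (Sol ℂ M E).Finite) (m : Fin t) :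
    Real.log ‖p m‖ ≤ 2 ^ (t - 1) * Real.log 2 := by
  set y : Fin t → ℝ := fun i => (p i).re with hy
  have hpy : ∀ i, p i = (y i : ℂ) := fun i => Complex.ext (by simp [hy]) (by simp [him i])
  have hy0 : ∀ i, y i ≠ 0 := fun i h => hne i (by rw [hpy, h]; simp)
  have hys : y ∈ Sol ℝ M E := sol_re him hs
  set s : Fin t → ℤ := fun i => if 0 < y i then 1 else -1 with hsd
  have hs1 : ∀ i, s i = 1 ∨ s i = -1 := fun i => by
    simp only [hsd]; split_ifs <;> simp
  set x : Fin t → ℝ := fun i => ((s i : ℤ) : ℝ) * y i with hx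
  have hx0 : ∀ i, 0 < x i := by
    intro i
    simp only [hx, hsd]
    split_ifs with h
    · simpa using h
    · have : y i < 0 := lt_of_le_of_ne (not_lt.1 h) (hy0 i)
      simp only [Int.cast_neg, Int.cast_one, neg_mul, one_mul]
      linarith
  have hv : ∀ o : O t, 0 < ((vl s o : ℤ) : ℝ) * vl y o := by
    intro o
    have := vl_pos hx0 o
    rwa [hx, vl_mul] at this
  have hM : ∀ x ∈ M, vl s x.1 * vl s x.2.1 = vl s x.2.2 := by
    intro e he
    have h1 := hv e.1
    have h2 := hv e.2.1
    have h3 := hv e.2.2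
    have h4 := mul_pos h1 h2
    have h5 := hys.1 e he
    rw [← h5] at h3
    rcases vl_sign hs1 e.1 with g1 | g1 <;> rcases vl_sign hs1 e.2.1 with g2 | g2 <;>
      rcases vl_sign hs1 e.2.2 with g3 | g3 <;> rw [g1, g2] at h4 <;> rw [g3] at h3 <;>
      rw [g1, g2, g3] <;> push_cast at h3 h4 <;> first | decide | (exfalso; linarith)
  have hE : ∀ e ∈ E, vl s e.1 = vl s e.2.1 → vl s e.1 = vl s e.2.2 := by
    intro e he h12
    have h1 := hv e.1
    have h2 := hv e.2.1
    have h3 := hv e.2.2
    have h5 := hys.2 e he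
    rw [← h12] at h2
    rw [← h5] at h3
    rcases vl_sign hs1 e.1 with g1 | g1 <;> 
      rcases vl_sign hs1 e.2.2 with g3 | g3 <;> rw [g1] at h1 h2 <;> rw [g3] at h3 <;>
      rw [g1, g3] <;> push_cast at h1 h2 h3 <;> (exfalso; linarith)
  have hxs : x ∈ Sol ℝ M (tau s '' E) := (sol_sign hs1 hM hE y).2 hys
  have hss : ∀ q : Fin t → ℂ, (fun i => ((s i : ℤ) : ℂ) * (((s i : ℤ) : ℂ) * q i)) = q := by
    intro q
    funext i
    rcases hs1 i with h | h <;> rw [h] <;> simp
  have hfin' : (Sol ℂ M (tau s '' E)).Finite := by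
    refine (hfin.image (fun q i => ((s i : ℤ) : ℂ) * q i)).subset fun q hq => ?_
    refine ⟨fun i => ((s i : ℤ) : ℂ) * q i, ?_, hss q⟩
    rw [← sol_sign hs1 hM hE, hss q]
    exact hq
  have h1 := pos_all hCT hC3 hSP hI hP2 hx0 hxs hfin' m
  have h2 : ‖p m‖ = x m := by
    rw [hpy, Complex.norm_real, Real.norm_eq_abs]
    simp only [hx, hsd]
    split_ifs with h
    · rw [abs_of_pos h]; simp
    · rw [abs_of_nonpos (not_lt.1 h)]; simp
  rw [h2]
  exact h1

end Pool.Agent.Q6.TY
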