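import Pool.Agent.Q6.TY.Defs

set_option autoImplicit false

/-!
# Project TY: the statements

Rows MP_78a2de_al and MP_fbd27d_al (both affirmative).  First part (`S_BND` to `S_LIM`): a lower
bound for the number of separated characters of `ℤ[x]/q` grows along a chain of primes; this gives
`log |p m| ≤ r 2 ^ a log 3`.  Second part (`S_HAD`, `S_HADA`): a better first step.  Third part
(`S_SPAN` to `S_INF2`): positive solutions, linear algebra and one real inequality.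
-/

namespace Pool.Agent.Q6.TY

open MvPolynomial

/-- JOB TY-BND.  Pigeonhole.  Proof: put `M = ⌊1/ε⌋₊ + 1` and cut the circle `ℝ/ℤ` in the `M`
half-open arcs `[j/M, (j+1)/M)`; two points of one arc have distance `< 1/M < ε`.  Every class
`c : ι` that contains an exponent of degree at most `n` gets one such exponent `u c`, and a
character `φ` of the set `A` is sent to the function `c ↦` (the arc of `φ (x^(u c))`).  If two
characters of `A` have the same image then they are not `Apart` (for every exponent `v` of degree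
`≤ n`, `φ (x^v) = φ (x^(u (cl v)))` since the difference of the monomials is in `I`), so they
are equal.  Hence `|A| ≤ M ^ card ι`. -/
def S_BND : Prop := ∀ (t : ℕ) (I : Ideal (P t)) (n : ℕ) (ε : ℝ), 0 < ε →
  ∀ (ι : Type) [Fintype ι] (cl : (Fin t →₀ ℕ) → ι),
  (∀ u v : Fin t →₀ ℕ, u.degree ≤ n → v.degree ≤ n → cl u = cl v →
    (monomial u (1 : ℤ) - monomial v 1) ∈ I) →
  ∀ N, HasSep I n ε N → N ≤ (⌊1 / ε⌋₊ + 1) ^ Fintype.card ι

/-- JOB TY-SURJ.  Proof: `ψ` factors through an additive map `ψ'` from the domain `B = P t / q`.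
Multiplication by the nonzero image of `f` is an injective additive map `B → B`; since the circle
is a divisible group (instance `DivisibleBy (AddCircle p) ℤ`; `AddCommGrpCat.injective_of_divisible`
or `Module.Baer`), `ψ'` extends along it: there is `φ'` with `φ' (f b) = ψ' b`.  Take
`φ = φ' ∘ mk`. -/
def S_SURJ : Prop := ∀ (t : ℕ) (q : Ideal (P t)), q.IsPrime → ∀ f, f ∉ q →
  ∀ ψ : P t →+ UnitAddCircle, (∀ g ∈ q, ψ g = 0) →
  ∃ φ : P t →+ UnitAddCircle, (∀ g ∈ q, φ g = 0) ∧ ∀ h, φ (f * h) = ψ h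

/-- JOB TY-MAIN (from `S_SURJ`).  Proof: let `A` be the set for `q'` and `B` the set for `q`.  By
`S_SURJ` choose for every `b ∈ B` a character `b'` killing `q` with `b' (f h) = b h`.  Consider
the characters `a + b'`; they kill `q` (as `q ≤ q'`).  Let `(a, b) ≠ (c, d)`.  If `b ≠ d`, take `u`
of degree `≤ m` with `3 ε ≤ ‖b (x^u) - d (x^u)‖`; since `a` and `c` kill `f x^u ∈ q'`, the
difference `χ = (a + b') - (c + d')` satisfies `χ (f x^u) = b (x^u) - d (x^u)`, and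
`f x^u = ∑ coeff v f x^(u+v)`, so `3 ε ≤ ∑ |coeff v f| ‖χ (x^(u+v))‖`, and as `nrm f ≤ 3` some `v` in
the support has `‖χ (x^(u+v))‖ ≥ ε`; the degree of `u + v` is at most `m + 1`.  If `b = d` then
`a ≠ c` and `χ = a - c`.  So the `N N'` sums are pairwise apart (in particular distinct). -/
def S_MAIN : Prop := ∀ (t : ℕ) (q q' : Ideal (P t)) (f : P t), q.IsPrime → q ≤ q' → IsLin f →
  f ∉ q → f ∈ q' → ∀ (m : ℕ) (ε : ℝ), 0 < ε → ∀ N N', HasSep q' (m + 1) ε N →
  HasSep q m (3 * ε) N' → HasSep q (m + 1) ε (N * N')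

/-- JOB TY-LIN.  Uniform linearization.  Proof: Claim: there are finitely many pairs `(F i, e i)`
with `F i ∈ I`, `totalDegree (F i) ≤ e i`, such that for every `n` every `f ∈ I` of total degree
`≤ n` is a `ℤ`-linear combination of the `x^u F i` with `u.degree + e i ≤ n`.  (Proof of the claim:
in `A = MvPolynomial (Option (Fin t)) ℤ` let `J` be the set of all `G` such that for every `d` the
homogeneous component of degree `d` of `G`, with `x_none := 1`, is in `I`.  `J` is an ideal, so it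
is generated by finitely many elements, and then also by the finitely many homogeneous
components `H i` (of degree `e i`) of these (all these components are in `J`).  Let `F i` be `H i`
at `x_none = 1`.  If `f ∈ I` has total degree `≤ n`, the homogenization `f^h = ∑ coeff u f
x_none^(n - |u|) x^u` is homogeneous of degree `n` and in `J`; write `f^h = ∑ C i H i`, take the
component of degree `n` (so that `C i` may be replaced by its component of degree `n - e i`)
and put `x_none = 1`.)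
Let `ε₀ = 1 / (2 (1 + max nrm (F i)))`.  Given `φ` and `ε`, let `y u` be the representative of
`φ (x^u)` in `(-1/2, 1/2]`; then `|y u| = ‖φ (x^u)‖ < ε`.  For `u.degree + e i ≤ n` the real number
`∑ coeff v (F i) y (u + v)` is an integer (it represents `φ (x^u F i) = 0`) of absolute value
`≤ nrm (F i) ε < 1`, so it is zero.  By the claim `y` satisfies all relations of `I` in degree
`≤ n`. -/
def S_LIN : Prop := ∀ (t : ℕ) (I : Ideal (P t)), ∃ ε₀ : ℝ, 0 < ε₀ ∧ ∀ ε : ℝ, 0 < ε → ε ≤ ε₀ →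
  ∀ (n : ℕ) (φ : P t →+ UnitAddCircle), (∀ f ∈ I, φ f = 0) →
  (∀ u : Fin t →₀ ℕ, u.degree ≤ n → ‖φ (monomial u 1)‖ < ε) →
  ∃ y : (Fin t →₀ ℕ) → ℝ, (∀ u : Fin t →₀ ℕ, u.degree ≤ n →
    ((y u : ℝ) : UnitAddCircle) = φ (monomial u 1) ∧ |y u| < ε) ∧ Exact I n y

/-- JOB TY-VOL.  Proof: let `W` be the finite set of exponents of degree `≤ n` and `Y` the real
vector space of all `y : W → ℝ` satisfying the relations of `I` of degree `≤ n`.  `Y` is the dual of
`Md I n` (a function `y` on `W` is a linear form on the polynomials of degree `≤ n`, and it is in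
`Y` iff it vanishes on those in `I`), so `dim Y = k I n` (`Hom_ℤ (M, ℝ)` has dimension
`finrank ℤ M` for a finitely generated `M`).  The sup norm of `W → ℝ` restricted to `Y` makes `Y` a
normed space.  The restrictions to `W` of the elements of `A` have norm `≤ ρ` and pairwise
distance `≥ ε`; the open balls of radius `ε/2` around them are disjoint and contained in the ball
of radius `ρ + ε/2`; comparing Haar measures (`MeasureTheory.Measure.addHaar_ball`) gives
`|A| (ε/2)^dim ≤ (ρ + ε/2)^dim`. -/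
def S_VOL : Prop := ∀ (t : ℕ) (I : Ideal (P t)) (n : ℕ) (ρ ε : ℝ), 0 < ρ → 0 < ε →
  ∀ A : Finset ((Fin t →₀ ℕ) → ℝ),
  (∀ y ∈ A, Exact I n y ∧ ∀ u : Fin t →₀ ℕ, u.degree ≤ n → |y u| ≤ ρ) →
  (∀ y ∈ A, ∀ z ∈ A, y ≠ z → ∃ u : Fin t →₀ ℕ, u.degree ≤ n ∧ ε ≤ |y u - z u|) →
  (A.card : ℝ) ≤ (1 + 2 * ρ / ε) ^ k I n

/-- JOB TY-DIM.  Ranks.  (1) multiplication by `f` is injective from `Md q m` to `Md q (m + d)` and
its image is in the kernel of the surjection `Md q (m + d) → Md q' (m + d)`; rank is additive.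
(2) there are `(n + t).choose t` monomials of degree at most `n`.  (3), (4) monotonicity.
(5) the class of `1` has infinite order. -/
def S_DIM : Prop :=
  (∀ (t : ℕ) (q q' : Ideal (P t)) (f : P t) (d : ℕ), q.IsPrime → q ≤ q' → f.totalDegree ≤ d →
    f ∉ q → f ∈ q' → ∀ m, k q' (m + d) + k q m ≤ k q (m + d)) ∧
  (∀ (t : ℕ) (n : ℕ), k (⊥ : Ideal (P t)) n ≤ (n + t).choose t) ∧
  (∀ (t : ℕ) (I : Ideal (P t)) (n n' : ℕ), n ≤ n' → k I n ≤ k I n') ∧
  (∀ (t : ℕ) (I J : Ideal (P t)) (n : ℕ), I ≤ J → k J n ≤ k I n) ∧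
  (∀ (t : ℕ) (I : Ideal (P t)) (n : ℕ), (∀ z : ℤ, C z ∈ I → z = 0) → 1 ≤ k I n)

/-- JOB TY-TORP.  The primes `tor p V`.  `torHom p V` sends the monomial `c x^u` to
`single [u] (c p^u)`; the group algebra of the `ℚ`-vector space `ℚ^t / V` over `ℂ` is a domain
(`TwoUniqueSums` instance in `Mathlib/Algebra/Group/UniqueProds/VectorSpace.lean`).  (2) the
augmentation of the group algebra composed with `torHom p V` is the evaluation at `p`.  (3), (4)
the cases `V = ⊥` (different monomials have different classes) and `V = ⊤`.  (5) the projection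
`ℚ^t / V → ℚ^t / V'`.  (6) both monomials go to the same multiple of the same group element.
(7) different group elements with nonzero coefficients.  (8) clear. -/
def S_TORP : Prop := ∀ (t : ℕ) (p : Fin t → ℂ), (∀ i, p i ≠ 0) →
  (∀ V, (tor p V).IsPrime) ∧ (∀ V, tor p V ≤ mx p) ∧ tor p ⊥ = ⊥ ∧ tor p ⊤ = mx p ∧
  (∀ V V', V ≤ V' → tor p V ≤ tor p V') ∧
  (∀ (V : Submodule ℚ (Fin t → ℚ)) (u v : Fin t →₀ ℕ) (σ : ℤ), dif u v ∈ V →
    monomial u 1 - monomial v σ ∈ mx p → monomial u 1 - monomial v σ ∈ tor p V) ∧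
  (∀ (V : Submodule ℚ (Fin t → ℚ)) (u v : Fin t →₀ ℕ) (σ : ℤ), dif u v ∉ V →
    monomial u 1 - monomial v σ ∉ tor p V) ∧
  (∀ (V : Submodule ℚ (Fin t → ℚ)) (z : ℤ), C z ∈ tor p V → z = 0) ∧
  (∀ z : ℤ, C z ∈ mx p → z = 0)

/-- JOB TY-TORD (from `S_DIM`, `S_TORP`).  Proof: `Vsp F` is spanned by the vectors of the
binomials in `F`; choose binomials `f 1, ..., f a` of `F` whose vectors are a basis, and let `V i`
be the span of the first `i` vectors.  By `S_TORP` (6), (7), `f (i+1)` is in `tor p (V (i+1))` and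
not in `tor p (V i)`, and it has degree at most two, so by `S_DIM` (1) with `d = 2`,
`k' (m+2) + k (m) ≤ k (m+2)` where `k = k (tor p (V i))`, `k' = k (tor p (V (i+1)))`.  With
`k' 0 ≤ k 0`, `k' 1 ≤ k 1` this gives by induction `∑_{n ≤ N} k' n ≤ k N + k (N-1) ≤ 2 k N`.  Since
`tor p ⊥ = ⊥` has `k N ≤ (N+t).choose t`, iterate (`Sm` is monotone and linear). -/
def S_TORD : Prop := ∀ (t : ℕ) (p : Fin t → ℂ) (F : Set (P t)), (∀ i, p i ≠ 0) →
  (∀ f ∈ F, f ∈ mx p) → ∀ N : ℕ,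
  (Sm^[Module.finrank ℚ (Vsp F)] (fun n => (k (tor p (Vsp F)) n : ℝ))) N ≤
    2 ^ Module.finrank ℚ (Vsp F) * ((N + t).choose t : ℝ)

/-- JOB TY-TORC (from `S_BND`, `S_TORP`).  Proof: let `a = finrank V`, `V = Vsp F`, and let
`b 1, ..., b a` be vectors of binomials of `F` which form a basis of `V`, `L` the subgroup of `ℤ^t`
generated by them.  If `u - v ∈ 2 L` then `x^u - x^v ∈ tor p V`: indeed `p^(b i) = ± 1` gives
`p^u = p^v`, use `S_TORP` (6).  So `φ (x^u)` depends only on the class of `u` in `ℤ^t / 2 L`.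
The number of these classes which contain an exponent of degree `≤ n` is at most
`C (n+1)^(t-a)`: take a linear isomorphism `ℚ^t / V → ℚ^(t-a)` such that the images of the
standard unit vectors have integer coordinates of absolute value at most `D`; the image of `u`
has integer coordinates of absolute value `≤ D n`, this is at most `(2 D n + 1)^(t-a)` values, and
the exponents with one fixed value differ by elements of `ℤ^t ∩ V`, in which `2 L` has finite
index.  Apply `S_BND`. -/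
def S_TORC : Prop := ∀ (t : ℕ) (p : Fin t → ℂ) (F : Set (P t)), (∀ i, p i ≠ 0) →
  (∀ f ∈ F, f ∈ mx p) → ∀ ε : ℝ, 0 < ε → ∃ C : ℝ, ∀ n N : ℕ, HasSep (tor p (Vsp F)) n ε N →
  Real.log N ≤ C * ((n : ℝ) + 1) ^ (t - Module.finrank ℚ (Vsp F))

/-- JOB TY-HGT (from `S_TORP`).  Proof: induction on `t - finrank V`.  If `V = ⊤` nothing is to
prove.  Otherwise some standard unit vector `e j` is not in `V`; put `V' = V ⊔ ℚ e j`, of rank one
more.  `tor p V < tor p V'` strictly: let `h ∈ ℤ[X]` be nonzero with `h (p j) = 0`; then `h (x j)`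
is in `tor p V'` (its image is `h (p j [e j])` with `[e j] = 0`) and not in `tor p V` (there the
powers of `[e j]` are distinct and `p j ≠ 0`).  The height of `mx p / tor p V` is at least the
height of `mx p / tor p V'` plus one, because a chain of primes above `tor p V'` up to `mx p` can be
extended by `tor p V`. -/
def S_HGT : Prop := ∀ (t : ℕ) (p : Fin t → ℂ), (∀ i, p i ≠ 0) → (∀ i, IsAlgebraic ℚ (p i)) →
  ∀ V : Submodule ℚ (Fin t → ℚ), (t : ℕ∞) ≤
    ((mx p).map (Ideal.Quotient.mk (tor p V))).height + (Module.finrank ℚ V : ℕ∞)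

/-- JOB TY-KRULL.  Proof: in `B = R / p`, `m B` is prime and contains the image `g` of `f`;
`Ideal.height_le_height_add_one_of_mem` gives `height (m B) ≤ height (m (B / g)) + 1`.  Take a
chain of primes in `B / g` ending in `m (B / g)` of length its height (finite: Noetherian), let
`p'` be the preimage in `R` of its first prime; the chain gives a chain in `R / p'`, so
`height (m (B / g)) ≤ height (m (R / p'))`. -/
def S_KRULL : Prop := ∀ (R : Type) [CommRing R] [IsNoetherianRing R] (p m : Ideal R), p.IsPrime →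
  m.IsPrime → p ≤ m → ∀ f ∈ m, ∃ p' : Ideal R, p'.IsPrime ∧ p ≤ p' ∧ f ∈ p' ∧ p' ≤ m ∧
    (m.map (Ideal.Quotient.mk p)).height ≤ (m.map (Ideal.Quotient.mk p')).height + 1

/-- JOB TY-ALG.  Proof: let `I` be the ideal of `ℚ[x]` generated by `F`.  For every `i` the complex
polynomial `∏_{z ∈ Zer F} (X i - z i)` vanishes on the zeros of `F`, so by the Nullstellensatz
over `ℂ` (`MvPolynomial.vanishingIdeal_zeroLocus_eq_radical`) a power `G` of it is a combination
`∑ c_k f_k`, `f_k ∈ F`, `c_k ∈ ℂ[x]`.  Let `λ : ℂ → ℚ` be `ℚ`-linear with `λ 1 = 1`, applied to the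
coefficients: it is `ℚ[x]`-linear, so `λ G = ∑ λ(c_k) f_k ∈ I`, and `λ G` is a monic polynomial in
`X i` alone.  So some nonzero `h_i ∈ ℤ[X]` has `h_i (X i)` in the ideal of `P t` generated by `F`.
First claim: `h_i (p i) = 0`.  Second claim: let `q` be prime, `F ⊆ q ≤ mx p` and suppose
`g ∈ mx p`, `g ∉ q`.  In the domain `B = P t / q` all `x i` are algebraic over `ℤ` (and `ℤ ⊆ B`
since `C z ∈ q ≤ mx p` implies `z = 0`), so the class of `g` is algebraic: it satisfies an equation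
over `ℤ` with nonzero constant term `c` (divide by powers of `g`), hence `C c ∈ q + (g) ≤ mx p`,
so `c = 0`, a contradiction. -/
def S_ALG : Prop := ∀ (t : ℕ) (F : Set (P t)), (Zer F).Finite → ∀ p ∈ Zer F,
  (∀ i, IsAlgebraic ℚ (p i)) ∧
  ∀ q : Ideal (P t), q.IsPrime → (∀ f ∈ F, f ∈ q) → q ≤ mx p → q = mx p

/-- JOB TY-LOWR.  Proof: write `θ = p m` (real, `|θ| > 1`).  For real `z` the map
`χ_z : f ↦ z f(p)` modulo one is a character killing `mx p`.  Let `ε₁ = 1 / (2 |θ|) ≤ 1/2`,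
`ε ≤ ε₁`, and take `z_j = j ε / |θ|^n` for the natural numbers `j ≤ |θ|^n / (2 ε)`; these are at
least `|θ|^n` values.  For `j ≠ l`, `δ = |z_j - z_l| ∈ [ε / |θ|^n, 1/2]`.  Let `i ≤ n` be maximal
with `δ |θ|^i ≤ 1/2`.  Then `‖χ_{z_j} (x_m^i) - χ_{z_l} (x_m^i)‖ = δ |θ|^i`, which is `≥ ε` if
`i = n`, and `> 1 / (2 |θ|) ≥ ε` if `i < n`. -/
def S_LOWR : Prop := ∀ (t : ℕ) (p : Fin t → ℂ) (m : Fin t), (∀ i, (p i).im = 0) → 1 < ‖p m‖ →
  ∃ ε₁ : ℝ, 0 < ε₁ ∧ ∀ ε, 0 < ε → ε ≤ ε₁ → ∀ n : ℕ, ∃ N : ℕ, ‖p m‖ ^ n ≤ N ∧ HasSep (mx p) n ε N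

/-- JOB TY-LOWC.  Proof: write `θ = p m`, and let `p l` be not real.  For complex `z` the map
`χ_z : f ↦ Re (z f(p))` modulo one is a character killing `mx p`.  Let `K = max 1 |p l|`; there is
`c₀ ∈ (0, 1]` with `max (|Re w|) (|Re (w p l)|) ≥ c₀ |w|` for all complex `w` (as `1` and `p l` are
linearly independent over `ℝ`).  Let `n ≥ 1`, `N = n - 1`.  Take for `z` the points
`(j + j' i) η`, `η = ε |θ|^(-N) / c₀`, `0 ≤ j, j' ≤ J`, where `J` is the integer part of
`1 / (4 K η)`.  For two different ones let `δ` be the difference; `η ≤ |δ| ≤ 1 / (2 K)`.  Let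
`i ≤ N` be maximal with `|δ θ^i| ≤ 1 / (2 K)`, and let `w = δ θ^i`.  The differences of the two
characters at `x_m^i` and at `x_m^i x_l` are `Re w` and `Re (w p l)`, both of absolute value
`≤ 1/2`, and one of them is `≥ c₀ |w|` in absolute value, which is `≥ ε` if `i = N`, and
`≥ c₀ / (2 K |θ|) ≥ ε` if `i < N` and `ε ≤ ε₁`.  The number of points is
`(J + 1)^2 ≥ (c₀ |θ|^N / (4 K ε))^2 ≥ c |θ|^(2 n)`. -/
def S_LOWC : Prop := ∀ (t : ℕ) (p : Fin t → ℂ) (m : Fin t), (∃ i, (p i).im ≠ 0) → 1 < ‖p m‖ →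
  ∃ ε₁ : ℝ, 0 < ε₁ ∧ ∃ c : ℝ, 0 < c ∧ ∀ ε, 0 < ε → ε ≤ ε₁ → ∀ n : ℕ, ∃ N : ℕ,
    c * ‖p m‖ ^ (2 * n) ≤ N ∧ HasSep (mx p) n ε N

/-- JOB TY-ASTEP (from `S_BND`, `S_MAIN`, `S_LIN`, `S_VOL`, `S_DIM`).  Proof: by `S_BND` (with `cl`
injective on the exponents of degree `≤ n`) the set `{N | HasSep I n ε N}` is bounded, so
`HasSep I n ε (Sp I n ε)`, and `Sp I n ε ≥ 1` (the zero character); `Sp` is monotone in `n` and
antitone in `ε`.  Let `ε₁` be the number of `S_LIN` for `I = q`, `ε₀ ≤ ε₁`, `K ≥ 1`,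
`ε = ε₀ / 3^K`, `A n = log (Sp q n ε₀)`, `A' n = log (Sp q' n ε₀)`.
(a) For `n ≥ K`: `Sp q n ε ≥ (∏_{i < K} Sp q' (n - i) ε₀) * Sp q (n - K) ε₀`: apply `S_MAIN` with
`ε, 3 ε, 9 ε, ...` (`K` times) and `Sp q' (n - i) (3^i ε) ≥ Sp q' (n - i) ε₀`.
(b) `Sp q n ε ≤ Sp q n ε₀ * (1 + 2 * 3^K)^(k q n)`: take a maximal set `B` of characters killing `q`
pairwise `ε₀`-apart in degree `≤ n`; for a set `D` of pairwise `ε`-apart ones every `φ ∈ D` has a
`b ∈ B` not `ε₀`-apart from it; for a fixed `b` the characters `φ - b` are linearized by `S_LIN`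
(their norms at the monomials are `< ε₀`), the functions `y` are exact, `|y| ≤ ε₀`, and pairwise
`|y_φ u - y_ψ u| ≥ ‖φ (x^u) - ψ (x^u)‖ ≥ ε` for some `u`; by `S_VOL` there are at most
`(1 + 2 ε₀ / ε)^(k q n)` of them.
So `∑_{i<K} A' (n-i) + A (n-K) ≤ A n + log (1 + 2 * 3^K) * k q n` for `n ≥ K`.  Sum over
`n = K, ..., N + K`: the left side is at least `K ∑_{l=K}^{N} A' l + ∑_{n=0}^{N} A n`, and
`∑_{n=K}^{N+K} A n - ∑_{n=0}^{N} A n ≤ K A (N+K)`; divide by `K` and put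
`C = ∑_{l<K} A' l`. -/
def S_ASTEP : Prop := ∀ (t : ℕ) (q q' : Ideal (P t)) (f : P t), q.IsPrime → q ≤ q' → IsLin f →
  f ∉ q → f ∈ q' → ∃ ε₁ : ℝ, 0 < ε₁ ∧ ∀ ε₀, 0 < ε₀ → ε₀ ≤ ε₁ → ∀ K : ℕ, 1 ≤ K → ∃ C : ℝ, ∀ N : ℕ,
    Sm (fun n => Real.log (Sp q' n ε₀)) N ≤ Real.log (Sp q (N + K) ε₀) +
      Real.log (1 + 2 * 3 ^ K) / K * Sm (fun n => (k q n : ℝ)) (N + K) + C

/-- JOB TY-GRO (from `S_ASTEP`, `S_DIM`).  Proof: induction on the chain.  For `refl` it is an
equality.  For a step from `q'` to `q`: from `S_DIM` (1) with `d = 1` and (4),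
`Sm (k q') N ≤ k q N`.  Apply `Sm` (monotone, and `Sm (fun n => G (n + c)) N ≤ Sm G (N + c)` for
`G ≥ 0`) to the inequality for `q'`, then `S_ASTEP` at `N + s K` for the first term, and
`Sm (Sm (k q')) M ≤ Sm (k q) M ≤ Sm (k q) (M + K)` for the second;
`Sm (fun n => C (n+1)^s) N ≤ C (N+1)^(s+1)`. -/
def S_GRO : Prop := ∀ (t : ℕ) (F : Set (P t)) (m : Ideal (P t)) (s : ℕ) (q : Ideal (P t)),
  Ch F m s q → ∃ ε₁ : ℝ, 0 < ε₁ ∧ ∀ ε₀, 0 < ε₀ → ε₀ ≤ ε₁ → ∀ K : ℕ, 1 ≤ K →
  ∃ C : ℝ, 0 ≤ C ∧ ∀ N : ℕ, (Sm^[s] (fun n => Real.log (Sp m n ε₀))) N ≤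
    Real.log (Sp q (N + s * K) ε₀) +
      s * (Real.log (1 + 2 * 3 ^ K) / K) * Sm (fun n => (k q n : ℝ)) (N + s * K) +
      C * ((N : ℝ) + 1) ^ s

/-- JOB TY-EX (from `S_TORP`, `S_KRULL`, `S_ALG`).  Proof: Noetherian induction on `q` (larger
ideals first).  If `q = mx p` take `s = 0` (the height of the zero ideal of a domain is zero).
Otherwise by `S_ALG` some `f ∈ F` is not in `q`; it is not a binomial (by `S_TORP` (6) all binomials
of `F` are in `tor p (Vsp F) ≤ q`), so `IsLin f`.  `f ∈ mx p` as `p ∈ Zer F`.  Take `p'` from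
`S_KRULL` for `q`, `mx p`, `f`, and the chain for `p'`. -/
def S_EX : Prop := ∀ (t : ℕ) (F : Set (P t)), (Zer F).Finite →
  (∀ f ∈ F, (∃ w, IsBin f w) ∨ IsLin f) → ∀ p ∈ Zer F, (∀ i, p i ≠ 0) →
  ∀ q : Ideal (P t), q.IsPrime → tor p (Vsp F) ≤ q → q ≤ mx p →
  ∃ s : ℕ, Ch F (mx p) s q ∧ ((mx p).map (Ideal.Quotient.mk q)).height ≤ (s : ℕ∞)

/-- JOB TY-LIM.  Proof: divide by `N^(t+1) / (t+1)!` and let `N → ∞` (the last term is
`o(N^(t+1))`, and `(N + M + t + 1).choose (t+1) ~ N^(t+1) / (t+1)!`): for every `K ≥ 1`,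
`T ≤ (s log (1 + 2 * 3^K) / K + c) 2^a`.  Then `K → ∞`. -/
def S_LIM : Prop := ∀ (t a s : ℕ) (T c : ℝ),
  (∀ K : ℕ, 1 ≤ K → ∃ (C : ℝ) (M : ℕ), ∀ N : ℕ, T * ((N + t).choose (t + 1) : ℝ) ≤
    (s * (Real.log (1 + 2 * 3 ^ K) / K) + c) * 2 ^ a * ((N + M + t + 1).choose (t + 1) : ℝ) +
      C * ((N : ℝ) + 1) ^ t * Real.log ((N : ℝ) + 3)) →
  T ≤ (s * Real.log 3 + c) * 2 ^ a

end Pool.Agent.Q6.TY
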