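import Pool.Agent.Q6.TY.Stm

set_option autoImplicit false

/-!
# Project TY: the statements of the second and third part
-/

namespace Pool.Agent.Q6.TY

open MvPolynomial

/-- JOB TY-HAD.  Number of separated points in the kernel of an integer matrix on a torus.
Proof: let `ρ = card W'`, `κ = card W - ρ`.  Choose a set `J` of `ρ` columns for which the minor
`R_J` has the largest absolute value; it is nonzero, and by Hadamard's inequality (for instance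
`Orientation.abs_volumeForm_apply_le`) `|det R_J| ≤ (√3)^ρ`.  By Cramer's rule and the maximality
all entries of `R_J⁻¹ R_{Jᶜ}` have absolute value at most one.  Let `δ' = δ / (κ ρ)` (`δ' = δ` if
`κ ρ = 0`) and let `B` be the open box in the torus `(ℝ/ℤ)^W` with `‖x w‖ < δ/2` for `w ∈ J` and
`‖x w‖ < δ'/2` for `w ∉ J`.  The translates `a + B`, `a ∈ A`, are pairwise disjoint and `R` sends all
of them to `R B`.  The homomorphism `R : (ℝ/ℤ)^W → (ℝ/ℤ)^ρ` is surjective, hence preserves the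
normalized Haar measures, so `|A| δ^ρ δ'^κ ≤ vol (R B)`.  Now `R B` is contained in the image of
`R_J` applied to the box of all real `y` with `|y_j| < δ/2 + κ δ'/2`, so
`vol (R B) ≤ |det R_J| (δ + κ δ')^ρ ≤ |det R_J| δ^ρ (1 + 1/ρ)^ρ ≤ e |det R_J| δ^ρ`.  So
`|A| ≤ e (√3)^ρ (κ ρ / δ)^κ`.  (One may also count without measures: `A` lifts to real vectors.) -/
def S_HAD : Prop := ∀ (W W' : Type) [Fintype W] [DecidableEq W] [Fintype W'] (R : Matrix W' W ℤ),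
  LinearIndependent ℚ (fun g : W' => fun w : W => (R g w : ℚ)) → (∀ g, ∑ w, (R g w) ^ 2 ≤ 3) →
  ∀ δ : ℝ, 0 < δ → δ ≤ 1 / 2 → ∀ A : Finset (W → UnitAddCircle),
  (∀ x ∈ A, ∀ g, ∑ w, R g w • x w = 0) →
  (∀ x ∈ A, ∀ y ∈ A, x ≠ y → ∃ w, δ ≤ ‖x w - y w‖) →
  (A.card : ℝ) ≤ Real.exp 1 * Real.sqrt 3 ^ Fintype.card W' *
    ((Fintype.card W : ℝ) ^ 2 / δ) ^ (Fintype.card W - Fintype.card W')

/-- JOB TY-HADA (from `S_HAD`, `S_TORP`).  Proof: let `V = Vsp F`.  Every binomial `x^u - σ x^v` of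
`F` vanishes at the positive point `p`, so `σ = 1` and `∑ (u i - v i) log (x i) = 0`; hence
`∑ w i log (x i) = 0` for all `w ∈ V`, and `p^u = p^v` whenever `dif u v ∈ V`.  So by `S_TORP` (6)
the class of `x^u` in `P t / tor p V` depends only on the class of `u` in `ℚ^t / V`, and monomials
with different classes are linearly independent there (they go to multiples of different group
elements).  Let `W` be the set of the classes of the exponents of degree `≤ n + 1`, `W'` the same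
for `n`; then `card W = k (tor p V) (n+1)` and `card W' = k (tor p V) n`.  A character `φ` killing
`q'` defines `x_φ : W → ℝ/ℤ` by `x_φ [u] = φ (x^u)`, and `φ (x^u (x^a + x^b - x^c)) = 0` for
`u.degree ≤ n` gives `x_φ ([a]+g) + x_φ ([b]+g) - x_φ ([c]+g) = 0` for `g ∈ W'`.  The three places
are different, so the rows have square sum `3`; the rows are independent because the group
algebra `ℚ[ℚ^t / V]` is a domain.  Apply `S_HAD` to the `x_φ`, `φ` in the separated set. -/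
def S_HADA : Prop := ∀ (t : ℕ) (p : Fin t → ℂ) (x : Fin t → ℝ) (F : Set (P t)), (∀ i, 0 < x i) →
  (∀ i, p i = x i) → (∀ f ∈ F, f ∈ mx p) → ∀ a b c : Fin t →₀ ℕ, a.degree ≤ 1 → b.degree ≤ 1 →
  c.degree ≤ 1 → dif a b ∉ Vsp F → dif a c ∉ Vsp F → dif b c ∉ Vsp F →
  ∀ q' : Ideal (P t), tor p (Vsp F) ≤ q' → monomial a 1 + monomial b 1 - monomial c 1 ∈ q' →
  ∀ δ : ℝ, 0 < δ → δ ≤ 1 / 2 → ∀ n N : ℕ, HasSep q' (n + 1) δ N →
  (N : ℝ) ≤ Real.exp 1 * Real.sqrt 3 ^ k (tor p (Vsp F)) n *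
    ((k (tor p (Vsp F)) (n + 1) : ℝ) ^ 2 / δ) ^
      (k (tor p (Vsp F)) (n + 1) - k (tor p (Vsp F)) n)

/-- JOB TY-SPAN.  Proof: let `a = finrank (VM M)`, `r = t - a`; choose `a` of the vectors
`ex i + ex j - ex k` of `M` which form a basis of `VM M`, and `r` vectors `d_1, ..., d_r` of
`Dset E p` completing them to a basis of `ℚ^t`.  Let `N` be the `t × t` matrix with these rows.
`lg p` vanishes on the first `a` rows, and `0 < lg p (d_j) ≤ log 2`, because for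
`vl p k = vl p i + vl p j` with `vl p j ≤ vl p i` the quotient `vl p k / vl p i` is in `(1, 2]`
(note `lg p (ex o) = log (vl p o)`).  Let `N_j` be `N` with the row `d_j` replaced by the unit vector
`e_m`.  Cramer's rule: `det N * log (p m) = ∑_j det N_j * lg p (d_j)`.  `det N` is a nonzero integer.
`|det N_j| ≤ 2^a` by `Q6.Add.det_le_prod` (file Pool/Agent/Q6/Add/Short.lean): the rows of
`M` are twice a `Short` vector, the others are `Short`. -/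
def S_SPAN : Prop := ∀ (t : ℕ) (M E : Set (O t × O t × O t)) (p : Fin t → ℝ), (∀ i, 0 < p i) →
  p ∈ Sol ℝ M E → VM M ⊔ Submodule.span ℚ (Dset E p) = ⊤ → ∀ m, |Real.log (p m)| ≤
    ((t : ℝ) - Module.finrank ℚ (VM M)) * 2 ^ Module.finrank ℚ (VM M) * Real.log 2

/-- JOB TY-INF1.  Proof: there is a nonzero integer vector `λ` orthogonal to `U`.  For real `s > 0`
put `q_s i = s ^ λ i * q i`.  Then `vl q_s o = s ^ ⟨λ, ex o⟩ * vl q o`; the exponents on both sides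
of every equation of `M` agree, and the three exponents of an equation of `E` are equal.  So
`q_s` is a solution, and these are infinitely many. -/
def S_INF1 : Prop := ∀ (t : ℕ) (M E : Set (O t × O t × O t)) (q : Fin t → ℂ), (∀ i, q i ≠ 0) →
  q ∈ Sol ℂ M E → ∀ U : Submodule ℚ (Fin t → ℚ), U ≠ ⊤ → VM M ≤ U →
  (∀ x ∈ E, ex x.2.2 - ex x.1 ∈ U ∧ ex x.2.2 - ex x.2.1 ∈ U) → (Sol ℂ M E).Infinite

/-- JOB TY-INF2.  Proof: choose rational vectors `λ`, `μ` orthogonal to `VM M` with `⟨λ, d⟩ = 1`,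
`⟨λ, e⟩ = 0`, `⟨μ, d⟩ = 0`, `⟨μ, e⟩ = 1`.  Let `x = lg p d > 0`, `y = lg p e`.  For every real `α > 0`
let `β = - y - log (1 - exp (- x - α))` and `q i = p i * exp (α λ i + β μ i)`.  Then
`vl q o = vl p o * exp (α ⟨λ, ex o⟩ + β ⟨μ, ex o⟩)`, so the equations of `M` hold, and for an
equation `(i, j, k)` of `E` the quotients `vl q i / vl q k` and `vl q j / vl q k` are
`exp (- x - α)` and `exp (- y - β)` in some order (`lg p` vanishes on `VM M`), with sum one.  Different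
`α` give different `q` since `∑ d i log (q i / p i) = α`. -/
def S_INF2 : Prop := ∀ (t : ℕ) (M E : Set (O t × O t × O t)) (p : Fin t → ℝ), (∀ i, 0 < p i) →
  p ∈ Sol ℝ M E → ∀ d e : Fin t → ℚ,
  (∀ α β : ℚ, α • d + β • e ∈ VM M → α = 0 ∧ β = 0) →
  Real.exp (-(lg p d)) + Real.exp (-(lg p e)) = 1 →
  (∀ x ∈ E, (ex x.2.2 - ex x.1 - d ∈ VM M ∧ ex x.2.2 - ex x.2.1 - e ∈ VM M) ∨
    (ex x.2.2 - ex x.1 - e ∈ VM M ∧ ex x.2.2 - ex x.2.1 - d ∈ VM M)) → (Sol ℂ M E).Infinite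

/-- JOB TY-R2N.  A statement on real numbers.  Proof: by symmetry let `x1 ≥ x2` (exchange the
indices `1` and `2`: `d11 ↔ d22`, `d12 ↔ d21`, `κ ↔ -κ`; `d11 ≠ 0 ∨ d12 ≠ 0` is the same for the
other pair).  Facts (F1) for `0 < b < a ≤ log 2` and `y(x) = - log (1 - exp (-x))`:
`log 2 * log (a/b) ≤ y(b) - y(a) ≤ log (a/b)` (as `- y'(s) = 1 / (exp s - 1)` and
`s ≤ exp s - 1 ≤ s / log 2` on `[0, log 2]`, by convexity).  (F2) `y(x) ≤ log (2 log 2 / x)` for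
`0 < x ≤ log 2` (as `1 - exp (-x) ≥ x / (2 log 2)` by concavity).
If `x1 = x2`: then `y1 = y2`, so by hypothesis `d11 ≠ d12`, and
`(d12 - d11) U = (A2 - A1) x1` gives `|U| ≤ 2 D log 2`.
If `x1 > x2`: by `d11 ≠ 0 ∨ d12 ≠ 0` and `d1j x2 = d2j x1` the quotient `x1 / x2` is a rational
number `α / β > 1` in lowest terms, `α ≥ 2`, and `α` divides `d11` and `d12`.
Case `d11 ≠ d12`: `(d12 - d11) U = (A2 - A1) x1 - r1 (y2 - y1)`, `|d12 - d11| ≥ α`,
`0 ≤ y2 - y1 ≤ log (α / β) ≤ log α`, so `|U| ≤ D (2 log 2 + log α) / α ≤ 2 D log 2`, since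
`log α ≤ 2 (α - 1) log 2`.
Case `d11 = d12 = d`: `d ≠ 0`, `|d| ≥ α`.  If `r1 = 0` then `|U| = |A1 x1 / d| ≤ D log 2`.  Otherwise put
`ρ = |r1| / D`, `0 < ρ ≤ 1`.  From `κ x1 = d (y1 - y2)` and `r1 κ = (A1 - A2) d`:
`|r1| |d| (y2 - y1) = |r1| |κ| x1 ≤ 2 D |d| x1`, so `x1 ≥ ρ (y2 - y1) / 2 ≥ ρ log 2 log (α/β) / 2
≥ ρ log 2 / (2 α)` (as `log (α/β) ≥ log (α/(α-1)) ≥ 1/α`).  So `y1 ≤ log (4 α / ρ)` by (F2), and
`|U| = |A1 x1 - r1 y1| / |d| ≤ D (log 2 + ρ log (4 α / ρ)) / α ≤ D (log 2 + log (4 α)) / α`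
(`ρ ↦ ρ log (4 α / ρ)` is increasing on `(0, 1]`) `= D log (8 α) / α ≤ 2 D log 2` as
`8 α ≤ 4 ^ α` for `α ≥ 2`. -/
def S_R2N : Prop := ∀ (D U x1 x2 y1 y2 : ℝ) (r1 r2 d11 d12 d21 d22 A1 A2 κ : ℤ), 0 < D →
  |(r1 : ℝ)| ≤ D → |(r2 : ℝ)| ≤ D → |(A1 : ℝ)| ≤ D → |(A2 : ℝ)| ≤ D →
  0 < x1 → x1 ≤ Real.log 2 → 0 < x2 → x2 ≤ Real.log 2 →
  Real.exp (-x1) + Real.exp (-y1) = 1 → Real.exp (-x2) + Real.exp (-y2) = 1 →
  (r1 : ℝ) * x2 = r2 * x1 → (d11 : ℝ) * x2 = d21 * x1 → (d12 : ℝ) * x2 = d22 * x1 →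
  (d11 : ℝ) * U = A1 * x1 - r1 * y1 → (d12 : ℝ) * U = A2 * x1 - r1 * y2 →
  (d21 : ℝ) * U = A1 * x2 - r2 * y1 → (d22 : ℝ) * U = A2 * x2 - r2 * y2 →
  (κ : ℝ) * x1 = d12 * y1 - d11 * y2 → (κ : ℝ) * x2 = d22 * y1 - d21 * y2 →
  r1 * κ = A1 * d12 - A2 * d11 → r2 * κ = A1 * d22 - A2 * d21 →
  (d11 ≠ 0 ∨ d12 ≠ 0) → ¬ (x1 = x2 ∧ d11 = d12) → |U| ≤ 2 * D * Real.log 2

/-- JOB TY-POS2 (from `S_SPAN`, `S_INF1`, `S_INF2`, `S_R2N`).  Proof: let `V = VM M`,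
`a = finrank V = t - 2`.  For an equation `f = (i, j, k)` of `E` (with `vl p j ≤ vl p i`; else
exchange `i` and `j`) let `d_f = ex k - ex i`, `e_f = ex k - ex j`, `x_f = lg p d_f ∈ (0, log 2]`,
`y_f = lg p e_f`; `exp (-x_f) + exp (-y_f) = 1`.  Let `Dl = V ⊔ span {d_f}`.  If `Dl = ⊤` use
`S_SPAN`.  Let `Dl ≠ ⊤`.  `E` is not empty (else `S_INF1` with `U = V`), and `lg p` vanishes on `V`
and not on `d_f`, so `Dl` has rank `t - 1` and `Dl = V ⊔ ℚ d_f` for every `f`.  By `S_INF1` with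
`U = Dl` some `e_g` is not in `Dl`.  Choose `a` vectors `b_1, ..., b_a` of `M` forming a basis of `V`
and for integer vectors `v, w` let `ω (v, w)` be the determinant with the rows
`b_1, ..., b_a, v, w`.  It is an alternating integer valued form, `ω (v, w) = 0` iff `v, w` are
dependent modulo `V`, and `ω (v, w) lg p z = ω (z, w) lg p v + ω (v, z) lg p w` (as `ℚ^t / V` has
rank two and `lg p` is defined on it), similarly with any linear form instead of `lg p` (for instance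
`ω (·, z')`: the Plücker relation).  `|ω (v, w)| ≤ 2^a =: D` if `v`, `w` are `Short`
(`Q6.Add.det_le_prod`), in particular for `v, w` among `e_m`, `d_f`, `e_f`.
Let `g` be as above, `d_{gg} = ω (d_g, e_g) ≠ 0`.  Suppose some `f ∈ E` has not
(`x_f = x_g` and `ω (d_g, e_f) = ω (d_g, e_g)`).  Apply `S_R2N` with index `1` for `g` and `2` for
`f`: `U = log (p m)`, `r_i = ω (e_m, d_i)`, `d_{ij} = ω (d_i, e_j)`, `A_j = ω (e_m, e_j)`,
`κ = ω (e_1, e_2)`; `ω (d_1, d_2) = 0`.  Otherwise all `f ∈ E` have `x_f = x_g`, so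
`d_f - d_g ∈ Dl` is killed by `lg p`, so is in `V`; and `ω (d_g, e_f - e_g) = 0`, so
`e_f - e_g ∈ Dl` and `lg p` kills it (`y_f = y_g`), so it is in `V`.  Now `S_INF2` with `d = d_g`,
`e = e_g` contradicts the finiteness. -/
def S_POS2 : Prop := ∀ (t : ℕ) (M E : Set (O t × O t × O t)) (p : Fin t → ℝ), (∀ i, 0 < p i) →
  p ∈ Sol ℝ M E → (Sol ℂ M E).Finite → Module.finrank ℚ (VM M) + 2 = t →
  ∀ m, |Real.log (p m)| ≤ 2 * 2 ^ Module.finrank ℚ (VM M) * Real.log 2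

/-- JOB TY-SMI.  Calculus of the summation operator.  (1) monotone, (2) linear, (3) shift for
nonnegative functions, (4) hockey stick, (5) powers (induction on `j`, each sum has `N + 1` terms),
(6) `Sm^[j] (fun n => n)` is `(N + j).choose (j + 1)`. -/
def S_SMI : Prop :=
  (∀ (F G : ℕ → ℝ) (j : ℕ), (∀ n, F n ≤ G n) → ∀ N, (Sm^[j] F) N ≤ (Sm^[j] G) N) ∧
  (∀ (F G : ℕ → ℝ) (a b : ℝ) (j : ℕ) (N : ℕ),
    (Sm^[j] (fun n => a * F n + b * G n)) N = a * (Sm^[j] F) N + b * (Sm^[j] G) N) ∧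
  (∀ (F : ℕ → ℝ) (j c : ℕ), (∀ n, 0 ≤ F n) → ∀ N,
    (Sm^[j] (fun n => F (n + c))) N ≤ (Sm^[j] F) (N + c)) ∧
  (∀ (t j N : ℕ), (Sm^[j] (fun n => ((n + t).choose t : ℝ))) N = ((N + t + j).choose (t + j) : ℝ)) ∧
  (∀ (e j N : ℕ), (Sm^[j] (fun n => ((n : ℝ) + 1) ^ e)) N ≤ ((N : ℝ) + 1) ^ (e + j)) ∧
  (∀ (j N : ℕ), (Sm^[j] (fun n => (n : ℝ))) N = ((N + j).choose (j + 1) : ℝ))

end Pool.Agent.Q6.TY
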