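import Pool.Agent.Q6.TY.Red

set_option autoImplicit false
set_option maxHeartbeats 400000

/-!
# Project TY: solutions with a zero coordinate, and the final bound
-/

namespace Pool.Agent.Q6.TY

open MvPolynomial

theorem isLin_gen {t : ℕ} (o1 o2 o3 : O t) (c1 c2 c3 : ℤ) (h1 : |c1| ≤ 1) (h2 : |c2| ≤ 1)
    (h3 : |c3| ≤ 1) :
    IsLin (monomial (eN o1) c1 + monomial (eN o2) c2 - monomial (eN o3) c3 : P t) := by
  have hd : ∀ (o : O t) (c : ℤ), (monomial (eN o) c).totalDegree ≤ 1 := fun o c => by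
    refine (totalDegree_monomial_le _ _).trans ?_
    have := degree_eN o
    rwa [Finsupp.degree_eq_sum, ← Finsupp.sum_fintype _ (fun _ e => e) (fun _ => rfl)] at this
  refine ⟨?_, ?_⟩
  · refine (totalDegree_sub _ _).trans (max_le ?_ (hd _ _))
    exact (totalDegree_add _ _).trans (max_le (hd _ _) (hd _ _))
  · classical
    unfold nrm
    set f := (monomial (eN o1) c1 + monomial (eN o2) c2 - monomial (eN o3) c3 : P t)
    have h1 : ∀ u, |coeff u f| ≤ (if eN o1 = u then (1 : ℤ) else 0) +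
        (if eN o2 = u then (1 : ℤ) else 0) + (if eN o3 = u then (1 : ℤ) else 0) := by
      intro u
      have g1 : |if eN o1 = u then c1 else 0| ≤ (if eN o1 = u then (1 : ℤ) else 0) := by
        split_ifs <;> simp [h1]
      have g2 : |if eN o2 = u then c2 else 0| ≤ (if eN o2 = u then (1 : ℤ) else 0) := by
        split_ifs <;> simp [h2]
      have g3 : |if eN o3 = u then c3 else 0| ≤ (if eN o3 = u then (1 : ℤ) else 0) := by
        split_ifs <;> simp [h3]
      simp only [f, coeff_sub, coeff_add, coeff_monomial]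
      refine (abs_sub _ _).trans ?_
      have := abs_add_le (if eN o1 = u then c1 else 0) (if eN o2 = u then c2 else 0)
      linarith
    refine (Finset.sum_le_sum fun u _ => h1 u).trans ?_
    rw [Finset.sum_add_distrib, Finset.sum_add_distrib]
    have h2 : ∀ a : Fin t →₀ ℕ, ∑ u ∈ f.support, (if a = u then (1 : ℤ) else 0) ≤ 1 := by
      intro a
      rw [Finset.sum_ite_eq]
      split_ifs <;> norm_num
    have := h2 (eN o1)
    have := h2 (eN o2)
    have := h2 (eN o3)
    linarith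

theorem pow_aux2 (a r : ℕ) (h : 1 ≤ a + r) : r * 2 ^ a ≤ 2 ^ (a + r - 1) := by
  cases r with
  | zero => simp
  | succ r =>
    rw [show a + (r + 1) - 1 = r + a by omega, pow_add]
    exact Nat.mul_le_mul_right _ Nat.lt_two_pow_self

/-- The bound for solutions with a zero coordinate. -/
theorem zero_case (hCT : S_CT) {t : ℕ} {M E : Set (O t × O t × O t)} {p : Fin t → ℂ}
    {i₀ : Fin t} (hz : p i₀ = 0) (hs : p ∈ Sol ℂ M E) (hfin : (Sol ℂ M E).Finite) (m : Fin t)
    (hm : 1 < ‖p m‖) : Real.log ‖p m‖ ≤ 2 ^ (t - 1) * Real.log 2 := by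
  classical
  have hm0 : p m ≠ 0 := fun h => by rw [h, norm_zero] at hm; linarith
  set t' := Fintype.card {i : Fin t // p i ≠ 0} with ht'
  let ι : {i : Fin t // p i ≠ 0} ≃ Fin t' := Fintype.equivFin _
  let π : P t →ₐ[ℤ] P t' := aeval (fun i => if h : p i ≠ 0 then X (ι ⟨i, h⟩) else 0)
  let up : (Fin t' → ℂ) → (Fin t → ℂ) := fun q i => if h : p i ≠ 0 then q (ι ⟨i, h⟩) else 0
  have hev : ∀ (q : Fin t' → ℂ) (f : P t), evh q (π f) = evh (up q) f := by
    intro q f
    have h1 : (aeval q : P t' →ₐ[ℤ] ℂ).comp π = aeval (up q) := by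
      refine MvPolynomial.algHom_ext fun i => ?_
      simp only [AlgHom.comp_apply, π, up, aeval_X]
      split_ifs with h
      · rw [aeval_X]
      · rw [map_zero]
    exact DFunLike.congr_fun h1 f
  have hZ : Zer (sysF M E) = Sol ℂ M E := zer_sysF M E
  have hup : Function.Injective up := by
    intro q q' h
    funext j
    have h1 := congrFun h (ι.symm j).1
    simp only [up, dif_pos (ι.symm j).2, Subtype.coe_eta, Equiv.apply_symm_apply] at h1
    exact h1
  have hZF : ∀ q, q ∈ Zer (π '' sysF M E) ↔ up q ∈ Zer (sysF M E) := by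
    intro q
    constructor
    · intro h f hf
      rw [← hev]; exact h _ ⟨f, hf, rfl⟩
    · rintro h _ ⟨f, hf, rfl⟩
      rw [hev]; exact h f hf
  have hfin' : (Zer (π '' sysF M E)).Finite := by
    refine ((hZ ▸ hfin : (Zer (sysF M E)).Finite).preimage (hup.injOn (s := _))).subset ?_
    intro q hq
    exact (hZF q).1 hq
  set p' : Fin t' → ℂ := fun j => p (ι.symm j).1 with hp'
  have hupp : up p' = p := by
    funext i
    simp only [up, hp', Equiv.symm_apply_apply]
    split_ifs with h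
    · rfl
    · exact (not_not.1 h).symm
  have hp'Z : p' ∈ Zer (π '' sysF M E) := by
    rw [hZF, hupp, hZ]; exact hs
  have hne : ∀ j, p' j ≠ 0 := fun j => (ι.symm j).2
  -- the images of the monomials
  have hmon : ∀ o : O t, ∃ (o' : O t') (c : ℤ), |c| ≤ 1 ∧ (vl p o = 0 → c = 0) ∧
      (vl p o ≠ 0 → c = 1) ∧ π (monomial (eN o) 1) = monomial (eN o') c := by
    intro o
    cases o with
    | none =>
      refine ⟨none, 1, by simp, fun h => absurd h (by simp [vl]), fun _ => rfl, ?_⟩
      simp only [eN, Option.elim]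
      change π 1 = 1
      rw [map_one]
    | some i =>
      by_cases h : p i ≠ 0
      · refine ⟨some (ι ⟨i, h⟩), 1, by simp, fun h' => absurd h' (by simpa [vl] using h),
          fun _ => rfl, ?_⟩
        simp only [eN, Option.elim]
        change π (X i) = X _
        simp only [π, aeval_X, dif_pos h]
      · refine ⟨none, 0, by simp, fun _ => rfl, fun h' => absurd (by simpa [vl] using h') h, ?_⟩
        simp only [eN, Option.elim, monomial_zero]
        change π (X i) = _
        simp only [π, aeval_X, dif_neg h]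
  have htypes : ∀ f ∈ π '' sysF M E, (∃ w, IsBin f w) ∨ IsLin f := by
    rintro _ ⟨f, (⟨x, hx, rfl⟩ | ⟨x, hx, rfl⟩), rfl⟩
    · obtain ⟨o1, c1, -, h1, h1', e1⟩ := hmon x.1
      obtain ⟨o2, c2, -, h2, h2', e2⟩ := hmon x.2.1
      obtain ⟨o3, c3, -, h3, h3', e3⟩ := hmon x.2.2
      have hsx := hs.1 x hx
      have hmul : (monomial (eN x.1 + eN x.2.1) 1 : P t) =
          monomial (eN x.1) 1 * monomial (eN x.2.1) 1 := by rw [monomial_mul, one_mul]
      rw [map_sub, hmul, map_mul, e1, e2, e3, monomial_mul]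
      by_cases hz3 : vl p x.2.2 = 0
      · rw [hz3, mul_eq_zero] at hsx
        right
        have h12 : c1 * c2 = 0 := by
          rcases hsx with h | h
          · rw [h1 h, zero_mul]
          · rw [h2 h, mul_zero]
        rw [h12, h3 hz3, map_zero, map_zero, sub_zero]
        have := isLin_gen (t := t') none none none 0 0 0 (by simp) (by simp) (by simp)
        simpa using this
      · left
        have hn : vl p x.1 * vl p x.2.1 ≠ 0 := by rw [hsx]; exact hz3
        rw [h1' (left_ne_zero_of_mul hn), h2' (right_ne_zero_of_mul hn), h3' hz3, mul_one]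
        exact ⟨_, isBin_M (o1, o2, o3)⟩
    · obtain ⟨o1, c1, h1, -, -, e1⟩ := hmon x.1
      obtain ⟨o2, c2, h2, -, -, e2⟩ := hmon x.2.1
      obtain ⟨o3, c3, h3, -, -, e3⟩ := hmon x.2.2
      right
      rw [map_sub, map_add, e1, e2, e3]
      exact isLin_gen o1 o2 o3 c1 c2 c3 h1 h2 h3
  have hlt : t' < t := by
    have := Fintype.card_subtype_lt (p := fun i : Fin t => p i ≠ 0) (x := i₀) (by simpa using hz)
    rwa [Fintype.card_fin] at this
  set j : Fin t' := ι ⟨m, hm0⟩ with hj
  have hpj : p' j = p m := by simp [hp', hj]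
  have h1 := (hCT t' (π '' sysF M E) hfin' htypes p' hp'Z hne j (by rw [hpj]; exact hm)).1
  rw [hpj] at h1
  refine h1.trans ?_
  have hle : Module.finrank ℚ (Vsp (π '' sysF M E)) ≤ t' := by
    have := Submodule.finrank_le (Vsp (π '' sysF M E))
    simpa using this
  obtain ⟨r, hr⟩ := Nat.exists_eq_add_of_le hle
  have ht'1 : 1 ≤ t' := lt_of_le_of_lt (Nat.zero_le _) j.2
  set a := Module.finrank ℚ (Vsp (π '' sysF M E)) with ha
  have hr' : (t' : ℝ) = a + r := by exact_mod_cast hr
  have h2 := pow_aux2 a r (by omega)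
  have h3 : (r : ℝ) * 2 ^ a ≤ 2 ^ (a + r - 1) := by exact_mod_cast h2
  have h4 := log3_le
  have hl3 : 0 ≤ Real.log 3 := Real.log_nonneg (by norm_num)
  have hl2 : 0 ≤ Real.log 2 := Real.log_nonneg (by norm_num)
  rw [hr', add_sub_cancel_left]
  calc (r : ℝ) * Real.log 3 * 2 ^ a = (r * 2 ^ a) * Real.log 3 := by ring
    _ ≤ 2 ^ (a + r - 1) * (2 * Real.log 2) := mul_le_mul h3 h4 hl3 (by positivity)
    _ = 2 ^ (a + r - 1 + 1) * Real.log 2 := by rw [pow_succ]; ring
    _ ≤ 2 ^ (t - 1) * Real.log 2 := by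
        refine mul_le_mul_of_nonneg_right ?_ hl2
        exact pow_le_pow_right₀ (by norm_num) (by omega)

/-- The final bound. -/
theorem final_log (hCT : S_CT) (hC3 : S_CT3) (hSP : S_SPAN) (hI : S_INF1) (hP2 : S_POS2) {t : ℕ}
    {M E : Set (O t × O t × O t)} {p : Fin t → ℂ} (hs : p ∈ Sol ℂ M E)
    (hfin : (Sol ℂ M E).Finite) (m : Fin t) (hm : 1 < ‖p m‖) :
    Real.log ‖p m‖ ≤ 2 ^ (t - 1) * Real.log 2 := by
  by_cases hz : ∃ i, p i = 0
  · obtain ⟨i, hi⟩ := hz
    exact zero_case hCT hi hs hfin m hm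
  push Not at hz
  by_cases him : ∀ i, (p i).im = 0
  · exact real_all hCT hC3 hSP hI hP2 hz him hs hfin m
  push Not at him
  have hZ : Zer (sysF M E) = Sol ℂ M E := zer_sysF M E
  have h1 := (hCT t (sysF M E) (hZ ▸ hfin) (sysF_types M E) p (hZ ▸ hs) hz m hm).2 him
  rw [vsp_sysF] at h1
  have hle : Module.finrank ℚ (VM M) ≤ t := by
    have := Submodule.finrank_le (VM M)
    simpa using this
  obtain ⟨r, hr⟩ := Nat.exists_eq_add_of_le hle
  have ht1 : 1 ≤ t := lt_of_le_of_lt (Nat.zero_le _) m.2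
  set a := Module.finrank ℚ (VM M) with ha
  have hr' : (t : ℝ) = a + r := by exact_mod_cast hr
  have h2 := pow_aux2 a r (by omega)
  have h3 : (r : ℝ) * 2 ^ a ≤ 2 ^ (a + r - 1) := by exact_mod_cast h2
  have h4 := log3_le
  have hl3 : 0 ≤ Real.log 3 := Real.log_nonneg (by norm_num)
  rw [hr', add_sub_cancel_left] at h1
  have h5 : (r : ℝ) * Real.log 3 * 2 ^ a ≤ 2 ^ (t - 1) * (2 * Real.log 2) := by
    calc (r : ℝ) * Real.log 3 * 2 ^ a = (r * 2 ^ a) * Real.log 3 := by ring
      _ ≤ 2 ^ (a + r - 1) * (2 * Real.log 2) := mul_le_mul h3 h4 hl3 (by positivity)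
      _ = 2 ^ (t - 1) * (2 * Real.log 2) := by rw [← hr]
  linarith

theorem final_norm (hCT : S_CT) (hC3 : S_CT3) (hSP : S_SPAN) (hI : S_INF1) (hP2 : S_POS2) {t : ℕ}
    {M E : Set (O t × O t × O t)} {p : Fin t → ℂ} (hs : p ∈ Sol ℂ M E)
    (hfin : (Sol ℂ M E).Finite) (m : Fin t) :
    ‖p m‖ ≤ 2 ^ (2 ^ (t - 1)) := by
  by_cases hm : 1 < ‖p m‖
  · have h1 := final_log hCT hC3 hSP hI hP2 hs hfin m hm
    rw [← Real.log_le_log_iff (by linarith) (by positivity), Real.log_pow]
    push_cast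
    exact h1
  · exact (not_lt.1 hm).trans (one_le_pow₀ (by norm_num))

end Pool.Agent.Q6.TY
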