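import Pool.Agent.Q6.TY.CTW
import Pool.Agent.Q6.TY.Zero

set_option autoImplicit false
set_option maxHeartbeats 400000

/-!
# Project TY, second stage: every consistent system has a small solution
-/

namespace Pool.Agent.Q6.TY

open MvPolynomial

theorem log3_lt : Real.log 3 < 2 * Real.log 2 := by
  rw [show (2 : ℝ) * Real.log 2 = Real.log (2 ^ 2) by rw [Real.log_pow]; norm_num]
  exact Real.log_lt_log (by norm_num) (by norm_num)

theorem two_mul_le_pow (r : ℕ) : 2 * r ≤ 2 ^ r := by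
  induction r with
  | zero => simp
  | succ r ih =>
    cases r with
    | zero => norm_num
    | succ r =>
      have : 2 ≤ 2 ^ (r + 1) := by
        rw [pow_succ]
        have := Nat.one_le_two_pow (n := r)
        omega
      rw [pow_succ 2 (r + 1)]
      omega

/-- conclusion from the averaged bound -/
theorem w_concl {t : ℕ} {x B : ℝ} (hx : 2 * x ≤ 2 ^ (t - 1))
    (h : Real.log B ≤ x * Real.log 3) : 2 * Real.log B ≤ 2 ^ (t - 1) * Real.log 3 := by
  have hl3 : 0 ≤ Real.log 3 := Real.log_nonneg (by norm_num)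
  nlinarith

/-- the case of a point without zero coordinates -/
theorem w_nonzero (hW : S_CTW) (hTo : S_TORS) {t : ℕ} {M E : Set (O t × O t × O t)}
    {p : Fin t → ℂ} (hp : p ∈ Sol ℂ M E) (hne : ∀ i, p i ≠ 0) {I : Finset (Fin t)}
    {N : Fin t → ℕ} (hI : I.Nonempty) (hN : ∀ i ∈ I, (N i).Prime ∧ 2 < N i)
    (hinj : ∀ i ∈ I, ∀ j ∈ I, N i = N j → i = j)
    (hprim : ∀ i ∈ I, IsPrimitiveRoot (p i) (N i))
    (hfin : {q | q ∈ Zer (sysF M E) ∧ ∀ i ∈ I, IsPrimitiveRoot (q i) (N i)}.Finite)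
    (hK : ∀ i ∈ I, ∀ k : ℕ, 1 ≤ k → ex (some i) ∈ VM M →
      (∀ q ∈ Sol ℂ M E, (∀ j, q j ≠ 0) → q i ^ k = 1) → ∃ k' : ℕ, 1 ≤ k' ∧ k' < N i ∧
      ∀ q ∈ Sol ℂ M E, (∀ j, q j ≠ 0) → q i ^ k' = 1) {B : ℝ} (hB1 : 1 < B)
    (hBig : ∀ q ∈ Zer (sysF M E), (∀ i ∈ I, IsPrimitiveRoot (q i) (N i)) → ∃ m, B ≤ ‖q m‖) :
    2 * Real.log B ≤ 2 ^ (t - 1) * Real.log 3 := by
  have hZ : Zer (sysF M E) = Sol ℂ M E := zer_sysF M E
  have h := hW t (sysF M E) (sysF_types M E) p (hZ ▸ hp) hne I N hI hN hinj hprim hfin _ hB1 hBig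
  obtain ⟨i, hi⟩ := hI
  have hVM : Vsp (sysF M E) = VM M := vsp_sysF M E
  have heV : (Pi.single i 1 : Fin t → ℚ) ∈ VI (sysF M E) I :=
    Submodule.mem_sup_right (Submodule.subset_span ⟨i, hi, rfl⟩)
  have heN : (Pi.single i 1 : Fin t → ℚ) ∉ Vsp (sysF M E) := by
    intro hmem
    rw [hVM] at hmem
    obtain ⟨k, hk1, hk⟩ := hTo t M E i hmem
    obtain ⟨k', hk1', hkN, hk'⟩ := hK i hi k hk1 hmem hk
    have h1 := hk' p hp hne
    have h2 := (hprim i hi).dvd_of_pow_eq_one k' h1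
    have := Nat.le_of_dvd (by omega) h2
    omega
  have hlt : Vsp (sysF M E) < VI (sysF M E) I :=
    lt_of_le_of_ne le_sup_left (fun h => heN (h ▸ heV))
  have hf := Submodule.finrank_lt_finrank_of_lt hlt
  have hle : Module.finrank ℚ (VI (sysF M E) I) ≤ t := by
    have := Submodule.finrank_le (VI (sysF M E) I)
    simpa using this
  set a := Module.finrank ℚ (Vsp (sysF M E)) with ha
  set b := Module.finrank ℚ (VI (sysF M E) I) with hb
  obtain ⟨r, hr⟩ := Nat.exists_eq_add_of_le (show a + 1 ≤ t by omega)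
  refine w_concl (t := t) (x := ((t : ℝ) - b) * 2 ^ a) ?_ ?_
  · have h1 : (t : ℝ) - b ≤ r := by
      have h2 : (a : ℝ) + 1 ≤ b := by exact_mod_cast hf
      have h3 : (t : ℝ) = a + 1 + r := by exact_mod_cast hr
      linarith
    have h4 : (2 : ℝ) * r ≤ 2 ^ r := by exact_mod_cast two_mul_le_pow r
    have h5 : (2 : ℝ) ^ (t - 1) = 2 ^ r * 2 ^ a := by
      rw [← pow_add]; congr 1; omega
    rw [h5]
    have h6 : (0 : ℝ) < 2 ^ a := by positivity
    nlinarith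
  · refine h.trans (le_of_eq ?_)
    ring

/-- the case of a point with a zero coordinate -/
theorem w_zero (hW : S_CTW) {t : ℕ} {M E : Set (O t × O t × O t)}
    {p : Fin t → ℂ} (hs : p ∈ Sol ℂ M E) {i₀ : Fin t} (hz : p i₀ = 0) {I : Finset (Fin t)}
    {N : Fin t → ℕ} (hI : I.Nonempty) (hN : ∀ i ∈ I, (N i).Prime ∧ 2 < N i)
    (hinj : ∀ i ∈ I, ∀ j ∈ I, N i = N j → i = j)
    (hprim : ∀ i ∈ I, IsPrimitiveRoot (p i) (N i))
    (hfin : {q | q ∈ Zer (sysF M E) ∧ ∀ i ∈ I, IsPrimitiveRoot (q i) (N i)}.Finite)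
    {B : ℝ} (hB1 : 1 < B)
    (hBig : ∀ q ∈ Zer (sysF M E), (∀ i ∈ I, IsPrimitiveRoot (q i) (N i)) → ∃ m, B ≤ ‖q m‖) :
    2 * Real.log B ≤ 2 ^ (t - 1) * Real.log 3 := by
  classical
  have hpI : ∀ i ∈ I, p i ≠ 0 := fun i hi => (hprim i hi).ne_zero (hN i hi).1.ne_zero
  set t' := Fintype.card {i : Fin t // p i ≠ 0} with ht'
  let ι : {i : Fin t // p i ≠ 0} ≃ Fin t' := Fintype.equivFin _
  let π : P t →ₐ[ℤ] P t' := aeval (fun i => if h : p i ≠ 0 then X (ι ⟨i, h⟩) else 0)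
  let up : (Fin t' → ℂ) → (Fin t → ℂ) := fun q i => if h : p i ≠ 0 then q (ι ⟨i, h⟩) else 0
  have hev : ∀ (q : Fin t' → ℂ) (f : P t), evh q (π f) = evh (up q) f := by
    intro q f
    have h1 : (aeval q : P t' →ₐ[ℤ] ℂ).comp π = aeval (up q) := by
      refine MvPolynomial.algHom_ext fun i => ?_
      simp only [AlgHom.comp_apply, π, up, aeval_X]
      split_ifs with h
      · rw [aeval_X]
      · rw [map_zero]
    exact DFunLike.congr_fun h1 f
  have hZ : Zer (sysF M E) = Sol ℂ M E := zer_sysF M E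
  have hup : Function.Injective up := by
    intro q q' h
    funext j
    have h1 := congrFun h (ι.symm j).1
    simp only [up, dif_pos (ι.symm j).2, Subtype.coe_eta, Equiv.apply_symm_apply] at h1
    exact h1
  have hZF : ∀ q, q ∈ Zer (π '' sysF M E) ↔ up q ∈ Zer (sysF M E) := by
    intro q
    constructor
    · intro h f hf
      rw [← hev]; exact h _ ⟨f, hf, rfl⟩
    · rintro h _ ⟨f, hf, rfl⟩
      rw [hev]; exact h f hf
  set p' : Fin t' → ℂ := fun j => p (ι.symm j).1 with hp'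
  have hupp : up p' = p := by
    funext i
    simp only [up, hp', Equiv.symm_apply_apply]
    split_ifs with h
    · rfl
    · exact (not_not.1 h).symm
  have hp'Z : p' ∈ Zer (π '' sysF M E) := by
    rw [hZF, hupp, hZ]; exact hs
  have hne : ∀ j, p' j ≠ 0 := fun j => (ι.symm j).2
  -- the images of the monomials
  have hmon : ∀ o : O t, ∃ (o' : O t') (c : ℤ), |c| ≤ 1 ∧ (vl p o = 0 → c = 0) ∧
      (vl p o ≠ 0 → c = 1) ∧ π (monomial (eN o) 1) = monomial (eN o') c := by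
    intro o
    cases o with
    | none =>
      refine ⟨none, 1, by simp, fun h => absurd h (by simp [vl]), fun _ => rfl, ?_⟩
      simp only [eN, Option.elim]
      change π 1 = 1
      rw [map_one]
    | some i =>
      by_cases h : p i ≠ 0
      · refine ⟨some (ι ⟨i, h⟩), 1, by simp, fun h' => absurd h' (by simpa [vl] using h),
          fun _ => rfl, ?_⟩
        simp only [eN, Option.elim]
        change π (X i) = X _
        simp only [π, aeval_X, dif_pos h]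
      · refine ⟨none, 0, by simp, fun _ => rfl, fun h' => absurd (by simpa [vl] using h') h, ?_⟩
        simp only [eN, Option.elim, monomial_zero]
        change π (X i) = _
        simp only [π, aeval_X, dif_neg h]
  have htypes : ∀ f ∈ π '' sysF M E, (∃ w, IsBin f w) ∨ IsLin f := by
    rintro _ ⟨f, (⟨x, hx, rfl⟩ | ⟨x, hx, rfl⟩), rfl⟩
    · obtain ⟨o1, c1, -, h1, h1', e1⟩ := hmon x.1
      obtain ⟨o2, c2, -, h2, h2', e2⟩ := hmon x.2.1
      obtain ⟨o3, c3, -, h3, h3', e3⟩ := hmon x.2.2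
      have hsx := hs.1 x hx
      have hmul : (monomial (eN x.1 + eN x.2.1) 1 : P t) =
          monomial (eN x.1) 1 * monomial (eN x.2.1) 1 := by rw [monomial_mul, one_mul]
      rw [map_sub, hmul, map_mul, e1, e2, e3, monomial_mul]
      by_cases hz3 : vl p x.2.2 = 0
      · rw [hz3, mul_eq_zero] at hsx
        right
        have h12 : c1 * c2 = 0 := by
          rcases hsx with h | h
          · rw [h1 h, zero_mul]
          · rw [h2 h, mul_zero]
        rw [h12, h3 hz3, map_zero, map_zero, sub_zero]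
        have := isLin_gen (t := t') none none none 0 0 0 (by simp) (by simp) (by simp)
        simpa using this
      · left
        have hn : vl p x.1 * vl p x.2.1 ≠ 0 := by rw [hsx]; exact hz3
        rw [h1' (left_ne_zero_of_mul hn), h2' (right_ne_zero_of_mul hn), h3' hz3, mul_one]
        exact ⟨_, isBin_M (o1, o2, o3)⟩
    · obtain ⟨o1, c1, h1, -, -, e1⟩ := hmon x.1
      obtain ⟨o2, c2, h2, -, -, e2⟩ := hmon x.2.1
      obtain ⟨o3, c3, h3, -, -, e3⟩ := hmon x.2.2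
      right
      rw [map_sub, map_add, e1, e2, e3]
      exact isLin_gen o1 o2 o3 c1 c2 c3 h1 h2 h3
  have hlt : t' < t := by
    have := Fintype.card_subtype_lt (p := fun i : Fin t => p i ≠ 0) (x := i₀) (by simpa using hz)
    rwa [Fintype.card_fin] at this
  set I' : Finset (Fin t') := Finset.univ.filter (fun j => (ι.symm j).1 ∈ I) with hI'
  have hmemI' : ∀ j, j ∈ I' ↔ (ι.symm j).1 ∈ I := fun j => by simp [hI']
  have hI'ne : I'.Nonempty := by
    obtain ⟨i, hi⟩ := hI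
    exact ⟨ι ⟨i, hpI i hi⟩, (hmemI' _).2 (by simpa using hi)⟩
  set N' : Fin t' → ℕ := fun j => N (ι.symm j).1 with hN'
  have hfin' : {q | q ∈ Zer (π '' sysF M E) ∧ ∀ j ∈ I', IsPrimitiveRoot (q j) (N' j)}.Finite := by
    refine (hfin.preimage (hup.injOn (s := _))).subset ?_
    rintro q ⟨hq1, hq2⟩
    refine ⟨(hZF q).1 hq1, fun i hi => ?_⟩
    have h1 := hq2 (ι ⟨i, hpI i hi⟩) ((hmemI' _).2 (by simpa using hi))
    simp only [hN', Equiv.symm_apply_apply] at h1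
    simpa only [up, dif_pos (hpI i hi)] using h1
  have hupI : ∀ q, (∀ j ∈ I', IsPrimitiveRoot (q j) (N' j)) →
      ∀ i ∈ I, IsPrimitiveRoot (up q i) (N i) := by
    intro q hq2 i hi
    have h1 := hq2 (ι ⟨i, hpI i hi⟩) ((hmemI' _).2 (by simpa using hi))
    simp only [hN', Equiv.symm_apply_apply] at h1
    simpa only [up, dif_pos (hpI i hi)] using h1
  have h := hW t' (π '' sysF M E) htypes p' hp'Z hne I' N' hI'ne
    (fun j hj => hN _ ((hmemI' j).1 hj))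
    (fun i hi j hj hij => by
      have h1 := hinj _ ((hmemI' i).1 hi) _ ((hmemI' j).1 hj) hij
      exact ι.symm.injective (Subtype.ext h1))
    (fun j hj => hprim _ ((hmemI' j).1 hj)) hfin' _ hB1 (fun q hq hq2 => by
      obtain ⟨m, hm⟩ := hBig (up q) ((hZF q).1 hq) (hupI q hq2)
      by_cases hpm : p m ≠ 0
      · exact ⟨ι ⟨m, hpm⟩, by simpa only [up, dif_pos hpm] using hm⟩
      · exfalso
        simp only [up, dif_neg hpm, norm_zero] at hm
        linarith)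
  have hle : Module.finrank ℚ (Vsp (π '' sysF M E)) ≤ t' := by
    have := Submodule.finrank_le (Vsp (π '' sysF M E))
    simpa using this
  have hle2 : Module.finrank ℚ (Vsp (π '' sysF M E)) ≤
      Module.finrank ℚ (VI (π '' sysF M E) I') := Submodule.finrank_mono le_sup_left
  obtain ⟨j, -⟩ := hI'ne
  have ht'1 : 1 ≤ t' := lt_of_le_of_lt (Nat.zero_le _) j.2
  set a := Module.finrank ℚ (Vsp (π '' sysF M E)) with ha
  set b := Module.finrank ℚ (VI (π '' sysF M E) I') with hb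
  obtain ⟨r, hr⟩ := Nat.exists_eq_add_of_le hle
  refine w_concl (t := t) (x := ((t' : ℝ) - b) * 2 ^ a) ?_ ?_
  · have h1 : (t' : ℝ) - b ≤ r := by
      have h2 : (a : ℝ) ≤ b := by exact_mod_cast hle2
      have h3 : (t' : ℝ) = a + r := by exact_mod_cast hr
      linarith
    have h4 : (r : ℝ) * 2 ^ a ≤ 2 ^ (a + r - 1) := by exact_mod_cast pow_aux2 a r (by omega)
    have h6 : (0 : ℝ) < 2 ^ a := by positivity
    calc 2 * (((t' : ℝ) - b) * 2 ^ a) ≤ 2 * (r * 2 ^ a) := by nlinarith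
      _ ≤ 2 * 2 ^ (a + r - 1) := by linarith
      _ = 2 ^ (a + r - 1 + 1) := by rw [pow_succ]; ring
      _ ≤ 2 ^ (t - 1) := pow_le_pow_right₀ (by norm_num) (by omega)
  · refine h.trans (le_of_eq ?_)
    ring

/-- If there are infinitely many solutions there is one with a coordinate of modulus one and all
coordinates of modulus at most `3 ^ (2 ^ (t - 1) / 2)`. -/
theorem w_inf (hW : S_CTW) (hTo : S_TORS) (hCut : S_CUT) {t : ℕ} {M E : Set (O t × O t × O t)}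
    (hinf : (Sol ℂ M E).Infinite) :
    ∃ y ∈ Sol ℂ M E, (∃ i, ‖y i‖ = 1) ∧ ∀ m, ‖y m‖ ^ 2 ≤ 3 ^ (2 ^ (t - 1)) := by
  classical
  have hZ : Zer (sysF M E) = Sol ℂ M E := zer_sysF M E
  -- the bound for the orders
  have hk : ∀ i : Fin t, ∃ k : ℕ, ex (some i) ∈ VM M → (1 ≤ k ∧
      ∀ q ∈ Sol ℂ M E, (∀ j, q j ≠ 0) → q i ^ k = 1) := by
    intro i
    by_cases h : ex (some i) ∈ VM M
    · obtain ⟨k, h1, h2⟩ := hTo t M E i h
      exact ⟨k, fun _ => ⟨h1, h2⟩⟩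
    · exact ⟨0, fun h' => absurd h' h⟩
  choose kk hkk using hk
  obtain ⟨I, N, hI, hN, hinj, hfin', hne'⟩ := hCut t (sysF M E) (hZ ▸ hinf) (2 + ∑ i, kk i)
  have hN2 : ∀ i ∈ I, (N i).Prime ∧ 2 < N i := fun i hi =>
    ⟨(hN i hi).1, by have := (hN i hi).2; omega⟩
  by_contra hcon
  push Not at hcon
  have hbig : ∀ q ∈ {q | q ∈ Zer (sysF M E) ∧ ∀ i ∈ I, IsPrimitiveRoot (q i) (N i)},
      ∃ m, (3 : ℝ) ^ (2 ^ (t - 1)) < ‖q m‖ ^ 2 := by
    rintro q ⟨hq1, hq2⟩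
    obtain ⟨i, hi⟩ := hI
    refine hcon q (hZ ▸ hq1) ⟨i, ?_⟩
    exact Complex.norm_eq_one_of_pow_eq_one (hq2 i hi).pow_eq_one (hN i hi).1.ne_zero
  -- the minimum
  obtain ⟨B, hB0, hB3, hB⟩ : ∃ B : ℝ, 0 < B ∧ (3 : ℝ) ^ (2 ^ (t - 1)) < B ^ 2 ∧
      ∀ q ∈ {q | q ∈ Zer (sysF M E) ∧ ∀ i ∈ I, IsPrimitiveRoot (q i) (N i)}, ∃ m, B ≤ ‖q m‖ := by
    have hc : ∀ q, ∃ m : Fin t, q ∈ {q | q ∈ Zer (sysF M E) ∧
        ∀ i ∈ I, IsPrimitiveRoot (q i) (N i)} → (3 : ℝ) ^ (2 ^ (t - 1)) < ‖q m‖ ^ 2 := by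
      intro q
      by_cases hq : q ∈ {q | q ∈ Zer (sysF M E) ∧ ∀ i ∈ I, IsPrimitiveRoot (q i) (N i)}
      · obtain ⟨m, hm⟩ := hbig q hq
        exact ⟨m, fun _ => hm⟩
      · obtain ⟨i, -⟩ := hI
        exact ⟨i, fun h => absurd h hq⟩
    choose mm hmm using hc
    obtain ⟨q0, hq0, hmin⟩ := Set.exists_min_image _ (fun q => ‖q (mm q)‖) hfin' hne'
    refine ⟨‖q0 (mm q0)‖, ?_, hmm q0 hq0, fun q hq => ⟨mm q, hmin q hq⟩⟩
    have h1 := hmm q0 hq0
    by_contra h2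
    have h3 : ‖q0 (mm q0)‖ = 0 := le_antisymm (not_lt.1 h2) (norm_nonneg _)
    rw [h3] at h1
    have h4 : (0 : ℝ) < 3 ^ (2 ^ (t - 1)) := by positivity
    norm_num at h1
    linarith
  have hB1 : 1 < B := by
    have h1 : (1 : ℝ) ≤ 3 ^ (2 ^ (t - 1)) := one_le_pow₀ (by norm_num)
    by_contra h2
    have h3 : B ^ 2 ≤ 1 := pow_le_one₀ hB0.le (not_lt.1 h2)
    linarith
  have hBig : ∀ q ∈ Zer (sysF M E), (∀ i ∈ I, IsPrimitiveRoot (q i) (N i)) →
      ∃ m, B ≤ ‖q m‖ := fun q hq1 hq2 => hB q ⟨hq1, hq2⟩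
  have hfinal : 2 * Real.log B ≤ 2 ^ (t - 1) * Real.log 3 := by
    obtain ⟨p, hpZ, hprim⟩ := hne'
    by_cases hz : ∃ i, p i = 0
    · obtain ⟨i₀, hi₀⟩ := hz
      exact w_zero hW (hZ ▸ hpZ) hi₀ hI hN2 hinj hprim hfin' hB1 hBig
    · push Not at hz
      refine w_nonzero hW hTo (hZ ▸ hpZ) hz hI hN2 hinj hprim hfin' (fun i hi k _ hmem _ => ?_)
        hB1 hBig
      refine ⟨kk i, (hkk i hmem).1, ?_, (hkk i hmem).2⟩
      have h1 : kk i ≤ ∑ i, kk i :=
        Finset.single_le_sum (f := kk) (fun _ _ => Nat.zero_le _) (Finset.mem_univ i)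
      have := (hN i hi).2
      omega
  have h1 : Real.log (3 ^ (2 ^ (t - 1))) < Real.log (B ^ 2) :=
    Real.log_lt_log (by positivity) hB3
  rw [Real.log_pow, Real.log_pow] at h1
  push_cast at h1
  linarith

/-- Every consistent system has a solution in the polydisc of radius `2 ^ (2 ^ (t - 1))`. -/
theorem w_all (hW : S_CTW) (hTo : S_TORS) (hCut : S_CUT)
    (hF : ∀ (t : ℕ) (M E : Set (O t × O t × O t)) (p : Fin t → ℂ), p ∈ Sol ℂ M E →
      (Sol ℂ M E).Finite → ∀ m, ‖p m‖ ≤ 2 ^ (2 ^ (t - 1)))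
    {t : ℕ} {M E : Set (O t × O t × O t)} (hne : (Sol ℂ M E).Nonempty) :
    ∃ y ∈ Sol ℂ M E, ∀ m, ‖y m‖ ≤ 2 ^ (2 ^ (t - 1)) := by
  by_cases hfin : (Sol ℂ M E).Finite
  · obtain ⟨y, hy⟩ := hne
    exact ⟨y, hy, fun m => hF t M E y hy hfin m⟩
  · obtain ⟨y, hy, -, hb⟩ := w_inf hW hTo hCut hfin
    refine ⟨y, hy, fun m => ?_⟩
    have h1 : ‖y m‖ ^ 2 ≤ (2 ^ (2 ^ (t - 1))) ^ 2 := by
      refine (hb m).trans ?_
      rw [← pow_mul, mul_comm, pow_mul]
      exact pow_le_pow_left₀ (by norm_num) (by norm_num) _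
    exact le_of_sq_le_sq h1 (by positivity)

end Pool.Agent.Q6.TY
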