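import Pool.Agent.Q6.TY.W
import Pool.Agent.Q6.TY.Final

set_option autoImplicit false
set_option maxHeartbeats 400000

/-!
# Project TY, second stage: bounded images of complex tuples
-/

namespace Pool.Agent.Q6.TY

open MvPolynomial

theorem bound_eq (t : ℕ) (ht : 1 ≤ t) :
    (2 : ℝ) ^ ((2 : ℝ) ^ (((t + 1 : ℕ) : ℝ) - 2)) = 2 ^ (2 ^ (t - 1)) := by
  rw [show ((t + 1 : ℕ) : ℝ) - 2 = ((t - 1 : ℕ) : ℝ) by
    rw [Nat.cast_sub ht]; push_cast; ring]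
  rw [Real.rpow_natCast, show ((2 : ℝ) ^ (t - 1)) = ((2 ^ (t - 1) : ℕ) : ℝ) by push_cast; rfl,
    Real.rpow_natCast]

/-- A consistent system with an equation `x i₀ = 1` has a small solution. -/
theorem small_one
    (hF : ∀ (t : ℕ) (M E : Set (O t × O t × O t)), (Sol ℂ M E).Nonempty →
      ∃ y ∈ Sol ℂ M E, ∀ m, ‖y m‖ ≤ 2 ^ (2 ^ (t - 1))) (n : ℕ)
    (A : Set (Fin n)) (B C : Set (Fin n × Fin n × Fin n)) (hA : A.Nonempty)
    (h : (SolE A B C).Nonempty) :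
    ∃ y ∈ SolE A B C, ∀ i, ‖y i‖ ≤ (2 : ℝ) ^ ((2 : ℝ) ^ ((n : ℝ) - 2)) := by
  obtain ⟨i₀, hi₀⟩ := hA
  obtain ⟨x, hx⟩ := h
  obtain ⟨t, rfl⟩ : ∃ t, n = t + 1 := ⟨n - 1, by have := i₀.2; omega⟩
  have hx0 : x i₀ = 1 := hx.1 i₀ hi₀
  have hone : (1 : ℝ) ≤ (2 : ℝ) ^ ((2 : ℝ) ^ (((t + 1 : ℕ) : ℝ) - 2)) :=
    Real.one_le_rpow (by norm_num) (by positivity)
  set φ : Fin (t + 1) → O t := fun i => finSuccEquiv' i₀ i with hφ
  set q : Fin t → ℂ := fun j => x (i₀.succAbove j) with hq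
  have hxq : (fun i => vl q (φ i)) = x := by
    funext i
    by_cases h : i = i₀
    · rw [h]; simp [hφ, vl, hx0]
    · obtain ⟨j, rfl⟩ := Fin.exists_succAbove_eq h
      simp [hφ, vl, hq]
  have h2 : q ∈ Sol ℂ (MM φ A C) (EE φ B) := by
    rw [← solE_iff, hxq]; exact hx
  obtain ⟨y, hy, hyb⟩ := hF t (MM φ A C) (EE φ B) ⟨q, h2⟩
  refine ⟨fun i => vl y (φ i), (solE_iff φ A B C y).2 hy, fun i => ?_⟩
  by_cases hi : i = i₀
  · rw [hi]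
    simpa [hφ, vl] using hone
  · obtain ⟨j, rfl⟩ := Fin.exists_succAbove_eq hi
    have ht : 1 ≤ t := lt_of_le_of_lt (Nat.zero_le _) j.2
    rw [bound_eq t ht]
    simpa [hφ, vl] using hyb j

/-- Every complex tuple has a bounded image. -/
theorem bounded_image
    (hF : ∀ (t : ℕ) (M E : Set (O t × O t × O t)), (Sol ℂ M E).Nonempty →
      ∃ y ∈ Sol ℂ M E, ∀ m, ‖y m‖ ≤ 2 ^ (2 ^ (t - 1))) (n : ℕ) (x : Fin n → ℂ) :
    ∃ y : Fin n → ℂ, (∀ i, ‖y i‖ ≤ (2 : ℝ) ^ ((2 : ℝ) ^ ((n : ℝ) - 2))) ∧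
      (∀ i, x i = 1 → y i = 1) ∧ (∀ i j k, x i + x j = x k → y i + y j = y k) ∧
      (∀ i j k, x i * x j = x k → y i * y j = y k) := by
  by_cases h1 : ∃ i, x i = 1
  · obtain ⟨y, hy, hb⟩ := small_one hF n {i | x i = 1} {e | x e.1 + x e.2.1 = x e.2.2}
      {e | x e.1 * x e.2.1 = x e.2.2} h1 ⟨x, fun i hi => hi, fun e he => he, fun e he => he⟩
    exact ⟨y, hb, fun i hi => hy.1 i hi, fun i j k hijk => hy.2.1 (i, j, k) hijk,
      fun i j k hijk => hy.2.2 (i, j, k) hijk⟩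
  · push Not at h1
    refine ⟨fun _ => 0, fun i => ?_, fun i hi => absurd hi (h1 i), fun i j k _ => by simp,
      fun i j k _ => by simp⟩
    rw [norm_zero]
    positivity

end Pool.Agent.Q6.TY
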